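import Pool.Agent.W638.CW.Asm

/-! Common zeros of coprime homogeneous polynomials at nonconstant points
(problem MP_5bde83_ag). -/

set_option autoImplicit false
set_option linter.unusedSectionVars false
set_option linter.unusedSimpArgs false

open MvPolynomial
open Pool.Agent.W510.Cvx (R3 drv)

namespace Pool.Agent.W638.CW

/-- An irreducible relation divides all relations. -/
theorem irreducible_dvd' {A L : Type*} [CommRing A] [IsDomain A] [UniqueFactorizationMonoid A]
    [Field L] (g : A →+* L) (hg : Function.Injective g) (v : L) (P Q : Polynomial A)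
    (hP : Irreducible P)
    (hPv : P.eval₂ g v = 0) (hQv : Q.eval₂ g v = 0) : P ∣ Q := by
  classical
  letI : NormalizedGCDMonoid A := Classical.choice inferInstance
  have hdeg : P.natDegree ≠ 0 := by
    intro h0
    rw [Polynomial.natDegree_eq_zero] at h0
    obtain ⟨p, rfl⟩ := h0
    rw [Polynomial.eval₂_C] at hPv
    have : p = 0 := hg (by rw [hPv, map_zero])
    rw [this, Polynomial.C_0] at hP
    exact hP.ne_zero rfl
  have hprim : P.IsPrimitive := hP.isPrimitive hdeg
  have hirr := (hprim.irreducible_iff_irreducible_map_fraction_map (K := FractionRing A)).1 hP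
  rw [hprim.dvd_iff_fraction_map_dvd_fraction_map (K := FractionRing A)]
  by_contra hnd
  have hcop := (hirr.coprime_iff_not_dvd).2 hnd
  obtain ⟨a, b, hab⟩ := hcop
  set g' : FractionRing A →+* L := IsFractionRing.lift (A := A) (g := g) hg with hg'
  have hcomp : g'.comp (algebraMap A (FractionRing A)) = g := by
    apply RingHom.ext
    intro p
    rw [hg']
    exact IsFractionRing.lift_algebraMap hg p
  have h1 : ∀ R : Polynomial A, (R.map (algebraMap A (FractionRing A))).eval₂ g' v =
      R.eval₂ g v := by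
    intro R
    rw [Polynomial.eval₂_map, hcomp]
  have h2 := congrArg (fun R => R.eval₂ g' v) hab
  simp only [Polynomial.eval₂_add, Polynomial.eval₂_mul, h1, hPv, hQv, mul_zero, add_zero,
    Polynomial.eval₂_one] at h2
  exact zero_ne_one h2

variable {M : Type*} [Field M] [Algebra ℂ M]

/-- the cone over the point `(x, y, 1)` -/
noncomputable def cone (x y : M) : R3 →ₐ[ℂ] Polynomial M :=
  aeval ![Polynomial.C x * Polynomial.X, Polynomial.C y * Polynomial.X, Polynomial.X]

lemma cone_monomial (x y : M) (m : Fin 3 →₀ ℕ) (c : ℂ) :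
    cone x y (monomial m c) = Polynomial.C (aeval ![x, y, 1] (monomial m c)) *
      Polynomial.X ^ (m 0 + m 1 + m 2) := by
  rw [cone, aeval_monomial, aeval_monomial, Finsupp.prod_fintype _ _ (fun i => pow_zero _),
    Finsupp.prod_fintype _ _ (fun i => pow_zero _), Fin.prod_univ_three, Fin.prod_univ_three]
  simp only [Matrix.cons_val_zero, Matrix.cons_val_one, Matrix.cons_val, one_pow, mul_one,
    mul_pow, Polynomial.C_mul, Polynomial.C_pow]
  have : algebraMap ℂ (Polynomial M) c = Polynomial.C (algebraMap ℂ M c) := rfl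
  rw [this, pow_add, pow_add]
  ring

lemma cone_hom (x y : M) {f : R3} {n : ℕ} (hf : f.IsHomogeneous n) :
    cone x y f = Polynomial.C (aeval ![x, y, 1] f) * Polynomial.X ^ n := by
  conv_lhs => rw [f.as_sum]
  conv_rhs => rw [f.as_sum]
  rw [map_sum, map_sum, map_sum, Finset.sum_mul]
  refine Finset.sum_congr rfl (fun m hm => ?_)
  have hd := hf (mem_support_iff.mp hm)
  rw [wt3] at hd
  rw [cone_monomial, hd]

/-- the cone over `y`, in two variables -/
noncomputable def cone2 (y : M) : MvPolynomial (Fin 2) ℂ →ₐ[ℂ] Polynomial M :=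
  aeval ![Polynomial.C y * Polynomial.X, Polynomial.X]

lemma cone2_inj {y : M} (hy : Transcendental ℂ y) : Function.Injective (cone2 y) := by
  classical
  rw [injective_iff_map_eq_zero]
  intro W hW
  by_contra hne
  obtain ⟨m0, hm0⟩ := Finset.nonempty_of_ne_empty (mt support_eq_empty.1 hne)
  set g : Polynomial ℂ := ∑ m ∈ W.support, if m 0 + m 1 = m0 0 + m0 1 then
    Polynomial.monomial (m 0) (coeff m W) else 0 with hg
  have h1 : Polynomial.aeval y g = (cone2 y W).coeff (m0 0 + m0 1) := by
    conv_rhs => rw [W.as_sum]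
    rw [hg, map_sum, map_sum, Polynomial.finsetSum_coeff]
    refine Finset.sum_congr rfl (fun m _ => ?_)
    rw [cone2, aeval_monomial, Finsupp.prod_fintype _ _ (fun i => pow_zero _), Fin.prod_univ_two]
    simp only [Matrix.cons_val_zero, Matrix.cons_val_one, mul_pow]
    have e1 : algebraMap ℂ (Polynomial M) (coeff m W) * (Polynomial.C y ^ m 0 *
        Polynomial.X ^ m 0 * Polynomial.X ^ m 1) =
        Polynomial.C (algebraMap ℂ M (coeff m W) * y ^ m 0) * Polynomial.X ^ (m 0 + m 1) := by
      have : algebraMap ℂ (Polynomial M) (coeff m W) =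
        Polynomial.C (algebraMap ℂ M (coeff m W)) := rfl
      rw [this, Polynomial.C_mul, Polynomial.C_pow, pow_add]; ring
    rw [e1, Polynomial.coeff_C_mul_X_pow]
    by_cases h : m 0 + m 1 = m0 0 + m0 1
    · rw [if_pos h, if_pos h.symm, Polynomial.aeval_monomial]
    · rw [if_neg h, if_neg (Ne.symm h), map_zero]
  rw [hW, Polynomial.coeff_zero] at h1
  have h2 : g = 0 := by
    by_contra hgne
    exact hy ⟨g, hgne, h1⟩
  have h3 : g.coeff (m0 0) = coeff m0 W := by
    rw [hg, Polynomial.finsetSum_coeff, Finset.sum_eq_single m0]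
    · rw [if_pos rfl, Polynomial.coeff_monomial, if_pos rfl]
    · intro m _ hmm
      by_cases h : m 0 + m 1 = m0 0 + m0 1
      · rw [if_pos h, Polynomial.coeff_monomial, if_neg]
        intro h4
        apply hmm
        ext i
        fin_cases i
        · exact h4
        · show m 1 = m0 1; omega
      · rw [if_neg h, Polynomial.coeff_zero]
    · intro h; exact absurd hm0 h
  rw [h2, Polynomial.coeff_zero] at h3
  exact (mem_support_iff.1 hm0) h3.symm

lemma cz_aux {x y : M} (hy : Transcendental ℂ y) {P Q : R3} {a b : ℕ} (hP : Irreducible P)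
    (hPh : P.IsHomogeneous a) (hQh : Q.IsHomogeneous b)
    (hP0 : aeval ![x, y, 1] P = 0) (hQ0 : aeval ![x, y, 1] Q = 0) : P ∣ Q := by
  set L := FractionRing (Polynomial M) with hL
  set g : MvPolynomial (Fin 2) ℂ →+* L :=
    (algebraMap (Polynomial M) L).comp (cone2 y).toRingHom with hg
  have hginj : Function.Injective g := by
    rw [hg]
    exact (IsFractionRing.injective (Polynomial M) L).comp (cone2_inj hy)
  have key : ∀ W : R3, (finSuccEquiv ℂ 2 W).eval₂ g
      (algebraMap (Polynomial M) L (Polynomial.C x * Polynomial.X)) =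
      algebraMap (Polynomial M) L (cone x y W) := by
    intro W
    have h1 : (((Polynomial.eval₂RingHom g
        (algebraMap (Polynomial M) L (Polynomial.C x * Polynomial.X))).comp
        (finSuccEquiv ℂ 2 : R3 →ₐ[ℂ] Polynomial (MvPolynomial (Fin 2) ℂ)).toRingHom) : R3 →+* L) =
        (algebraMap (Polynomial M) L).comp (cone x y).toRingHom := by
      apply MvPolynomial.ringHom_ext
      · intro c
        simp [hg, finSuccEquiv_comp_C_eq_C, MvPolynomial.finSuccEquiv_apply, cone, cone2]
      · intro i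
        fin_cases i
        · simp [hg, MvPolynomial.finSuccEquiv_X_zero, cone, cone2]
        · have : (finSuccEquiv ℂ 2) (X (1 : Fin 3)) = Polynomial.C (X 0) :=
            MvPolynomial.finSuccEquiv_X_succ (j := (0 : Fin 2))
          simp [hg, this, cone, cone2]
        · have : (finSuccEquiv ℂ 2) (X (2 : Fin 3)) = Polynomial.C (X 1) :=
            MvPolynomial.finSuccEquiv_X_succ (j := (1 : Fin 2))
          simp [hg, this, cone, cone2]
    exact congrArg (fun φ : R3 →+* L => φ W) h1
  have h1 : (finSuccEquiv ℂ 2 P) ∣ (finSuccEquiv ℂ 2 Q) := by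
    refine irreducible_dvd' g hginj (algebraMap (Polynomial M) L (Polynomial.C x * Polynomial.X))
      _ _ ((MulEquiv.irreducible_iff (finSuccEquiv ℂ 2)).2 hP) ?_ ?_
    · rw [key, cone_hom x y hPh, hP0, Polynomial.C_0, zero_mul, map_zero]
    · rw [key, cone_hom x y hQh, hQ0, Polynomial.C_0, zero_mul, map_zero]
  exact (map_dvd_iff (finSuccEquiv ℂ 2)).1 h1

/-- Common zeros. -/
theorem cz {x y : M} (h : Transcendental ℂ x ∨ Transcendental ℂ y) {P Q : R3} {a b : ℕ}
    (hP : Irreducible P) (hPh : P.IsHomogeneous a) (hQh : Q.IsHomogeneous b)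
    (hP0 : aeval ![x, y, 1] P = 0) (hQ0 : aeval ![x, y, 1] Q = 0) : P ∣ Q := by
  rcases h with h | h
  · set σ : Equiv.Perm (Fin 3) := Equiv.swap 0 1 with hσ
    have hr : ∀ W : R3, aeval ![y, x, 1] (rename σ W) = aeval ![x, y, 1] W := by
      intro W
      rw [aeval_rename]
      congr 2
      funext i
      fin_cases i
      · show ![y, x, 1] (σ 0) = x
        rw [hσ, Equiv.swap_apply_left]; rfl
      · show ![y, x, 1] (σ 1) = y
        rw [hσ, Equiv.swap_apply_right]; rfl
      · show ![y, x, 1] (σ 2) = 1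
        rw [hσ, Equiv.swap_apply_of_ne_of_ne (by decide) (by decide)]; rfl
    have h1 : renameEquiv ℂ σ P ∣ renameEquiv ℂ σ Q := by
      refine cz_aux (x := y) (y := x) h ((MulEquiv.irreducible_iff (renameEquiv ℂ σ)).2 hP)
        (a := a) (b := b) ?_ ?_ ?_ ?_
      · exact hPh.rename_isHomogeneous
      · exact hQh.rename_isHomogeneous
      · exact (hr P).trans hP0
      · exact (hr Q).trans hQ0
    exact (map_dvd_iff (renameEquiv ℂ σ)).1 h1
  · exact cz_aux h hP hPh hQh hP0 hQ0

/-! homogeneity of factors -/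

section Hom

variable {N : ℕ}

/-- grading -/
noncomputable def Phi : MvPolynomial (Fin N) ℂ →ₐ[ℂ] Polynomial (MvPolynomial (Fin N) ℂ) :=
  MvPolynomial.aeval (fun i => Polynomial.C (X i) * Polynomial.X)

theorem Phi_monomial (d : Fin N →₀ ℕ) (c : ℂ) :
    Phi (monomial d c) = Polynomial.C (monomial d c) * Polynomial.X ^ d.degree := by
  rw [Phi, aeval_monomial, Finsupp.prod_fintype _ _ (by intro i; simp), Finsupp.degree_eq_sum]
  simp only [mul_pow]
  rw [Finset.prod_mul_distrib, Finset.prod_pow_eq_pow_sum, ← mul_assoc]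
  congr 1
  rw [monomial_eq, Finsupp.prod_fintype _ _ (by intro i; simp), map_mul, map_prod]
  simp only [map_pow]
  rfl

theorem Phi_coeff (f : MvPolynomial (Fin N) ℂ) (k : ℕ) :
    (Phi f).coeff k = homogeneousComponent k f := by
  induction f using MvPolynomial.induction_on' with
  | monomial u a =>
    rw [Phi_monomial, Polynomial.coeff_C_mul_X_pow]
    split_ifs with h
    · rw [homogeneousComponent_of_mem (n := k) (m := k) (isHomogeneous_monomial a h.symm)]
      simp
    · rw [homogeneousComponent_of_mem (n := u.degree) (m := k) (isHomogeneous_monomial a rfl)]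
      simp [h]
  | add p q hp hq => rw [map_add, Polynomial.coeff_add, hp, hq, map_add]

theorem hom_of_mul {f g : MvPolynomial (Fin N) ℂ} {n : ℕ} (hfg : (f * g).IsHomogeneous n)
    (hne : f * g ≠ 0) :
    ∃ a b, a + b = n ∧ f.IsHomogeneous a ∧ g.IsHomogeneous b := by
  have key : ∀ f : MvPolynomial (Fin N) ℂ, (Phi f).natDegree = (Phi f).natTrailingDegree →
      f.IsHomogeneous (Phi f).natDegree := by
    intro f hf
    have h1 : homogeneousComponent (Phi f).natDegree f = f := by
      conv_rhs => rw [← sum_homogeneousComponent (φ := f)]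
      symm
      by_cases h0 : f = 0
      · subst h0; simp
      rw [Finset.sum_eq_single (Phi f).natDegree]
      · intro k _ hk
        rw [← Phi_coeff]
        rcases lt_or_gt_of_ne hk with h | h
        · exact Polynomial.coeff_eq_zero_of_lt_natTrailingDegree (by omega)
        · exact Polynomial.coeff_eq_zero_of_natDegree_lt h
      · intro hk
        apply homogeneousComponent_eq_zero
        simpa using hk
    have h2 := homogeneousComponent_isHomogeneous (Phi f).natDegree f
    rwa [h1] at h2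
  have hPhi : Phi f * Phi g = Polynomial.C (f * g) * Polynomial.X ^ n := by
    rw [← map_mul]
    refine Polynomial.ext (fun k => ?_)
    rw [Phi_coeff, Polynomial.coeff_C_mul_X_pow]
    exact homogeneousComponent_of_mem hfg
  have hne' : Phi f * Phi g ≠ 0 := by
    rw [hPhi]
    exact mul_ne_zero (by simpa using hne) (pow_ne_zero _ Polynomial.X_ne_zero)
  have hf0 : Phi f ≠ 0 := left_ne_zero_of_mul hne'
  have hg0 : Phi g ≠ 0 := right_ne_zero_of_mul hne'
  have e1 : (Phi f).natDegree + (Phi g).natDegree = n := by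
    rw [← Polynomial.natDegree_mul hf0 hg0, hPhi, Polynomial.natDegree_C_mul_X_pow n _ hne]
  have e2 : (Phi f).natTrailingDegree + (Phi g).natTrailingDegree = n := by
    rw [← Polynomial.natTrailingDegree_mul hf0 hg0, hPhi,
      Polynomial.natTrailingDegree_mul_X_pow (by simpa using hne), Polynomial.natTrailingDegree_C,
      zero_add]
  have l1 := Polynomial.natTrailingDegree_le_natDegree (Phi f)
  have l2 := Polynomial.natTrailingDegree_le_natDegree (Phi g)
  exact ⟨_, _, e1, key f (by omega), key g (by omega)⟩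

/-- a homogeneous polynomial which divides one of the right degree: the quotient -/
lemma hom_quot {f g : MvPolynomial (Fin N) ℂ} {n m : ℕ} (hf : f.IsHomogeneous n) (hf0 : f ≠ 0)
    (hfg : (f * g).IsHomogeneous (n + m)) : g.IsHomogeneous m := by
  by_cases hg : g = 0
  · rw [hg]; exact isHomogeneous_zero _ _ _
  obtain ⟨a, b, hab, h1, h2⟩ := hom_of_mul hfg (mul_ne_zero hf0 hg)
  have : a = n := h1.inj_right hf hf0
  have hb : b = m := by omega
  rwa [hb] at h2

end Hom

/-! consequences -/

variable {D₁ D₂ : Derivation ℂ M M} {p q : M}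

lemma e_def (p q x : M) (f : R3) : e p q x f = aeval ![x, p * x - q, 1] f := rfl

/-- an irreducible factor vanishing at the point -/
lemma exists_irr {x : M} {F : R3} {n : ℕ} (hF : F.IsHomogeneous n) (h0 : F ≠ 0)
    (hx : e p q x F = 0) : ∃ P : R3, ∃ a : ℕ, Irreducible P ∧ P ∣ F ∧ P.IsHomogeneous a ∧
      e p q x P = 0 := by
  obtain ⟨P, hP, hPF, hP0⟩ : ∃ P, Irreducible P ∧ P ∣ F ∧ e p q x P = 0 := by
    clear hF
    revert h0 hx
    refine WfDvdMonoid.induction_on_irreducible F ?_ ?_ ?_
    · intro h; exact absurd rfl h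
    · intro u hu _ h0
      exact absurd h0 (hu.map (e p q x)).ne_zero
    · intro a i ha hi ih _ h0
      rw [map_mul] at h0
      rcases mul_eq_zero.1 h0 with h3 | h3
      · exact ⟨i, hi, Dvd.intro _ rfl, h3⟩
      · obtain ⟨P, hP, hPa, hP0⟩ := ih ha h3
        exact ⟨P, hP, hPa.trans (Dvd.intro_left _ rfl), hP0⟩
  obtain ⟨g, hg⟩ := hPF
  rw [hg] at hF
  obtain ⟨a, b, -, h1, -⟩ := hom_of_mul hF (by rw [← hg]; exact h0)
  exact ⟨P, a, hP, ⟨g, hg⟩, h1, hP0⟩

/-- coprime polynomials have no common zero -/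
lemma nv_cop (h : Crd D₁ D₂ p q) {A B : R3} {m n : ℕ} (hA : A.IsHomogeneous m)
    (hB : B.IsHomogeneous n) (hB0 : B ≠ 0) (hcop : IsRelPrime A B) {x : M}
    (h1 : e p q x A = 0) (h2 : e p q x B = 0) : False := by
  obtain ⟨P, a, hP, hPB, hPh, hP0⟩ := exists_irr hB hB0 h2
  have h3 : P ∣ A := cz (h.trans_w x) hP hPh hA hP0 h1
  exact hP.not_isUnit (hcop h3 hPB)

lemma deg_lt_dvd {P Q : R3} {a : ℕ} (hP : P.IsHomogeneous a) (hP0 : P ≠ 0)
    (hQ : Q.IsHomogeneous (a - 1)) (ha : 1 ≤ a) (h : P ∣ Q) : Q = 0 := by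
  by_contra h0
  obtain ⟨g, rfl⟩ := h
  have hg : g ≠ 0 := right_ne_zero_of_mul h0
  have h1 := hQ.totalDegree h0
  rw [totalDegree_mul_of_isDomain hP0 hg, hP.totalDegree hP0] at h1
  omega

/-- Euler's relation -/
lemma euler3 {f : R3} {n : ℕ} (hf : f.IsHomogeneous n) :
    X 0 * pderiv 0 f + X 1 * pderiv 1 f + X 2 * pderiv 2 f = (n : R3) * f := by
  have := hf.sum_X_mul_pderiv
  rw [Fin.sum_univ_three, nsmul_eq_mul] at this
  exact this

/-- smoothness of a squarefree curve at nonconstant points -/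
lemma nv_smooth (h : Crd D₁ D₂ p q) {F : R3} {n : ℕ} (hF : F.IsHomogeneous n)
    (hsq : Squarefree F) {x : M} (h0 : e p q x F = 0) :
    e p q x (pderiv 0 F) ≠ 0 ∨ e p q x (pderiv 1 F) ≠ 0 := by
  by_contra hcon
  push Not at hcon
  obtain ⟨hx, hy⟩ := hcon
  obtain ⟨P, a, hP, ⟨g, hg⟩, hPh, hP0⟩ := exists_irr hF hsq.ne_zero h0
  have hw := h.trans_w x
  have hP00 := hP.ne_zero
  have ha : 1 ≤ a := by
    by_contra ha
    have ha0 : a = 0 := by omega
    rw [ha0] at hPh
    have hc := totalDegree_eq_zero_iff_eq_C.1 (Nat.le_zero.1 hPh.totalDegree_le)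
    apply hP.not_isUnit
    rw [hc] at hP00 ⊢
    exact IsUnit.map C (isUnit_iff_ne_zero.2 (fun h => hP00 (by rw [h, C_0])))
  have hgne : e p q x g ≠ 0 := by
    intro hg0
    rw [hg] at hF
    obtain ⟨a', b, -, -, hgh⟩ := hom_of_mul hF (by rw [← hg]; exact hsq.ne_zero)
    have hd : P ∣ g := cz hw hP hPh hgh hP0 hg0
    have : P * P ∣ F := by rw [hg]; exact mul_dvd_mul_left P hd
    exact hP.not_isUnit (hsq P this)
  have h1 : e p q x (pderiv 0 P) = 0 := by
    rw [hg, Derivation.leibniz, map_add, smul_eq_mul, smul_eq_mul, map_mul, map_mul, hP0,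
      zero_mul, zero_add] at hx
    exact (mul_eq_zero.1 hx).resolve_left hgne
  have h2 : e p q x (pderiv 1 P) = 0 := by
    rw [hg, Derivation.leibniz, map_add, smul_eq_mul, smul_eq_mul, map_mul, map_mul, hP0,
      zero_mul, zero_add] at hy
    exact (mul_eq_zero.1 hy).resolve_left hgne
  have h3 : e p q x (pderiv 2 P) = 0 := by
    have := congrArg (e p q x) (euler3 hPh)
    simp only [map_add, map_mul, h1, h2, hP0, e_X2, mul_zero, one_mul, zero_add] at this
    exact this
  have k0 : pderiv 0 P = 0 :=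
    deg_lt_dvd hPh hP00 hPh.pderiv ha (cz hw hP hPh hPh.pderiv hP0 h1)
  have k1 : pderiv 1 P = 0 :=
    deg_lt_dvd hPh hP00 hPh.pderiv ha (cz hw hP hPh hPh.pderiv hP0 h2)
  have k2 : pderiv 2 P = 0 :=
    deg_lt_dvd hPh hP00 hPh.pderiv ha (cz hw hP hPh hPh.pderiv hP0 h3)
  have k3 := euler3 hPh
  rw [k0, k1, k2] at k3
  simp only [mul_zero, add_zero] at k3
  rcases mul_eq_zero.1 k3.symm with h4 | h4
  · have : (a : R3) ≠ 0 := by exact_mod_cast (by omega : a ≠ 0)
    exact this h4
  · exact hP00 h4

/-- the restriction of a squarefree curve has simple roots -/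
lemma nv_e1 (h : Crd D₁ D₂ p q) {F : R3} {n : ℕ} (hF : F.IsHomogeneous n)
    (hsq : Squarefree F) {x : M} (h0 : e p q x F = 0) : e1 p q x F ≠ 0 := by
  intro h1
  have h2 := D₂_e h x F
  rw [h0, map_zero, h1, mul_zero, zero_sub] at h2
  have hy : e p q x (pderiv 1 F) = 0 := neg_eq_zero.1 h2.symm
  have hx : e p q x (pderiv 0 F) = 0 := by
    rw [e1, hy, mul_zero, add_zero] at h1; exact h1
  rcases nv_smooth h hF hsq h0 with h3 | h3
  · exact h3 hx
  · exact h3 hy

/-- an invariant curve is not tangent to the foliation branches -/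
lemma nv_g (h : Crd D₁ D₂ p q) {A B F κ : R3} {m m' n : ℕ} (hA : A.IsHomogeneous m)
    (hB : B.IsHomogeneous m') (hB0 : B ≠ 0) (hcop : IsRelPrime A B) (hF : F.IsHomogeneous n)
    (hsq : Squarefree F) (hκ : vf A B F = κ * F) {x : M} (h0 : e p q x F = 0) :
    e p q x A + p * e p q x B ≠ 0 := by
  intro hg
  have h1 := nv_e1 h hF hsq h0
  have h2 := congrArg (e p q x) hκ
  simp only [vf, map_sub, map_mul, h0, mul_zero] at h2
  have h3 : e p q x B * e1 p q x F = 0 := by
    rw [e1]; linear_combination h2 + e p q x (pderiv 1 F) * hg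
  have h4 : e p q x B = 0 := (mul_eq_zero.1 h3).resolve_right h1
  have h5 : e p q x A = 0 := by rw [h4] at hg; linear_combination hg
  exact nv_cop h hA hB hB0 hcop h5 h4

end Pool.Agent.W638.CW
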