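import Pool.Agent.W638.CW.Tot

/-! Assembly of the closed forms in the chart whose line at infinity is invariant
(problem MP_5bde83_ag). -/

set_option autoImplicit false
set_option linter.unusedSectionVars false
set_option linter.unusedSimpArgs false

open Polynomial Finset
open Pool.Agent.W510.Cvx (R3)
open MvPolynomial (pderiv)

namespace Pool.Agent.W638.CW

variable {M : Type*} [Field M] [Algebra ℂ M]

/-- the web polynomial of the foliation -/
noncomputable def gp (p q : M) (A B : R3) : M[X] := ev p q A + C p * ev p q B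

lemma gp_eval (p q x : M) (A B : R3) : (gp p q A B).eval x = e p q x A + p * e p q x B := by
  rw [gp, eval_add, eval_mul, eval_C, eval_ev, eval_ev]

lemma gp_deriv (p q x : M) (A B : R3) : (derivative (gp p q A B)).eval x = G1 p q x A B := by
  rw [gp, derivative_add, derivative_C_mul, eval_add, eval_mul, eval_C, eval_deriv, eval_deriv, G1]

lemma gp_deriv2 (p q x : M) (A B : R3) :
    (derivative (derivative (gp p q A B))).eval x = G2 p q x A B := by
  rw [gp, derivative_add, derivative_C_mul, derivative_add, derivative_C_mul, eval_add, eval_mul,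
    eval_C, eval_deriv2, eval_deriv2, G2]

lemma gp_deriv3 (p q x : M) (A B : R3) :
    (derivative (derivative (derivative (gp p q A B)))).eval x = G3 p q x A B := by
  rw [gp, derivative_add, derivative_C_mul, derivative_add, derivative_C_mul, derivative_add,
    derivative_C_mul, eval_add, eval_mul,
    eval_C, eval_deriv3, eval_deriv3, G3]

/-- The foliation part of the data. -/
structure Fol {ι : Type*} [DecidableEq ι] (D₁ D₂ : Derivation ℂ M M) (p q : M) (m : ℕ)
    (A B E κN : R3) (G : Finset ι) (x : ι → M) (cg : M) : Prop where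
  crd : Crd D₁ D₂ p q
  hA : A.IsHomogeneous (m + 1)
  hB : B.IsHomogeneous (m + 1)
  hEh : E.IsHomogeneous m
  hκNh : κN.IsHomogeneous m
  br : ∀ i ∈ G, Br D₁ D₂ p q A B E κN (x i)
  inj : Set.InjOn x G
  card : G.card = m + 1
  cg0 : cg ≠ 0
  Dcg : D₂ cg = 0
  fac : gp p q A B = C cg * Lagrange.nodal G x

/-- The sum with the cofactor `κ` is closed. -/
def TC {ι : Type*} [DecidableEq ι] (D₁ D₂ : Derivation ℂ M M) (p q : M) (m : ℕ)
    (A B : R3) (G : Finset ι) (x : ι → M) (κ : R3) : Prop :=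
  ∀ ρ : R3, ρ.IsHomogeneous m →
    dd D₁ D₂ (∑ i ∈ G, (e p q (x i) κ * e p q (x i) ρ / (e p q (x i) B * G1 p q (x i) A B)) •
      (x i, (-1 : M))) = 0

section

variable {ι : Type*} [DecidableEq ι] {D₁ D₂ : Derivation ℂ M M} {p q : M} {m : ℕ}
  {A B E κN : R3} {G : Finset ι} {x : ι → M} {cg : M}

lemma Fol.lagA (h : Fol D₁ D₂ p q m A B E κN G x cg) {U : M[X]} (hU : InS D₂ (m + 1) U) :
    D₂ (∑ i ∈ G, U.eval (x i) / G1 p q (x i) A B) = 0 := by
  rw [← CW.lagA h.inj h.cg0 h.Dcg h.fac h.card hU]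
  congr 1
  refine sum_congr rfl (fun i _ => ?_)
  rw [gp_deriv]

lemma Fol.lagB (h : Fol D₁ D₂ p q m A B E κN G x cg) {U : M[X]} (hU : InS D₂ m U) :
    dd D₁ D₂ (∑ i ∈ G, (U.eval (x i) / G1 p q (x i) A B) • (x i, (-1 : M))) = 0 := by
  rw [← CW.lagB h.inj h.cg0 h.Dcg h.fac h.card hU D₁]
  congr 1
  refine sum_congr rfl (fun i _ => ?_)
  rw [gp_deriv]

lemma Fol.lag0 (h : Fol D₁ D₂ p q m A B E κN G x cg) {U : M[X]} (hU : InS D₂ m U) :
    ∑ i ∈ G, U.eval (x i) / G1 p q (x i) A B = 0 := by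
  rw [← lag_zero h.inj h.cg0 h.fac h.card hU.degree_lt]
  refine sum_congr rfl (fun i _ => ?_)
  rw [gp_deriv]

/-- third sum -/
lemma Fol.c3 (h : Fol D₁ D₂ p q m A B E κN G x cg) {Mq : R3} (hMq : InS D₂ m (ev p q Mq))
    (hBM : E * pderiv 1 B + A * pderiv 1 (pderiv 1 B) = B * Mq) :
    dd D₁ D₂ (∑ i ∈ G, (e p q (x i) E * e1 p q (x i) B /
      (e p q (x i) B * G1 p q (x i) A B)) • (x i, (-1 : M))) = 0 := by
  rw [dd_sum, sum_congr rfl (fun i hi => (h.br i hi).c3), sum_sub_distrib]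
  have h1 : ∑ i ∈ G, ((e1 p q (x i) E * e1 p q (x i) B + e p q (x i) E * e2 p q (x i) B) /
      G1 p q (x i) A B ^ 2 - e p q (x i) E * e1 p q (x i) B * G2 p q (x i) A B /
      G1 p q (x i) A B ^ 3) = 0 := by
    have hU : (ev p q E * derivative (ev p q B)).natDegree ≤ 2 * m := by
      refine natDegree_mul_le.trans ?_
      have h2 := ev_natDegree p q h.hEh
      have h3 := ev_natDegree p q h.hB
      have h4 := natDegree_derivative_le (ev p q B)
      omega
    rw [← double_sum h.inj h.cg0 h.fac h.card hU]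
    refine sum_congr rfl (fun i _ => ?_)
    rw [gp_deriv, gp_deriv2, derivative_mul, eval_add, eval_mul, eval_mul, eval_mul, eval_deriv,
      eval_deriv, eval_deriv2, eval_ev]
  have h2 : ∑ i ∈ G, (e p q (x i) E * e p q (x i) (pderiv 1 B) / e p q (x i) B) /
      G1 p q (x i) A B = 0 := by
    have hS : InS D₂ m (ev p q Mq + C p * ev p q (pderiv 1 (pderiv 1 B))) := by
      refine hMq.add (InS.cmul ?_ h.crd.D₂p)
      cases m with
      | zero =>
        show ev p q (pderiv 1 (pderiv 1 B)) = 0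
        have h3 : (pderiv 1 B : R3).IsHomogeneous 0 := h.hB.pderiv (i := 1)
        have hc := MvPolynomial.totalDegree_eq_zero_iff_eq_C.1 (Nat.le_zero.1 h3.totalDegree_le)
        rw [hc, MvPolynomial.pderiv_C, map_zero]
      | succ m =>
        have h3 : (pderiv 1 (pderiv 1 B) : R3).IsHomogeneous m :=
          (h.hB.pderiv (i := 1)).pderiv (i := 1)
        exact InS.ev h.crd.D₂p h3
    rw [← h.lag0 hS]
    refine sum_congr rfl (fun i hi => ?_)
    congr 1
    have hb := (h.br i hi).ne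
    have h0 := (h.br i hi).root
    have h4 := congrArg (e p q (x i)) hBM
    simp only [map_add, map_mul] at h4
    rw [eval_add, eval_mul, eval_C, eval_ev, eval_ev, div_eq_iff hb]
    linear_combination h4 - e p q (x i) (pderiv 1 (pderiv 1 B)) * h0
  rw [h1, h2, sub_zero]

/-- Invariant curves give closed sums. -/
lemma Fol.curve (h : Fol D₁ D₂ p q m A B E κN G x cg) {ι' : Type*} [DecidableEq ι']
    {f κ : R3} (hκ : vf A B f = κ * f) {T : Finset ι'} {y : ι' → M}
    (hy : Set.InjOn y T) {cf : M} (hcf : cf ≠ 0) (hDcf : D₂ cf = 0)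
    (hf : ev p q f = C cf * Lagrange.nodal T y) (hG : ∀ i ∈ G, e p q (x i) f ≠ 0)
    (hT : ∀ j ∈ T, e1 p q (y j) f ≠ 0 ∧ e p q (y j) A + p * e p q (y j) B ≠ 0) :
    TC D₁ D₂ p q m A B G x κ := by
  intro ρ hρ
  have hfy : ∀ j ∈ T, e p q (y j) f = 0 := by
    intro j hj
    rw [← eval_ev, hf, eval_mul, Lagrange.eval_nodal_at_node hj, mul_zero]
  have hxy : ∀ i ∈ G, ∀ j ∈ T, x i ≠ y j := by
    intro i hi j hj hij
    exact hG i hi (by rw [hij]; exact hfy j hj)
  have h1 := curve_sum (D₁ := D₁) h.inj hy hxy h.cg0 hcf h.Dcg hDcf h.fac hf h.card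
    (InS.ev (q := q) h.crd.D₂p hρ) (by
      intro j hj
      rw [eval_ev, gp_eval]
      refine curve_branch h.crd (hfy j hj) (hT j hj).1 (hT j hj).2 ?_
      have h2 := congrArg (e p q (y j)) hκ
      simp only [vf, map_mul, map_sub, hfy j hj, mul_zero] at h2
      linear_combination h2)
  rw [← h1]
  congr 1
  refine sum_congr rfl (fun i hi => ?_)
  congr 1
  rw [eval_ev, eval_ev, eval_deriv, gp_deriv]
  have r5 : e p q (x i) B * e1 p q (x i) f = e p q (x i) κ * e p q (x i) f := by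
    have h1 := congrArg (e p q (x i)) hκ
    simp only [vf, map_mul, map_sub] at h1
    have h0 := (h.br i hi).root
    rw [e1]
    linear_combination h1 + e p q (x i) (pderiv 1 f) * h0
  have hb := (h.br i hi).ne
  have hg := (h.br i hi).G1_ne
  have hff := hG i hi
  rw [div_eq_div_iff (mul_ne_zero hb hg) (mul_ne_zero hg hff)]
  linear_combination -(e p q (x i) ρ * G1 p q (x i) A B) * r5

lemma TC.add {κ κ' : R3} (h : TC D₁ D₂ p q m A B G x κ) (h' : TC D₁ D₂ p q m A B G x κ') :
    TC D₁ D₂ p q m A B G x (κ + κ') := by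
  intro ρ hρ
  have h1 := h ρ hρ
  have h2 := h' ρ hρ
  rw [← add_zero (0 : M)]
  nth_rewrite 1 [← h1]
  rw [← h2, ← dd_add, ← sum_add_distrib]
  congr 1
  refine sum_congr rfl (fun i _ => ?_)
  rw [← add_smul, map_add]
  congr 1
  ring

lemma TC.zero : TC D₁ D₂ p q m A B G x 0 := by
  intro ρ _
  simp [dd_zero]

/-- closedness of the total form -/
lemma Fol.total (h : Fol D₁ D₂ p q m A B E κN G x cg) {Mq : R3} (hMq : InS D₂ m (ev p q Mq))
    (hBM : E * pderiv 1 B + A * pderiv 1 (pderiv 1 B) = B * Mq)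
    {f κ : R3} (hκ : vf A B f = κ * f) (hκh : κ.IsHomogeneous m)
    (hG : ∀ i ∈ G, e p q (x i) f ≠ 0) (hT : TC D₁ D₂ p q m A B G x κ)
    (hTN : TC D₁ D₂ p q m A B G x κN) {r : ι → M}
    (hr : ∀ i ∈ G, 3 * (e p q (x i) f * G1 p q (x i) A B) * r i =
      3 * e2 p q (x i) f * G1 p q (x i) A B + 3 * e1 p q (x i) f * G2 p q (x i) A B +
        e p q (x i) f * G3 p q (x i) A B) :
    dd D₁ D₂ (∑ i ∈ G, (Dx D₁ D₂ (x i) (x i) * r i) • (x i, (-1 : M))) = 0 := by
  have hch : CharZero M := charZero_of_injective_algebraMap (algebraMap ℂ M).injective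
  have hk : ∀ (k : ℕ) (α : M × M), dd D₁ D₂ ((k : M) • α) = k * dd D₁ D₂ α := by
    intro k α
    rw [dd_smul, Derivation.map_natCast, Derivation.map_natCast]
    simp [wedge]
  -- three times the form
  have h3 : dd D₁ D₂ (∑ i ∈ G, (3 * (Dx D₁ D₂ (x i) (x i) * r i)) • (x i, (-1 : M))) = 0 := by
    have e1' : dd D₁ D₂ (∑ i ∈ G, (3 * (e p q (x i) κ * e p q (x i) (κ - κN + 2 * E) /
        (e p q (x i) B * G1 p q (x i) A B))) • (x i, (-1 : M))) = 0 := by
      have h4 := hT (κ - κN + 2 * E) ((hκh.sub h.hκNh).add (by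
        have := (MvPolynomial.isHomogeneous_C (Fin 3) (2 : ℂ)).mul h.hEh
        rw [zero_add] at this
        have e2 : (MvPolynomial.C (2 : ℂ) : R3) = 2 := map_ofNat MvPolynomial.C 2
        rwa [e2] at this))
      have h5 := hk 3 (∑ i ∈ G, ((e p q (x i) κ * e p q (x i) (κ - κN + 2 * E) /
        (e p q (x i) B * G1 p q (x i) A B))) • (x i, (-1 : M)))
      rw [h4, mul_zero, smul_sum] at h5
      rw [← h5]
      congr 1
      refine sum_congr rfl (fun i _ => ?_)
      rw [smul_smul]; norm_num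
    have e2' : dd D₁ D₂ (∑ i ∈ G, (3 : M) • (D₁ (e p q (x i) f) / e p q (x i) f,
        D₂ (e p q (x i) f) / e p q (x i) f)) = 0 := by
      rw [dd_sum]
      refine sum_eq_zero (fun i hi => ?_)
      have := hk 3 (D₁ (e p q (x i) f) / e p q (x i) f, D₂ (e p q (x i) f) / e p q (x i) f)
      rw [dd_dlog h.crd.comm (hG i hi), mul_zero] at this
      exact_mod_cast this
    have e3' : dd D₁ D₂ (∑ i ∈ G, ((3 * (e p q (x i) κ / G1 p q (x i) A B), (0 : M)) : M × M)) =
        0 := by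
      have h4 := h.lagA (InS.ev (q := q) h.crd.D₂p hκh)
      simp only [eval_ev] at h4
      rw [dd, Prod.fst_sum, Prod.snd_sum]
      simp only [sum_const_zero, map_zero, zero_sub, ← mul_sum]
      rw [Derivation.leibniz, h4]
      have : D₂ (3 : M) = 0 := by exact_mod_cast Derivation.map_natCast D₂ 3
      rw [this]; simp
    have e4' : dd D₁ D₂ (∑ i ∈ G, (e p q (x i) κN * e p q (x i) E /
        (e p q (x i) B * G1 p q (x i) A B)) • (x i, (-1 : M))) = 0 := hTN E h.hEh
    have e5' : dd D₁ D₂ (∑ i ∈ G, (3 * (e p q (x i) E * e1 p q (x i) B /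
        (e p q (x i) B * G1 p q (x i) A B))) • (x i, (-1 : M))) = 0 := by
      have h4 := h.c3 hMq hBM
      have h5 := hk 3 (∑ i ∈ G, (e p q (x i) E * e1 p q (x i) B /
        (e p q (x i) B * G1 p q (x i) A B)) • (x i, (-1 : M)))
      rw [h4, mul_zero, smul_sum] at h5
      rw [← h5]
      congr 1
      refine sum_congr rfl (fun i _ => ?_)
      rw [smul_smul]; norm_num
    have e6' : dd D₁ D₂ (∑ i ∈ G, ((3 * e1 p q (x i) κ + e1 p q (x i) E +
        2 * gy1 p q (x i) A B + e2 p q (x i) B) / G1 p q (x i) A B) • (x i, (-1 : M))) = 0 := by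
      have hU : InS D₂ m (C 3 * derivative (ev p q κ) + derivative (ev p q E) +
          C 2 * (derivative (ev p q (pderiv 1 A)) + C p * derivative (ev p q (pderiv 1 B))) +
          derivative (derivative (ev p q B))) := by
        have hp := h.crd.D₂p
        have d3 : D₂ (3 : M) = 0 := by exact_mod_cast Derivation.map_natCast D₂ 3
        have d2 : D₂ (2 : M) = 0 := by exact_mod_cast Derivation.map_natCast D₂ 2
        have hAy : (pderiv 1 A : R3).IsHomogeneous m := h.hA.pderiv (i := 1)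
        have hBy : (pderiv 1 B : R3).IsHomogeneous m := h.hB.pderiv (i := 1)
        exact ((((InS.ev hp hκh).deriv.cmul d3).add (InS.ev hp h.hEh).deriv).add
          ((((InS.ev hp hAy).deriv).add (((InS.ev hp hBy).deriv).cmul hp)).cmul d2)).add
          (InS.ev hp h.hB).deriv.deriv
      rw [← h.lagB hU]
      congr 1
      refine sum_congr rfl (fun i _ => ?_)
      congr 2
      simp only [eval_add, eval_mul, eval_C, eval_deriv, eval_deriv2, gy1]
    rw [sum_congr rfl (fun i hi => (h.br i hi).total (hG i hi) hκ (hr i hi)), sum_neg_distrib,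
      dd_neg, sum_add_distrib, sum_sub_distrib, sum_add_distrib, sum_add_distrib, sum_add_distrib,
      dd_add, dd_sub, dd_add, dd_add, dd_add, e1', e2', e3', e4', e5', e6']
    ring
  have h4 := hk 3 (∑ i ∈ G, (Dx D₁ D₂ (x i) (x i) * r i) • (x i, (-1 : M)))
  have h5 : ((3 : ℕ) : M) • ∑ i ∈ G, (Dx D₁ D₂ (x i) (x i) * r i) • (x i, (-1 : M)) =
      ∑ i ∈ G, (3 * (Dx D₁ D₂ (x i) (x i) * r i)) • (x i, (-1 : M)) := by
    rw [smul_sum]
    refine sum_congr rfl (fun i _ => ?_)
    rw [smul_smul]; norm_num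
  rw [h5, h3] at h4
  exact (mul_eq_zero.1 h4.symm).resolve_left (by norm_num)

/-- closedness of the `dp` part -/
lemma Fol.sigma (h : Fol D₁ D₂ p q m A B E κN G x cg)
    {f κ : R3} (hκ : vf A B f = κ * f) (hκh : κ.IsHomogeneous m)
    (hG : ∀ i ∈ G, e p q (x i) f ≠ 0) {r : ι → M}
    (hr : ∀ i ∈ G, 2 * (e p q (x i) f * G1 p q (x i) A B) * r i =
      2 * e1 p q (x i) f * G1 p q (x i) A B + e p q (x i) f * G2 p q (x i) A B) :
    D₂ (∑ i ∈ G, Dx D₁ D₂ (x i) (x i) * r i) = 0 := by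
  have hch : CharZero M := charZero_of_injective_algebraMap (algebraMap ℂ M).injective
  have d2 : D₂ (2 : M) = 0 := by exact_mod_cast Derivation.map_natCast D₂ 2
  have h1 : D₂ (∑ i ∈ G, 2 * (Dx D₁ D₂ (x i) (x i) * r i)) = 0 := by
    rw [sum_congr rfl (fun i hi => (h.br i hi).sig (hG i hi) hκ (hr i hi)), sum_neg_distrib,
      map_neg, neg_eq_zero]
    have hU : InS D₂ (m + 1) (C 2 * ev p q κ + ev p q E) :=
      ((InS.ev h.crd.D₂p hκh).cmul d2).add (InS.ev h.crd.D₂p h.hEh)
    rw [← h.lagA hU]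
    congr 1
    refine sum_congr rfl (fun i _ => ?_)
    simp only [eval_add, eval_mul, eval_C, eval_ev]
  rw [← mul_sum, Derivation.leibniz, d2, smul_zero, add_zero, smul_eq_mul] at h1
  exact (mul_eq_zero.1 h1).resolve_left (by norm_num)

/-- closedness of the sum of the `q`-derivatives of the slopes of the foliation branches -/
lemma Fol.sq (h : Fol D₁ D₂ p q m A B E κN G x cg) : D₂ (∑ i ∈ G, D₂ (x i)) = 0 := by
  have hAy : (pderiv 1 A : R3).IsHomogeneous m := h.hA.pderiv (i := 1)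
  have hBy : (pderiv 1 B : R3).IsHomogeneous m := h.hB.pderiv (i := 1)
  have hU : InS D₂ (m + 1) (ev p q (pderiv 1 A) + C p * ev p q (pderiv 1 B)) :=
    (InS.ev h.crd.D₂p hAy).add ((InS.ev h.crd.D₂p hBy).cmul h.crd.D₂p)
  rw [← h.lagA hU]
  congr 1
  refine sum_congr rfl (fun i hi => ?_)
  rw [(h.br i hi).hq_eq, gy]
  simp only [eval_add, eval_mul, eval_C, eval_ev]

end

/-- The slopes of the branches of the curve. -/
lemma curve_sq {D₁ D₂ : Derivation ℂ M M} {p q : M} (h : Crd D₁ D₂ p q) {ι : Type*}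
    [DecidableEq ι] {f : R3} {k : ℕ} (hfh : f.IsHomogeneous k) {T : Finset ι} (hTk : T.card = k)
    {y : ι → M} (hy : Set.InjOn y T) {cf : M} (hcf : cf ≠ 0) (hDcf : D₂ cf = 0)
    (hf : ev p q f = C cf * Lagrange.nodal T y) (hT : ∀ j ∈ T, e1 p q (y j) f ≠ 0) :
    D₂ (∑ j ∈ T, D₂ (y j)) = 0 ∧ ∀ j ∈ T, Dx D₁ D₂ (y j) (y j) = 0 := by
  have hfy : ∀ j ∈ T, e p q (y j) f = 0 := by
    intro j hj
    rw [← eval_ev, hf, eval_mul, Lagrange.eval_nodal_at_node hj, mul_zero]
  refine ⟨?_, ?_⟩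
  · cases k with
    | zero =>
      rw [card_eq_zero] at hTk
      rw [hTk]; simp
    | succ k =>
      have hfy1 : (pderiv 1 f : R3).IsHomogeneous k := hfh.pderiv (i := 1)
      rw [← lagA hy hcf hDcf hf hTk (InS.ev h.D₂p hfy1)]
      congr 1
      refine sum_congr rfl (fun j hj => ?_)
      rw [eval_deriv, eval_ev, eq_div_iff (hT j hj)]
      have h1 := D₂_e h (y j) f
      rw [hfy j hj, map_zero] at h1
      linear_combination -h1
  · intro j hj
    have h1 := Dx_e h (y j) f
    rw [hfy j hj, map_zero] at h1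
    exact (mul_eq_zero.1 h1.symm).resolve_right (hT j hj)

end Pool.Agent.W638.CW
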