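import Pool.Agent.W638.CW.Ev

/-! Closed sums of 1-forms (problem MP_5bde83_ag). -/

set_option autoImplicit false
set_option linter.unusedSectionVars false
set_option linter.unusedSimpArgs false

open Polynomial Finset
open Pool.Agent.W510.Cvx (R3)

namespace Pool.Agent.W638.CW

variable {M : Type*} [Field M] [Algebra ℂ M]

/-- Polynomials of degree `< n` whose coefficient of `X ^ (n - 1)` is a function of `p`. -/
def InS (D₂ : Derivation ℂ M M) : ℕ → M[X] → Prop
  | 0, U => U = 0
  | n + 1, U => U.natDegree ≤ n ∧ D₂ (U.coeff n) = 0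

section

variable {D₂ : Derivation ℂ M M}

lemma InS.degree_lt {n : ℕ} {U : M[X]} (h : InS D₂ n U) : U.degree < n := by
  cases n with
  | zero => rw [show U = 0 from h, degree_zero]; exact WithBot.bot_lt_coe _
  | succ n =>
    exact lt_of_le_of_lt (degree_le_of_natDegree_le h.1) (by exact_mod_cast Nat.lt_succ_self n)

lemma InS.add {n : ℕ} {U W : M[X]} (h : InS D₂ n U) (h' : InS D₂ n W) : InS D₂ n (U + W) := by
  cases n with
  | zero => show U + W = 0; rw [show U = 0 from h, show W = 0 from h', add_zero]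
  | succ n =>
    exact ⟨(natDegree_add_le _ _).trans (max_le h.1 h'.1), by
      rw [coeff_add, map_add, h.2, h'.2, add_zero]⟩

lemma InS.cmul {n : ℕ} {U : M[X]} (h : InS D₂ n U) {a : M} (ha : D₂ a = 0) :
    InS D₂ n (C a * U) := by
  cases n with
  | zero => show C a * U = 0; rw [show U = 0 from h, mul_zero]
  | succ n =>
    refine ⟨(natDegree_C_mul_le _ _).trans h.1, ?_⟩
    rw [coeff_C_mul, Derivation.leibniz, ha, h.2, smul_zero, smul_zero, add_zero]

lemma InS.deriv {n : ℕ} {U : M[X]} (h : InS D₂ (n + 1) U) : InS D₂ n (derivative U) := by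
  cases n with
  | zero =>
    show derivative U = 0
    have h1 := natDegree_eq_zero.1 (Nat.le_zero.1 h.1)
    obtain ⟨a, rfl⟩ := h1
    exact derivative_C
  | succ n =>
    refine ⟨(natDegree_derivative_le U).trans (by have := h.1; omega), ?_⟩
    rw [coeff_derivative, Derivation.leibniz, h.2, smul_zero, add_zero]
    have : D₂ ((n : M) + 1) = 0 := by
      rw [map_add, Derivation.map_one_eq_zero, Derivation.map_natCast, add_zero]
    rw [this, smul_zero]

lemma InS.mul {a b : ℕ} {U W : M[X]} (h : InS D₂ (a + 1) U) (h' : InS D₂ b W) :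
    InS D₂ (a + b) (U * W) := by
  cases b with
  | zero =>
    rw [show W = 0 from h', mul_zero]
    cases a with
    | zero => rfl
    | succ a => exact ⟨by simp, by simp⟩
  | succ b =>
    show (U * W).natDegree ≤ a + b ∧ D₂ ((U * W).coeff (a + b)) = 0
    refine ⟨natDegree_mul_le.trans (Nat.add_le_add h.1 h'.1), ?_⟩
    rw [coeff_mul_add_eq_of_natDegree_le h.1 h'.1, Derivation.leibniz, h.2, h'.2, smul_zero,
      smul_zero, add_zero]

lemma InS.ev {p q : M} (hp : D₂ p = 0) {f : R3} {n : ℕ} (hf : f.IsHomogeneous n) :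
    InS D₂ (n + 1) (ev p q f) :=
  ⟨ev_natDegree p q hf, by rw [ev_coeff p q hf, D₂_top hp]⟩

lemma dd_tau {D₁ : Derivation ℂ M M} (c x : M) :
    dd D₁ D₂ (c • (x, (-1 : M))) = -(Dx D₁ D₂ x c + c * D₂ x) := by
  simp only [dd, Dx_apply, Prod.smul_mk, smul_eq_mul, Derivation.leibniz, mul_neg, mul_one, map_neg]
  ring

variable {ι : Type*} [DecidableEq ι] {s : Finset ι} {v : ι → M} {c : M} {P U : M[X]} {n : ℕ}

lemma lagA (hv : Set.InjOn v s) (hc : c ≠ 0) (hDc : D₂ c = 0)
    (hP : P = C c * Lagrange.nodal s v) (hn : s.card = n + 1) (hU : InS D₂ (n + 1) U) :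
    D₂ (∑ i ∈ s, U.eval (v i) / (derivative P).eval (v i)) = 0 := by
  rw [lag_sum hv hc hP (by rw [hn]; exact hU.degree_lt), hn, Nat.add_sub_cancel,
    Derivation.leibniz_div, hDc, hU.2]
  simp

lemma lagB (hv : Set.InjOn v s) (hc : c ≠ 0) (hDc : D₂ c = 0)
    (hP : P = C c * Lagrange.nodal s v) (hn : s.card = n + 1) (hU : InS D₂ n U)
    (D₁ : Derivation ℂ M M) :
    dd D₁ D₂ (∑ i ∈ s, (U.eval (v i) / (derivative P).eval (v i)) • (v i, (-1 : M))) = 0 := by
  have h1 := lag_zero hv hc hP hn hU.degree_lt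
  have h2 : InS D₂ (n + 1) (X * U) := by
    cases n with
    | zero => rw [show U = 0 from hU, mul_zero]; exact ⟨by simp, by simp⟩
    | succ n =>
      refine ⟨natDegree_mul_le.trans ?_, ?_⟩
      · rw [natDegree_X]; have := hU.1; omega
      · rw [coeff_X_mul]; exact hU.2
  have h3 := lagA hv hc hDc hP hn h2
  have h4 : (∑ i ∈ s, (U.eval (v i) / (derivative P).eval (v i)) • (v i, (-1 : M))) =
      (∑ i ∈ s, (X * U).eval (v i) / (derivative P).eval (v i),
        - ∑ i ∈ s, U.eval (v i) / (derivative P).eval (v i)) := by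
    refine Prod.ext ?_ ?_
    · rw [Prod.fst_sum]
      refine sum_congr rfl (fun i _ => ?_)
      simp only [Prod.smul_fst, smul_eq_mul, eval_mul, eval_X]; ring
    · rw [Prod.snd_sum, ← sum_neg_distrib]
      refine sum_congr rfl (fun i _ => ?_)
      simp only [Prod.smul_snd, smul_eq_mul]; ring
  rw [h4, h1, dd, h3]
  simp

end

/-- nodes in two groups -/
lemma nodal_disjSum {ι ι' : Type*} [DecidableEq ι] [DecidableEq ι'] (s : Finset ι) (t : Finset ι')
    (x : ι → M) (y : ι' → M) :
    Lagrange.nodal (s.disjSum t) (Sum.elim x y) = Lagrange.nodal s x * Lagrange.nodal t y := by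
  rw [Lagrange.nodal, Finset.prod_disjSum]
  rfl

/-- Closedness for an invariant curve, first part. -/
lemma curve_sum {D₁ D₂ : Derivation ℂ M M} {ι ι' : Type*} [DecidableEq ι] [DecidableEq ι']
    {s : Finset ι} {t : Finset ι'} {x : ι → M} {y : ι' → M} (hx : Set.InjOn x s)
    (hy : Set.InjOn y t) (hxy : ∀ i ∈ s, ∀ j ∈ t, x i ≠ y j) {c c' : M} (hc : c ≠ 0)
    (hc' : c' ≠ 0) (hDc : D₂ c = 0) (hDc' : D₂ c' = 0) {g f r : M[X]}
    (hg : g = C c * Lagrange.nodal s x) (hf : f = C c' * Lagrange.nodal t y) {n : ℕ}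
    (hn : s.card = n + 1) (hr : InS D₂ (n + 1) r)
    (hcl : ∀ j ∈ t, dd D₁ D₂ ((r.eval (y j) / g.eval (y j)) • (y j, (-1 : M))) = 0) :
    dd D₁ D₂ (∑ i ∈ s, (r.eval (x i) * (derivative f).eval (x i) /
      ((derivative g).eval (x i) * f.eval (x i))) • (x i, (-1 : M))) = 0 := by
  have hv : Set.InjOn (Sum.elim x y) (s.disjSum t : Finset (ι ⊕ ι')) := by
    intro a ha b hb hab
    rw [mem_coe] at ha hb
    rcases a with a | a <;> rcases b with b | b
    · rw [inl_mem_disjSum] at ha hb
      rw [hx ha hb hab]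
    · rw [inl_mem_disjSum] at ha
      rw [inr_mem_disjSum] at hb
      exact absurd hab (hxy a ha b hb)
    · rw [inr_mem_disjSum] at ha
      rw [inl_mem_disjSum] at hb
      exact absurd hab.symm (hxy b hb a ha)
    · rw [inr_mem_disjSum] at ha hb
      rw [hy ha hb hab]
  have hP : g * f = C (c * c') * Lagrange.nodal (s.disjSum t) (Sum.elim x y) := by
    rw [nodal_disjSum, hg, hf, C_mul]; ring
  have hDcc : D₂ (c * c') = 0 := by rw [Derivation.leibniz, hDc, hDc']; simp
  have hcard : (s.disjSum t).card = (n + t.card) + 1 := by rw [card_disjSum, hn]; ring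
  have hf1 : InS D₂ (t.card + 1) f := by
    have h1 : f.natDegree = t.card := by
      rw [hf, natDegree_C_mul hc', Lagrange.natDegree_nodal]
    refine ⟨h1.le, ?_⟩
    have h2 : f.coeff t.card = c' := by
      rw [hf, coeff_C_mul]
      have := (Lagrange.nodal_monic (s := t) (v := y)).coeff_natDegree
      rw [Lagrange.natDegree_nodal] at this
      rw [this, mul_one]
    rw [h2, hDc']
  have hU : InS D₂ (n + t.card) (r * derivative f) := hr.mul hf1.deriv
  have h := lagB hv (mul_ne_zero hc hc') hDcc hP hcard hU D₁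
  rw [sum_disjSum] at h
  simp only [Sum.elim_inl, Sum.elim_inr] at h
  rw [dd_add] at h
  have hgx : ∀ i ∈ s, g.eval (x i) = 0 := by
    intro i hi; rw [hg, eval_mul, Lagrange.eval_nodal_at_node hi, mul_zero]
  have hfy : ∀ j ∈ t, f.eval (y j) = 0 := by
    intro i hi; rw [hf, eval_mul, Lagrange.eval_nodal_at_node hi, mul_zero]
  have h2 : dd D₁ D₂ (∑ j ∈ t, ((r * derivative f).eval (y j) /
      (derivative (g * f)).eval (y j)) • (y j, (-1 : M))) = 0 := by
    rw [dd_sum]
    refine sum_eq_zero (fun j hj => ?_)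
    rw [← hcl j hj]
    congr 2
    have h3 := (nodal_deriv_ne hy hc' hf hj).2
    rw [derivative_mul, eval_add, eval_mul, eval_mul, eval_mul, hfy j hj, mul_zero, zero_add]
    by_cases h4 : g.eval (y j) = 0
    · rw [h4]; simp
    · field_simp
  rw [h2, add_zero] at h
  rw [← h]
  congr 1
  refine sum_congr rfl (fun i hi => ?_)
  rw [derivative_mul, eval_add, eval_mul, eval_mul, eval_mul, hgx i hi, zero_mul, add_zero]

/-- Closedness for an invariant curve, second part: the branches of the curve. -/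
lemma curve_branch {D₁ D₂ : Derivation ℂ M M} {p q : M} (h : Crd D₁ D₂ p q) {A B f r : R3} {y : M}
    (hf : e p q y f = 0) (hf1 : e1 p q y f ≠ 0) (hg : e p q y A + p * e p q y B ≠ 0)
    (hinv : e p q y B * e p q y (MvPolynomial.pderiv 0 f) =
      e p q y A * e p q y (MvPolynomial.pderiv 1 f)) :
    dd D₁ D₂ ((e p q y r / (e p q y A + p * e p q y B)) • (y, (-1 : M))) = 0 := by
  have h0 : Dx D₁ D₂ y y = 0 := by
    have h1 := Dx_e h y f
    rw [hf, map_zero] at h1
    exact (mul_eq_zero.1 h1.symm).resolve_right hf1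
  have h2 : D₂ y * e1 p q y f = e p q y (MvPolynomial.pderiv 1 f) := by
    have h1 := D₂_e h y f
    rw [hf, map_zero] at h1
    linear_combination -h1
  have h3 : (e p q y A + p * e p q y B) * D₂ y = e p q y B := by
    have : ((e p q y A + p * e p q y B) * D₂ y - e p q y B) * e1 p q y f = 0 := by
      rw [e1] at h2 ⊢
      linear_combination (e p q y A + p * e p q y B) * h2 - hinv
    exact sub_eq_zero.1 ((mul_eq_zero.1 this).resolve_right hf1)
  rw [dd_tau, Derivation.leibniz_div, Dx_e h, map_add, Derivation.leibniz, Dx_e h, Dx_e h,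
    Dx_p h, h0]
  simp only [smul_eq_mul, zero_mul, mul_zero, mul_one, zero_add, zero_sub]
  set gg := e p q y A + p * e p q y B with hgg
  rw [neg_eq_zero]
  have h4 : D₂ y = e p q y B / gg := by rw [eq_div_iff hg]; linear_combination h3
  rw [h4]
  field_simp
  ring

end Pool.Agent.W638.CW
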