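import Pool.Agent.W638.CW.Res
import Pool.Agent.W510.Cvx.Defs

/-! Restriction of polynomials to the lines `y = p x - q` (problem MP_5bde83_ag). -/

set_option autoImplicit false
set_option linter.unusedSectionVars false
set_option linter.unusedSimpArgs false

open MvPolynomial
open Pool.Agent.W510.Cvx (R3)

namespace Pool.Agent.W638.CW

variable {M : Type*} [Field M] [Algebra ℂ M]

/-- restriction to the line `y = p x - q`, `z = 1` -/
noncomputable def ev (p q : M) : R3 →ₐ[ℂ] Polynomial M :=
  aeval ![Polynomial.X, Polynomial.C p * Polynomial.X - Polynomial.C q, 1]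

/-- the value at the point `(x, p x - q, 1)` -/
noncomputable def e (p q x : M) : R3 →ₐ[ℂ] M := aeval ![x, p * x - q, 1]

/-- the derivative in `x` of the restriction -/
noncomputable def e1 (p q x : M) (W : R3) : M := e p q x (pderiv 0 W) + p * e p q x (pderiv 1 W)

lemma ev_X0 (p q : M) : ev p q (X 0) = Polynomial.X := by simp [ev]
lemma ev_X1 (p q : M) : ev p q (X 1) = Polynomial.C p * Polynomial.X - Polynomial.C q := by
  simp [ev]
lemma ev_X2 (p q : M) : ev p q (X 2) = 1 := by simp [ev]
lemma ev_C (p q : M) (c : ℂ) : ev p q (C c) = Polynomial.C (algebraMap ℂ M c) := by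
  rw [ev, aeval_C]; rfl
lemma e_X0 (p q x : M) : e p q x (X 0) = x := by simp [e]
lemma e_X1 (p q x : M) : e p q x (X 1) = p * x - q := by simp [e]
lemma e_X2 (p q x : M) : e p q x (X 2) = 1 := by simp [e]
lemma e_C (p q x : M) (c : ℂ) : e p q x (C c) = algebraMap ℂ M c := by
  rw [e, aeval_C]

lemma eval_ev (p q x : M) (W : R3) : (ev p q W).eval x = e p q x W := by
  induction W using MvPolynomial.induction_on with
  | C a => rw [ev_C, e_C, Polynomial.eval_C]
  | add f g hf hg => rw [map_add, map_add, Polynomial.eval_add, hf, hg]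
  | mul_X f n hf =>
    rw [map_mul, map_mul, Polynomial.eval_mul, hf]
    congr 1
    fin_cases n
    · show (ev p q (X 0)).eval x = e p q x (X 0)
      rw [ev_X0, e_X0, Polynomial.eval_X]
    · show (ev p q (X 1)).eval x = e p q x (X 1)
      rw [ev_X1, e_X1]; simp
    · show (ev p q (X 2)).eval x = e p q x (X 2)
      rw [ev_X2, e_X2, Polynomial.eval_one]

lemma ev_deriv (p q : M) (f : R3) : Polynomial.derivative (ev p q f) =
    ev p q (pderiv 0 f) + Polynomial.C p * ev p q (pderiv 1 f) := by
  induction f using MvPolynomial.induction_on with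
  | C a => simp [ev_C]
  | add f g hf hg => simp only [map_add, hf, hg]; ring
  | mul_X f n hf =>
    simp only [map_mul, Derivation.leibniz, smul_eq_mul, map_add, hf, Polynomial.derivative_mul]
    have : Polynomial.derivative (ev p q (X n)) =
        ev p q (pderiv 0 (X n : R3)) + Polynomial.C p * ev p q (pderiv 1 (X n : R3)) := by
      fin_cases n
      · show Polynomial.derivative (ev p q (X 0)) =
          ev p q (pderiv 0 (X 0 : R3)) + Polynomial.C p * ev p q (pderiv 1 (X 0 : R3))
        rw [ev_X0, pderiv_X_self, pderiv_X_of_ne (by decide)]; simp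
      · show Polynomial.derivative (ev p q (X 1)) =
          ev p q (pderiv 0 (X 1 : R3)) + Polynomial.C p * ev p q (pderiv 1 (X 1 : R3))
        rw [ev_X1, pderiv_X_self, pderiv_X_of_ne (by decide)]; simp
      · show Polynomial.derivative (ev p q (X 2)) =
          ev p q (pderiv 0 (X 2 : R3)) + Polynomial.C p * ev p q (pderiv 1 (X 2 : R3))
        rw [ev_X2, pderiv_X_of_ne (by decide), pderiv_X_of_ne (by decide)]; simp
    rw [this]
    ring

lemma eval_deriv (p q x : M) (f : R3) :
    (Polynomial.derivative (ev p q f)).eval x = e1 p q x f := by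
  rw [ev_deriv, Polynomial.eval_add, Polynomial.eval_mul, Polynomial.eval_C, eval_ev, eval_ev, e1]

/-- chain rule -/
lemma D_e (D : Derivation ℂ M M) (p q x : M) (f : R3) :
    D (e p q x f) = e p q x (pderiv 0 f) * D x + e p q x (pderiv 1 f) * D (p * x - q) := by
  induction f using MvPolynomial.induction_on with
  | C a =>
    rw [e_C, Derivation.map_algebraMap, pderiv_C, pderiv_C, map_zero, zero_mul, zero_mul, add_zero]
  | add f g hf hg => simp only [map_add, hf, hg]; ring
  | mul_X f n hf =>
    simp only [map_mul, Derivation.leibniz, smul_eq_mul, map_add, hf]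
    have : D (e p q x (X n)) =
        e p q x (pderiv 0 (X n : R3)) * D x + e p q x (pderiv 1 (X n : R3)) * D (p * x - q) := by
      fin_cases n
      · show D (e p q x (X 0)) =
          e p q x (pderiv 0 (X 0 : R3)) * D x + e p q x (pderiv 1 (X 0 : R3)) * D (p * x - q)
        rw [e_X0, pderiv_X_self, pderiv_X_of_ne (by decide)]; simp
      · show D (e p q x (X 1)) =
          e p q x (pderiv 0 (X 1 : R3)) * D x + e p q x (pderiv 1 (X 1 : R3)) * D (p * x - q)
        rw [e_X1, pderiv_X_self, pderiv_X_of_ne (by decide)]; simp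
      · show D (e p q x (X 2)) =
          e p q x (pderiv 0 (X 2 : R3)) * D x + e p q x (pderiv 1 (X 2 : R3)) * D (p * x - q)
        rw [e_X2, pderiv_X_of_ne (by decide), pderiv_X_of_ne (by decide)]; simp
    rw [this]
    simp only [map_sub, Derivation.leibniz, smul_eq_mul]
    ring

/-- The coordinate functions `p`, `q`. -/
structure Crd (D₁ D₂ : Derivation ℂ M M) (p q : M) : Prop where
  comm : ∀ a, D₁ (D₂ a) = D₂ (D₁ a)
  D₁p : D₁ p = 1
  D₁q : D₁ q = 0
  D₂p : D₂ p = 0
  D₂q : D₂ q = 1

section

variable {D₁ D₂ : Derivation ℂ M M} {p q : M}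

lemma D₁_e (h : Crd D₁ D₂ p q) (x : M) (f : R3) :
    D₁ (e p q x f) = D₁ x * e1 p q x f + x * e p q x (pderiv 1 f) := by
  rw [D_e, map_sub, Derivation.leibniz, h.D₁p, h.D₁q, e1]
  simp only [smul_eq_mul]; ring

lemma D₂_e (h : Crd D₁ D₂ p q) (x : M) (f : R3) :
    D₂ (e p q x f) = D₂ x * e1 p q x f - e p q x (pderiv 1 f) := by
  rw [D_e, map_sub, Derivation.leibniz, h.D₂p, h.D₂q, e1]
  simp only [smul_eq_mul]; ring

/-- `D_x = ∂_p + x ∂_q` -/
noncomputable def Dx (D₁ D₂ : Derivation ℂ M M) (x : M) : Derivation ℂ M M := D₁ + x • D₂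

lemma Dx_apply (x f : M) : Dx D₁ D₂ x f = D₁ f + x * D₂ f := by simp [Dx]

lemma Dx_e (h : Crd D₁ D₂ p q) (x : M) (f : R3) :
    Dx D₁ D₂ x (e p q x f) = Dx D₁ D₂ x x * e1 p q x f := by
  simp only [Dx_apply, D₁_e h, D₂_e h]; ring

lemma Dx_p (h : Crd D₁ D₂ p q) (x : M) : Dx D₁ D₂ x p = 1 := by
  simp [Dx_apply, h.D₁p, h.D₂p]

/-- algebraic elements are constants -/
lemma D_alg (D : Derivation ℂ M M) {x : M} (hx : IsAlgebraic ℂ x) : D x = 0 := by
  obtain ⟨c, rfl⟩ : ∃ c : ℂ, algebraMap ℂ M c = x := by
    have h1 : IsIntegral ℂ x := hx.isIntegral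
    obtain ⟨c, hc⟩ := IsAlgClosed.exists_aeval_eq_zero ℂ (minpoly ℂ x)
      (ne_of_gt (minpoly.degree_pos h1))
    have h2 : minpoly ℂ x = Polynomial.X - Polynomial.C c := by
      have h3 : (Polynomial.X - Polynomial.C c) ∣ minpoly ℂ x := by
        rw [Polynomial.dvd_iff_isRoot]
        simpa using hc
      have h4 := (minpoly.irreducible h1)
      obtain ⟨g, hg⟩ := h3
      rcases h4.isUnit_or_isUnit hg with h5 | h5
      · exact absurd h5 (Polynomial.not_isUnit_X_sub_C c)
      · refine Polynomial.eq_of_monic_of_associated (minpoly.monic h1)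
          (Polynomial.monic_X_sub_C c) ?_
        rw [hg]
        exact (associated_mul_unit_left _ _ h5)
    refine ⟨c, ?_⟩
    have h6 := minpoly.aeval ℂ x
    rw [h2] at h6
    simp only [map_sub, Polynomial.aeval_X, Polynomial.aeval_C] at h6
    exact (sub_eq_zero.1 h6).symm
  exact Derivation.map_algebraMap D c

lemma Crd.trans_p (h : Crd D₁ D₂ p q) : Transcendental ℂ p := by
  intro h1
  have := D_alg D₁ h1
  rw [h.D₁p] at this
  exact one_ne_zero this

lemma Crd.trans_w (h : Crd D₁ D₂ p q) (x : M) :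
    Transcendental ℂ x ∨ Transcendental ℂ (p * x - q) := by
  by_contra hcon
  rw [not_or] at hcon
  obtain ⟨h1, h2⟩ := hcon
  have h3 := D_alg D₂ (not_not.1 h1)
  have h4 := D_alg D₂ (not_not.1 h2)
  rw [map_sub, Derivation.leibniz, h.D₂p, h.D₂q, h3] at h4
  simp at h4

end

/-! top coefficients -/

lemma wt3 (m : Fin 3 →₀ ℕ) : (Finsupp.weight (1 : Fin 3 → ℕ)) m = m 0 + m 1 + m 2 := by
  rw [Finsupp.weight_apply, Finsupp.sum_fintype _ _ (by simp), Fin.sum_univ_three]
  simp

lemma ev_monomial (p q : M) (m : Fin 3 →₀ ℕ) (c : ℂ) :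
    ev p q (monomial m c) = Polynomial.C (algebraMap ℂ M c) *
      (Polynomial.X ^ m 0 * (Polynomial.C p * Polynomial.X - Polynomial.C q) ^ m 1) := by
  rw [ev, aeval_monomial, Finsupp.prod_fintype _ _ (fun i => pow_zero _), Fin.prod_univ_three]
  simp only [Matrix.cons_val_zero, Matrix.cons_val_one, Matrix.cons_val, one_pow, mul_one]
  rfl

lemma natDegree_lin_le (p q : M) :
    (Polynomial.C p * Polynomial.X - Polynomial.C q : Polynomial M).natDegree ≤ 1 := by
  refine (Polynomial.natDegree_sub_le _ _).trans (max_le ?_ ?_)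
  · exact (Polynomial.natDegree_C_mul_le _ _).trans Polynomial.natDegree_X_le
  · simp

lemma ev_natDegree (p q : M) {f : R3} {n : ℕ} (hf : f.IsHomogeneous n) :
    (ev p q f).natDegree ≤ n := by
  rw [f.as_sum, map_sum]
  apply Polynomial.natDegree_sum_le_of_forall_le
  intro m hm
  have hd := hf (mem_support_iff.mp hm)
  rw [wt3] at hd
  rw [ev_monomial]
  refine (Polynomial.natDegree_C_mul_le _ _).trans (Polynomial.natDegree_mul_le.trans ?_)
  have h1 : (Polynomial.X ^ m 0 : Polynomial M).natDegree ≤ m 0 := Polynomial.natDegree_X_pow_le _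
  have h2 : ((Polynomial.C p * Polynomial.X - Polynomial.C q : Polynomial M) ^ m 1).natDegree ≤
      m 1 := by
    refine Polynomial.natDegree_pow_le.trans ?_
    have := natDegree_lin_le p q
    nlinarith
  omega

/-- the value at `(1, p, 0)` -/
noncomputable def top (p : M) : R3 →ₐ[ℂ] M := aeval ![1, p, 0]

lemma ev_coeff (p q : M) {f : R3} {n : ℕ} (hf : f.IsHomogeneous n) :
    (ev p q f).coeff n = top p f := by
  rw [f.as_sum, map_sum, map_sum, Polynomial.finsetSum_coeff]
  refine Finset.sum_congr rfl (fun m hm => ?_)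
  have hd := hf (mem_support_iff.mp hm)
  rw [wt3] at hd
  rw [ev_monomial, Polynomial.coeff_C_mul, top, aeval_monomial,
    Finsupp.prod_fintype _ _ (fun i => pow_zero _), Fin.prod_univ_three]
  simp only [Matrix.cons_val_zero, Matrix.cons_val_one, Matrix.cons_val, one_pow, one_mul]
  congr 1
  have h1 : (Polynomial.X ^ m 0 : Polynomial M).natDegree ≤ m 0 := Polynomial.natDegree_X_pow_le _
  have h2 : ((Polynomial.C p * Polynomial.X - Polynomial.C q : Polynomial M) ^ m 1).natDegree ≤
      m 1 := by
    refine Polynomial.natDegree_pow_le.trans ?_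
    have := natDegree_lin_le p q
    nlinarith
  by_cases h : m 2 = 0
  · rw [h, pow_zero, mul_one, ← hd, h, add_zero, Polynomial.coeff_mul_add_eq_of_natDegree_le h1 h2,
      Polynomial.coeff_X_pow, if_pos rfl, one_mul]
    have h3 := Polynomial.coeff_pow_of_natDegree_le (m := m 1) (natDegree_lin_le p q)
    rw [mul_one] at h3
    rw [h3]
    simp
  · rw [zero_pow h, mul_zero]
    apply Polynomial.coeff_eq_zero_of_natDegree_lt
    refine lt_of_le_of_lt Polynomial.natDegree_mul_le ?_
    omega

lemma D₂_top {D₂ : Derivation ℂ M M} {p : M} (h : D₂ p = 0) (f : R3) : D₂ (top p f) = 0 := by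
  induction f using MvPolynomial.induction_on with
  | C a => rw [top, aeval_C, Derivation.map_algebraMap]
  | add f g hf hg => rw [map_add, map_add, hf, hg, add_zero]
  | mul_X f n hf =>
    rw [map_mul, Derivation.leibniz, hf, smul_zero, add_zero]
    have : D₂ (top p (X n)) = 0 := by
      fin_cases n <;> simp [top, h]
    rw [this, smul_zero]

/-- If the top coefficient vanishes then `z` divides. -/
lemma top_ne {p : M} (hp : Transcendental ℂ p) {f : R3} {n : ℕ} (hf : f.IsHomogeneous n)
    (hz : ¬ (X 2 : R3) ∣ f) : top p f ≠ 0 := by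
  classical
  intro h0
  obtain ⟨m, hm, hm2⟩ : ∃ m ∈ f.support, m 2 = 0 := by
    by_contra hcon
    push Not at hcon
    apply hz
    rw [f.as_sum]
    refine Finset.dvd_sum (fun m hm => ?_)
    show (monomial (Finsupp.single 2 1) (1 : ℂ) : R3) ∣ _
    rw [monomial_dvd_monomial]
    exact ⟨Or.inr (Finsupp.single_le_iff.2 (Nat.one_le_iff_ne_zero.2 (hcon m hm))), one_dvd _⟩
  set g : Polynomial ℂ := aeval ![(1 : Polynomial ℂ), Polynomial.X, 0] f with hg
  have h1 : Polynomial.aeval p g = 0 := by
    rw [← h0, hg, top]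
    have : (Polynomial.aeval p).comp (aeval ![(1 : Polynomial ℂ), Polynomial.X, 0] :
        R3 →ₐ[ℂ] Polynomial ℂ) = (aeval ![1, p, 0] : R3 →ₐ[ℂ] M) := by
      apply MvPolynomial.algHom_ext
      intro i
      fin_cases i <;> simp
    exact congrArg (fun φ : R3 →ₐ[ℂ] M => φ f) this
  have h2 : g = 0 := by
    by_contra hne
    exact hp ⟨g, hne, h1⟩
  have h3 : g.coeff (m 1) = coeff m f := by
    rw [hg]
    conv_lhs => rw [f.as_sum]
    rw [map_sum, Polynomial.finsetSum_coeff, Finset.sum_eq_single m]
    · rw [aeval_monomial, Finsupp.prod_fintype _ _ (fun i => pow_zero _), Fin.prod_univ_three]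
      simp [hm2]
    · intro l hl hlm
      rw [aeval_monomial, Finsupp.prod_fintype _ _ (fun i => pow_zero _), Fin.prod_univ_three]
      simp only [Matrix.cons_val_zero, Matrix.cons_val_one, Matrix.cons_val, one_pow, one_mul]
      by_cases hl2 : l 2 = 0
      · rw [hl2, pow_zero, mul_one]
        have e1 := hf (mem_support_iff.mp hm)
        have e2 := hf (mem_support_iff.mp hl)
        rw [wt3] at e1 e2
        have h5 : l 1 ≠ m 1 := by
          intro h6
          apply hlm
          ext i
          fin_cases i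
          · show l 0 = m 0; omega
          · exact h6
          · show l 2 = m 2; omega
        show ((Polynomial.C (coeff l f)) * Polynomial.X ^ l 1).coeff (m 1) = 0
        rw [Polynomial.coeff_C_mul_X_pow, if_neg (Ne.symm h5)]
      · rw [zero_pow hl2, mul_zero, mul_zero, Polynomial.coeff_zero]
    · intro h; exact absurd hm h
  rw [h2, Polynomial.coeff_zero] at h3
  exact (mem_support_iff.1 hm) h3.symm

end Pool.Agent.W638.CW
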