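import Pool.Agent.W638.CW.Gen

/-! Existence of a covering on which the dual web is decomposable (problem MP_5bde83_ag). -/

set_option autoImplicit false
set_option linter.unusedSectionVars false
set_option linter.unusedSimpArgs false

open MvPolynomial Finset
open Pool.Agent.W510.Cvx (R3)

namespace Pool.Agent.W638.CW

section Frac

variable {A F : Type*} [CommRing A] [IsDomain A] [Field F] [Algebra A F] [IsFractionRing A F]
  [Algebra ℂ A] [Algebra ℂ F] [IsScalarTower ℂ A F]

open TrivSqZeroExt in
theorem exists_extend (D : Derivation ℂ A A) :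
    ∃ D' : Derivation ℂ F F, ∀ a, D' (algebraMap A F a) = algebraMap A F (D a) := by
  let φ : A →ₐ[ℂ] TrivSqZeroExt F F :=
    { toFun := fun a => inl (algebraMap A F a) + inr (algebraMap A F (D a))
      map_one' := by simp
      map_mul' := by
        intro a b
        ext
        · simp only [fst_add, fst_inl, fst_inr, fst_mul, map_mul, add_zero]
        · simp only [snd_add, snd_inl, snd_inr, snd_mul, fst_add, fst_inl, fst_inr, map_mul,
            Derivation.leibniz, smul_eq_mul, map_add, MulOpposite.smul_eq_mul_unop,
            MulOpposite.unop_op, zero_add, add_zero]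
          ring
      map_zero' := by simp
      map_add' := by
        intro a b
        ext
        · simp only [fst_add, fst_inl, fst_inr, map_add, add_zero]
        · simp only [snd_add, snd_inl, snd_inr, map_add, zero_add]
      commutes' := by
        intro c
        rw [algebraMap_eq_inl', ← IsScalarTower.algebraMap_apply ℂ A F]
        simp }
  have hφ1 : ∀ a, (φ a).fst = algebraMap A F a := fun a => by
    change (inl (algebraMap A F a) + inr (algebraMap A F (D a)) : TrivSqZeroExt F F).fst = _
    simp only [fst_add, fst_inl, fst_inr, add_zero]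
  have hφ2 : ∀ a, (φ a).snd = algebraMap A F (D a) := fun a => by
    change (inl (algebraMap A F a) + inr (algebraMap A F (D a)) : TrivSqZeroExt F F).snd = _
    simp only [snd_add, snd_inl, snd_inr, zero_add]
  have hφ : ∀ s : nonZeroDivisors A, IsUnit (φ s) := by
    intro s
    rw [TrivSqZeroExt.isUnit_iff_isUnit_fst, hφ1, isUnit_iff_ne_zero]
    exact IsLocalization.to_map_ne_zero_of_mem_nonZeroDivisors F le_rfl s.2
  let ψ : F →ₐ[ℂ] TrivSqZeroExt F F := IsLocalization.liftAlgHom (M := nonZeroDivisors A) (f := φ) hφ
  have hψ : ∀ a, ψ (algebraMap A F a) = φ a := fun a => by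
    simp [ψ]
  have hfst : ∀ z, (ψ z).fst = z := by
    intro z
    obtain ⟨a, b, hb, rfl⟩ := IsFractionRing.div_surjective (A := A) z
    have hb0 : algebraMap A F b ≠ 0 := IsLocalization.to_map_ne_zero_of_mem_nonZeroDivisors F le_rfl hb
    have h1 : ψ (algebraMap A F a / algebraMap A F b) * ψ (algebraMap A F b) = ψ (algebraMap A F a) := by
      rw [← map_mul, div_mul_cancel₀ _ hb0]
    have h2 := congrArg TrivSqZeroExt.fst h1
    rw [TrivSqZeroExt.fst_mul, hψ, hψ, hφ1, hφ1] at h2
    rw [eq_div_iff hb0, h2]
  refine ⟨
    { toFun := fun z => (ψ z).snd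
      map_add' := fun a b => by rw [map_add, snd_add]
      map_smul' := fun c a => by rw [map_smul, snd_smul]; rfl
      map_one_eq_zero' := by
        change (ψ 1).snd = 0
        rw [map_one, snd_one]
      leibniz' := fun a b => by
        change (ψ (a * b)).snd = a • (ψ b).snd + b • (ψ a).snd
        rw [map_mul, snd_mul, hfst, hfst]
        simp only [smul_eq_mul, MulOpposite.smul_eq_mul_unop, MulOpposite.unop_op]
        ring }, ?_⟩
  intro a
  change (ψ (algebraMap A F a)).snd = _
  rw [hψ, hφ2]

/-- derivations of the fraction field are determined by their values on the ring -/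
lemma ext_unique {D D' : Derivation ℂ F F}
    (h : ∀ a, D (algebraMap A F a) = D' (algebraMap A F a)) : D = D' := by
  ext z
  obtain ⟨a, b, hb, rfl⟩ := IsFractionRing.div_surjective (A := A) z
  rw [Derivation.leibniz_div, Derivation.leibniz_div, h, h]

end Frac

section Fin

variable {K L : Type*} [Field K] [CharZero K] [Field L] [Algebra K L] [FiniteDimensional K L]
  [Algebra ℂ K] [Algebra ℂ L] [IsScalarTower ℂ K L]

theorem exists_extend_fin (D : Derivation ℂ K K) :
    ∃ D' : Derivation ℂ L L, ∀ a, D' (algebraMap K L a) = algebraMap K L (D a) := by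
  letI : Differential K := ⟨D.restrictScalars ℤ⟩
  letI : Differential L := Differential.differentialFiniteDimensional K L
  have hDA : DifferentialAlgebra K L := Differential.differentialAlgebraFiniteDimensional
  let d : Derivation ℤ L L := Differential.deriv
  have hd : ∀ a, d (algebraMap K L a) = algebraMap K L (D a) := fun a =>
    DifferentialAlgebra.deriv_algebraMap a
  have hc : ∀ c : ℂ, d (algebraMap ℂ L c) = 0 := by
    intro c
    rw [IsScalarTower.algebraMap_apply ℂ K L, hd, Derivation.map_algebraMap, map_zero]
  refine ⟨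
    { toFun := fun z => d z
      map_add' := fun a b => map_add d a b
      map_smul' := fun c a => by
        change d (c • a) = c • d a
        rw [Algebra.smul_def, Derivation.leibniz, hc, smul_zero, add_zero, smul_eq_mul,
          Algebra.smul_def]
      map_one_eq_zero' := by
        change d 1 = 0
        exact Derivation.map_one_eq_zero d
      leibniz' := fun a b => by
        change d (a * b) = a • d b + b • d a
        exact Derivation.leibniz d a b }, hd⟩

theorem zero_of_base {D : Derivation ℂ L L} (h : ∀ a, D (algebraMap K L a) = 0) : D = 0 := by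
  let D' : Derivation K L L :=
    { toFun := fun z => D z
      map_add' := fun a b => map_add D a b
      map_smul' := fun c a => by
        change D (c • a) = c • D a
        rw [Algebra.smul_def, Derivation.leibniz, h, smul_zero, add_zero, smul_eq_mul,
          Algebra.smul_def]
      map_one_eq_zero' := by
        change D 1 = 0
        exact Derivation.map_one_eq_zero D
      leibniz' := fun a b => by
        change D (a * b) = a • D b + b • D a
        exact Derivation.leibniz D a b }
  ext x
  have hx : IsIntegral K x := (IsAlgebraic.of_finite K x).isIntegral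
  have h1 := Derivation.map_aeval D' (minpoly K x) x
  rw [minpoly.aeval, map_zero, smul_eq_mul] at h1
  have h2 : (Polynomial.aeval x) (Polynomial.derivative (minpoly K x)) ≠ 0 :=
    (minpoly.irreducible hx).separable.aeval_derivative_ne_zero (minpoly.aeval K x)
  exact (mul_eq_zero.1 h1.symm).resolve_left h2

end Fin

/-- a product of lines through the origin -/
lemma prod_lines {L : Type*} [Field L] (l : List L) : ∀ n : ℕ, l.length ≤ n →
    ∃ a b : Fin n → L, ∀ s t : L, t ^ (n - l.length) * (l.map (fun x => s - x * t)).prod =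
      ∏ i, (a i * s + b i * t) := by
  induction l with
  | nil =>
    intro n _
    refine ⟨fun _ => 0, fun _ => 1, fun s t => ?_⟩
    simp
  | cons x l ih =>
    intro n hn
    obtain ⟨n, rfl⟩ : ∃ n', n = n' + 1 := ⟨n - 1, by simp at hn; omega⟩
    obtain ⟨a, b, h⟩ := ih n (by simpa using hn)
    refine ⟨Fin.cons 1 a, Fin.cons (-x) b, fun s t => ?_⟩
    rw [Fin.prod_univ_succ]
    simp only [Fin.cons_zero, Fin.cons_succ, List.length_cons, List.map_cons, List.prod_cons]
    rw [← h s t, Nat.succ_sub_succ_eq_sub]
    ring

lemma aeval_smul_hom {M : Type*} [Field M] [Algebra ℂ M] {f : R3} {n : ℕ} (hf : f.IsHomogeneous n)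
    (c : M) (v : Fin 3 → M) : aeval (fun i => c * v i) f = c ^ n * aeval v f := by
  conv_lhs => rw [f.as_sum]
  conv_rhs => rw [f.as_sum]
  rw [map_sum, map_sum, Finset.mul_sum]
  refine Finset.sum_congr rfl (fun m hm => ?_)
  have hd := hf (mem_support_iff.mp hm)
  rw [wt3] at hd
  rw [aeval_monomial, aeval_monomial, Finsupp.prod_fintype _ _ (fun i => pow_zero _),
    Finsupp.prod_fintype _ _ (fun i => pow_zero _), Fin.prod_univ_three, Fin.prod_univ_three, ← hd]
  ring

/-- Existence of a covering on which the web form splits. -/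
theorem exists_split {n k m : ℕ} (hn1 : 1 ≤ n) {V : Fin 3 → R3} {F : R3}
    (hV : ∀ i, (V i).IsHomogeneous m) (hF : F.IsHomogeneous k) (hn : n = k + m) :
    ∃ (M : Type) (_ : Field M) (_ : Algebra ℂ M) (D₁ D₂ : Derivation ℂ M M) (p q : M)
      (a b : Fin n → M), Crd D₁ D₂ p q ∧
      ∀ s t : M, aeval ![s, p * s - q * t, t] F *
      (aeval ![s, p * s - q * t, t] (V 1) - p * aeval ![s, p * s - q * t, t] (V 0) +
        q * aeval ![s, p * s - q * t, t] (V 2)) = ∏ i, (a i * s + b i * t) := by
  classical
  let A := MvPolynomial (Fin 2) ℂ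
  let K := FractionRing A
  have hKc : CharZero K := charZero_of_injective_algebraMap (algebraMap ℂ K).injective
  obtain ⟨d₁, hd₁⟩ := exists_extend (F := K) (pderiv (R := ℂ) (0 : Fin 2))
  obtain ⟨d₂, hd₂⟩ := exists_extend (F := K) (pderiv (R := ℂ) (1 : Fin 2))
  set P : K := algebraMap A K (X 0) with hP
  set Q : K := algebraMap A K (X 1) with hQ
  set Wp : Polynomial K := ev P Q F * (ev P Q (V 1) - Polynomial.C P * ev P Q (V 0) +
    Polynomial.C Q * ev P Q (V 2)) with hWp
  let L := Wp.SplittingField
  obtain ⟨D₁, hD₁⟩ := exists_extend_fin (K := K) (L := L) d₁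
  obtain ⟨D₂, hD₂⟩ := exists_extend_fin (K := K) (L := L) d₂
  -- the derivations of the base commute
  have hc0 : ∀ a : K, d₁ (d₂ a) = d₂ (d₁ a) := by
    have h1 : (⁅d₁, d₂⁆ : Derivation ℂ K K) = 0 := by
      apply ext_unique (A := A)
      intro a
      have h2 : pderiv (0 : Fin 2) (pderiv 1 a) = pderiv 1 (pderiv 0 a) := by
        have h3 : ⁅(pderiv 0 : Derivation ℂ A A), (pderiv 1 : Derivation ℂ A A)⁆ = 0 := by
          apply MvPolynomial.derivation_ext
          intro i
          rw [Derivation.commutator_apply]
          fin_cases i <;> simp [pderiv_X, Pi.single_apply]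
        have h4 := congrArg (fun D : Derivation ℂ A A => D a) h3
        simp only [Derivation.commutator_apply] at h4
        exact sub_eq_zero.1 h4
      rw [Derivation.commutator_apply, hd₂, hd₁, hd₁, hd₂, h2, sub_self]
      rfl
    intro a
    have h4 := congrArg (fun D : Derivation ℂ K K => D a) h1
    simp only [Derivation.commutator_apply] at h4
    exact sub_eq_zero.1 h4
  have hc1 : ∀ a : L, D₁ (D₂ a) = D₂ (D₁ a) := by
    have h1 : (⁅D₁, D₂⁆ : Derivation ℂ L L) = 0 := by
      apply zero_of_base (K := K)
      intro a
      rw [Derivation.commutator_apply, hD₂, hD₁, hD₁, hD₂, hc0, sub_self]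
    intro a
    have h4 := congrArg (fun D : Derivation ℂ L L => D a) h1
    simp only [Derivation.commutator_apply] at h4
    exact sub_eq_zero.1 h4
  set p : L := algebraMap K L P with hp
  set q : L := algebraMap K L Q with hq
  have hcrd : Crd D₁ D₂ p q := by
    refine ⟨hc1, ?_, ?_, ?_, ?_⟩
    · rw [hp, hD₁, hP, hd₁]; simp
    · rw [hq, hD₁, hQ, hd₁]; simp [pderiv_X]
    · rw [hp, hD₂, hP, hd₂]; simp [pderiv_X]
    · rw [hq, hD₂, hQ, hd₂]; simp
  -- the web form
  set W : L → L → L := fun s t => aeval ![s, p * s - q * t, t] F *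
      (aeval ![s, p * s - q * t, t] (V 1) - p * aeval ![s, p * s - q * t, t] (V 0) +
        q * aeval ![s, p * s - q * t, t] (V 2)) with hW
  have hmap : ∀ f : R3, (ev P Q f).map (algebraMap K L) = ev p q f := by
    intro f
    have h1 : (Polynomial.mapRingHom (algebraMap K L)).comp (ev P Q).toRingHom =
        (ev p q).toRingHom := by
      apply MvPolynomial.ringHom_ext
      · intro c
        show ((ev P Q) (C c)).map (algebraMap K L) = ev p q (C c)
        rw [ev_C, ev_C, Polynomial.map_C, ← IsScalarTower.algebraMap_apply ℂ K L]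
      · intro i
        fin_cases i
        · show ((ev P Q) (X 0)).map (algebraMap K L) = ev p q (X 0)
          rw [ev_X0, ev_X0, Polynomial.map_X]
        · show ((ev P Q) (X 1)).map (algebraMap K L) = ev p q (X 1)
          rw [ev_X1, ev_X1, Polynomial.map_sub, Polynomial.map_mul, Polynomial.map_C,
            Polynomial.map_C, Polynomial.map_X]
        · show ((ev P Q) (X 2)).map (algebraMap K L) = ev p q (X 2)
          rw [ev_X2, ev_X2, Polynomial.map_one]
    exact congrArg (fun φ : R3 →+* Polynomial L => φ f) h1
  set Wm : Polynomial L := Wp.map (algebraMap K L) with hWm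
  have hWeq : Wm = ev p q F * (ev p q (V 1) - Polynomial.C p * ev p q (V 0) +
    Polynomial.C q * ev p q (V 2)) := by
    rw [hWm]
    change Polynomial.map (algebraMap K L) (ev P Q F * (ev P Q (V 1) -
      Polynomial.C P * ev P Q (V 0) + Polynomial.C Q * ev P Q (V 2))) = _
    rw [Polynomial.map_mul, Polynomial.map_add, Polynomial.map_sub, Polynomial.map_mul,
      Polynomial.map_mul, Polynomial.map_C, Polynomial.map_C, hmap, hmap, hmap, hmap]
  have hWW : ∀ s : L, Wm.eval s = W s 1 := by
    intro s
    rw [hWeq, Polynomial.eval_mul, Polynomial.eval_add, Polynomial.eval_sub, Polynomial.eval_mul,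
      Polynomial.eval_mul, Polynomial.eval_C, Polynomial.eval_C, eval_ev, eval_ev, eval_ev, eval_ev,
      hW]
    simp only [mul_one, e_def]
  have hWh : ∀ c s t : L, W (c * s) (c * t) = c ^ n * W s t := by
    intro c s t
    have h1 : (![c * s, p * (c * s) - q * (c * t), c * t] : Fin 3 → L) =
        fun i => c * (![s, p * s - q * t, t] : Fin 3 → L) i := by
      funext i
      fin_cases i
      · rfl
      · show p * (c * s) - q * (c * t) = c * (p * s - q * t)
        ring
      · rfl
    simp only [hW]
    rw [h1, aeval_smul_hom hF, aeval_smul_hom (hV 0), aeval_smul_hom (hV 1),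
      aeval_smul_hom (hV 2), hn, pow_add]
    ring
  have hdeg : Wm.natDegree ≤ n := by
    rw [hWeq, hn]
    refine Polynomial.natDegree_mul_le.trans (Nat.add_le_add (ev_natDegree p q hF) ?_)
    refine (Polynomial.natDegree_add_le _ _).trans (max_le ?_ ?_)
    · refine (Polynomial.natDegree_sub_le _ _).trans (max_le (ev_natDegree p q (hV 1)) ?_)
      exact (Polynomial.natDegree_C_mul_le _ _).trans (ev_natDegree p q (hV 0))
    · exact (Polynomial.natDegree_C_mul_le _ _).trans (ev_natDegree p q (hV 2))
  have hsplit : Wm.Splits := Polynomial.SplittingField.splits Wp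
  set l := Wm.roots.toList with hl
  have hlen : l.length = Wm.natDegree := by
    rw [hl, Multiset.length_toList, ← hsplit.natDegree_eq_card_roots]
  obtain ⟨a, b, hab⟩ := prod_lines l n (by rw [hlen]; exact hdeg)
  -- equality for `t ≠ 0`
  have hne : ∀ s t : L, t ≠ 0 → W s t = Wm.leadingCoeff * ∏ i, (a i * s + b i * t) := by
    intro s t ht
    have h1 := hWh t (s / t) 1
    rw [mul_div_cancel₀ _ ht, mul_one, ← hWW, hsplit.eval_eq_prod_roots] at h1
    rw [h1, ← hab]
    have h2 : (Multiset.map (fun x => s / t - x) Wm.roots).prod =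
        (l.map (fun x => s / t - x)).prod := by
      conv_lhs => rw [← Multiset.coe_toList Wm.roots]
      rw [Multiset.map_coe, Multiset.prod_coe]
    rw [h2]
    have h3 : (l.map (fun x => s - x * t)).prod =
        t ^ l.length * (l.map (fun x => s / t - x)).prod := by
      have : (fun x : L => s - x * t) = fun x => t * (s / t - x) := by
        funext x
        rw [mul_sub, mul_div_cancel₀ _ ht, mul_comm x t]
      rw [this, List.prod_map_mul]
      simp
    rw [h3]
    have h4 : t ^ n = t ^ (n - l.length) * t ^ l.length := by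
      rw [← pow_add]; congr 1; rw [hlen]; omega
    rw [h4]; ring
  -- equality for all `t`
  have hLc : CharZero L := charZero_of_injective_algebraMap (algebraMap ℂ L).injective
  have hall : ∀ s t : L, W s t = Wm.leadingCoeff * ∏ i, (a i * s + b i * t) := by
    intro s t
    -- polynomials in `t`
    set φ : R3 →ₐ[ℂ] Polynomial L := aeval ![Polynomial.C s, Polynomial.C (p * s) -
      Polynomial.C q * Polynomial.X, Polynomial.X] with hφ
    have hφe : ∀ (f : R3) (u : L), (φ f).eval u = aeval ![s, p * s - q * u, u] f := by
      intro f u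
      have h1 : (Polynomial.evalRingHom u).comp φ.toRingHom =
          ((aeval ![s, p * s - q * u, u] : R3 →ₐ[ℂ] L)).toRingHom := by
        apply MvPolynomial.ringHom_ext
        · intro c
          simp [hφ]
        · intro i
          fin_cases i <;> simp [hφ]
      exact congrArg (fun φ : R3 →+* L => φ f) h1
    set R1 : Polynomial L := φ F * (φ (V 1) - Polynomial.C p * φ (V 0) +
      Polynomial.C q * φ (V 2)) with hR1
    set R2 : Polynomial L := Polynomial.C Wm.leadingCoeff *
      ∏ i, (Polynomial.C (a i * s) + Polynomial.C (b i) * Polynomial.X) with hR2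
    have e1 : ∀ u, R1.eval u = W s u := by
      intro u
      simp only [hR1, hW, Polynomial.eval_mul, Polynomial.eval_add, Polynomial.eval_sub,
        Polynomial.eval_C, hφe]
    have e2 : ∀ u, R2.eval u = Wm.leadingCoeff * ∏ i, (a i * s + b i * u) := by
      intro u
      simp only [hR2, Polynomial.eval_mul, Polynomial.eval_prod, Polynomial.eval_add,
        Polynomial.eval_C, Polynomial.eval_X]
    have h5 : (R1 - R2) * Polynomial.X = 0 := by
      apply Polynomial.funext
      intro u
      rw [Polynomial.eval_mul, Polynomial.eval_sub, Polynomial.eval_X, e1, e2]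
      by_cases hu : u = 0
      · rw [hu, mul_zero]; simp
      · rw [hne s u hu, sub_self, zero_mul]; simp
    have h6 : R1 - R2 = 0 := (mul_eq_zero.1 h5).resolve_right Polynomial.X_ne_zero
    rw [← e1, ← e2, sub_eq_zero.1 h6]
  -- absorb the constant
  obtain ⟨n, rfl⟩ : ∃ n', n = n' + 1 := ⟨n - 1, by omega⟩
  refine ⟨L, inferInstance, inferInstance, D₁, D₂, p, q,
    fun i => if i = 0 then Wm.leadingCoeff * a i else a i,
    fun i => if i = 0 then Wm.leadingCoeff * b i else b i, hcrd, fun s t => ?_⟩
  have h7 := hall s t
  simp only [hW] at h7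
  rw [h7, Fin.prod_univ_succ, Fin.prod_univ_succ]
  simp only [if_true, Fin.succ_ne_zero, if_false]
  ring

end Pool.Agent.W638.CW
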