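import Pool.Agent.W638.CW.Spec
import Pool.Agent.W417.Cvx.ACT

/-! The theorem in a general chart (problem MP_5bde83_ag). -/

set_option autoImplicit false
set_option linter.unusedSectionVars false
set_option linter.unusedSimpArgs false

open MvPolynomial Finset
open Pool.Agent.W510.Cvx (R3 drv infl lin Cv IL vm act lin_eq lin_hom lin_irr lin_ne)

namespace Pool.Agent.W638.CW

/-- a matrix which moves the line `a` to infinity -/
lemma exists_mat {a : Fin 3 → ℂ} (ha : a ≠ 0) : ∃ S N : Matrix (Fin 3) (Fin 3) ℂ,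
    S * N = 1 ∧ vm a S 0 = 0 ∧ vm a S 1 = 0 := by
  obtain ⟨r0, r1, hdet⟩ : ∃ r0 r1 : Fin 3 → ℂ, (Matrix.of ![r0, r1, a]).det ≠ 0 := by
    obtain ⟨i, hi⟩ : ∃ i, a i ≠ 0 := by
      by_contra hh; push Not at hh; exact ha (funext hh)
    fin_cases i
    · refine ⟨![0, 1, 0], ![0, 0, 1], ?_⟩
      rw [Matrix.det_fin_three]
      simpa using hi
    · refine ⟨![1, 0, 0], ![0, 0, 1], ?_⟩
      rw [Matrix.det_fin_three]
      simpa using hi
    · refine ⟨![1, 0, 0], ![0, 1, 0], ?_⟩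
      rw [Matrix.det_fin_three]
      simpa using hi
  set N := Matrix.of ![r0, r1, a] with hN
  have h1 : N * N⁻¹ = 1 := Matrix.mul_nonsing_inv _ (isUnit_iff_ne_zero.2 hdet)
  refine ⟨N⁻¹, N, mul_eq_one_comm.1 h1, ?_, ?_⟩
  · have h2 := congrFun (congrFun h1 2) 0
    rw [Matrix.mul_apply, Fin.sum_univ_three] at h2
    simpa [hN, vm] using h2
  · have h2 := congrFun (congrFun h1 2) 1
    rw [Matrix.mul_apply, Fin.sum_univ_three] at h2
    simpa [hN, vm] using h2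

/-- a convex foliation of positive degree has an inflection line -/
lemma exists_IL {m : ℕ} {V : Fin 3 → R3} (hV : Cv (m + 1) V) : ∃ a, IL V a := by
  have h1 : (infl V).IsHomogeneous (3 * (m + 1)) :=
    Pool.Agent.W510.Cvx.infl_hom (by omega) hV.hom
  have h2 : ¬ IsUnit (infl V) := by
    intro hu
    obtain ⟨c, -, hc⟩ := (MvPolynomial.isUnit_iff_eq_C_of_isReduced (P := infl V)).1 hu
    have h3 := h1.totalDegree hV.ne
    rw [hc, totalDegree_C] at h3
    omega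
  obtain ⟨P, hP, hPd⟩ := WfDvdMonoid.exists_irreducible_factor h2 hV.ne
  obtain ⟨a, ha, -, -⟩ := hV.irr hP hPd
  exact ⟨a, ha⟩

variable {M : Type*} [Field M] [Algebra ℂ M] {D₁ D₂ : Derivation ℂ M M} {p q : M}

lemma aeval_sub (S : Matrix (Fin 3) (Fin 3) ℂ) (v : Fin 3 → M) (f : R3) :
    aeval v (Pool.Agent.W510.Cvx.sub S f) =
      aeval ![algebraMap ℂ M (S 0 0) * v 0 + algebraMap ℂ M (S 0 1) * v 1 +
          algebraMap ℂ M (S 0 2) * v 2,
        algebraMap ℂ M (S 1 0) * v 0 + algebraMap ℂ M (S 1 1) * v 1 +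
          algebraMap ℂ M (S 1 2) * v 2,
        algebraMap ℂ M (S 2 0) * v 0 + algebraMap ℂ M (S 2 1) * v 1 +
          algebraMap ℂ M (S 2 2) * v 2] f := by
  have h : ((aeval v : R3 →ₐ[ℂ] M).comp (Pool.Agent.W510.Cvx.sub S)) =
      (aeval ![algebraMap ℂ M (S 0 0) * v 0 + algebraMap ℂ M (S 0 1) * v 1 +
          algebraMap ℂ M (S 0 2) * v 2,
        algebraMap ℂ M (S 1 0) * v 0 + algebraMap ℂ M (S 1 1) * v 1 +
          algebraMap ℂ M (S 1 2) * v 2,
        algebraMap ℂ M (S 2 0) * v 0 + algebraMap ℂ M (S 2 1) * v 1 +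
          algebraMap ℂ M (S 2 2) * v 2] : R3 →ₐ[ℂ] M) := by
    apply MvPolynomial.algHom_ext
    intro i
    rw [AlgHom.comp_apply, Pool.Agent.W417.Cvx.ACT.sub_X, Fin.sum_univ_three]
    simp only [map_add, map_mul, aeval_X, aeval_C]
    fin_cases i <;> rfl
  exact congrArg (fun φ : R3 →ₐ[ℂ] M => φ f) h

/-- The theorem in a general chart. -/
theorem general {n k m : ℕ} (hm : 1 ≤ m) {V : Fin 3 → R3} {F : R3} (hV : Cv m V)
    (hF : F.IsHomogeneous k)
    (hsq : Squarefree F) (hinv : F ∣ drv V F) (hn : n = k + m)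
    (hcrd : Crd D₁ D₂ p q) {a b : Fin n → M}
    (hweb : ∀ s t : M, aeval ![s, p * s - q * t, t] F *
      (aeval ![s, p * s - q * t, t] (V 1) - p * aeval ![s, p * s - q * t, t] (V 0) +
        q * aeval ![s, p * s - q * t, t] (V 2)) = ∏ i, (a i * s + b i * t)) :
    (∀ i j, i ≠ j → wedge (b i, a i) (b j, a j) ≠ 0) ∧
    (∀ i j l, i ≠ j → j ≠ l → i ≠ l →
      ∃ η, IsBlaschke D₁ D₂ (b i, a i) (b j, a j) (b l, a l) η) ∧
    (∀ η : Fin n → Fin n → Fin n → M × M,
      (∀ i j l, i < j → j < l →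
        IsBlaschke D₁ D₂ (b i, a i) (b j, a j) (b l, a l) (η i j l)) →
      ∑ i, ∑ j ∈ Ioi i, ∑ l ∈ Ioi j, dd D₁ D₂ (η i j l) = 0) := by
  obtain ⟨m, rfl⟩ : ∃ m', m = m' + 1 := ⟨m - 1, by omega⟩
  obtain ⟨α, hα⟩ := exists_IL hV
  obtain ⟨S, N, hSN, hα0, hα1⟩ := exists_mat hα.1
  obtain ⟨r, P', Q', hact, hCv, -⟩ := Pool.Agent.W510.Cvx.norm2 Pool.Agent.W417.Cvx.ACT.main
    Pool.Agent.W417.Cvx.ACT.main2 Pool.Agent.W417.Cvx.ACT.main3 (by omega) hV hSN hα hα0 hα1
  set F' := Pool.Agent.W510.Cvx.sub S F with hF'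
  -- the curve in the new chart
  have hF'h : F'.IsHomogeneous k := by
    have h1 : F'.IsHomogeneous (1 * k) := by
      apply hF.aeval
      intro i
      apply IsHomogeneous.sum
      intro l _
      simpa using (isHomogeneous_C (Fin 3) (S i l)).mul (isHomogeneous_X ℂ l)
    rwa [one_mul] at h1
  have hF'sq : Squarefree F' := by
    intro g hg
    have h1 : Pool.Agent.W510.Cvx.sub N g * Pool.Agent.W510.Cvx.sub N g ∣ F := by
      obtain ⟨w, hw⟩ := hg
      refine ⟨Pool.Agent.W510.Cvx.sub N w, ?_⟩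
      rw [← map_mul, ← map_mul, ← hw, hF', Pool.Agent.W417.Cvx.ACT.sub_sub N S hSN]
    have h2 := (hsq _ h1).map (Pool.Agent.W510.Cvx.sub S)
    rwa [Pool.Agent.W417.Cvx.ACT.sub_sub S N (mul_eq_one_comm.1 hSN)] at h2
  have hF'inv : F' ∣ drv ![P', Q', 0] F' := by
    have h1 : F' ∣ drv (act S N V) F' := by
      rw [hF', Pool.Agent.W417.Cvx.ACT.drv_act S N hSN]
      exact map_dvd _ hinv
    have h2 : drv ![P', Q', 0] F' = drv (act S N V) F' + r * ((k : R3) * F') := by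
      rw [← euler3 hF'h]
      simp only [drv, Fin.sum_univ_three, ← hact]
      ring
    rw [h2]
    exact dvd_add h1 (Dvd.intro_left (r * (k : R3)) (by ring))
  -- the new coordinates
  set c : Fin 3 → Fin 3 → M := fun i j => algebraMap ℂ M (S i j) with hc
  have hDc : ∀ (D : Derivation ℂ M M) i j, D (c i j) = 0 := fun D i j =>
    Derivation.map_algebraMap D _
  set ℓ : Fin 3 → M := fun j => p * c 0 j - c 1 j - q * c 2 j with hℓ
  have hD1ℓ : ∀ j, D₁ (ℓ j) = c 0 j := by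
    intro j
    simp only [hℓ, map_sub, Derivation.leibniz, hDc, hcrd.D₁p, hcrd.D₁q, smul_eq_mul]
    ring
  have hD2ℓ : ∀ j, D₂ (ℓ j) = - c 2 j := by
    intro j
    simp only [hℓ, map_sub, Derivation.leibniz, hDc, hcrd.D₂p, hcrd.D₂q, smul_eq_mul]
    ring
  have hdet : algebraMap ℂ M S.det ≠ 0 := by
    rw [Ne, map_eq_zero_iff _ (algebraMap ℂ M).injective]
    intro h0
    have := congrArg Matrix.det hSN
    rw [Matrix.det_mul, h0, zero_mul, Matrix.det_one] at this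
    exact zero_ne_one this
  have hdetc : algebraMap ℂ M S.det = c 0 0 * c 1 1 * c 2 2 - c 0 0 * c 1 2 * c 2 1 -
      c 0 1 * c 1 0 * c 2 2 + c 0 1 * c 1 2 * c 2 0 + c 0 2 * c 1 0 * c 2 1 -
      c 0 2 * c 1 1 * c 2 0 := by
    rw [Matrix.det_fin_three]
    simp only [hc, map_add, map_sub, map_mul]
  have hℓ1 : ℓ 1 ≠ 0 := by
    intro h0
    have h1 : c 0 1 = 0 := by rw [← hD1ℓ, h0, map_zero]
    have h2 : c 2 1 = 0 := by
      have := hD2ℓ 1
      rw [h0, map_zero] at this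
      exact neg_eq_zero.1 this.symm
    have h3 : c 1 1 = 0 := by
      have : ℓ 1 = p * c 0 1 - c 1 1 - q * c 2 1 := rfl
      rw [h0, h1, h2] at this
      linear_combination this
    apply hdet
    rw [hdetc, h1, h2, h3]; ring
  set P : M := - ℓ 0 / ℓ 1 with hP
  set Q : M := ℓ 2 / ℓ 1 with hQ
  have hPℓ : P * ℓ 1 = - ℓ 0 := by rw [hP]; field_simp
  have hQℓ : Q * ℓ 1 = ℓ 2 := by rw [hQ]; field_simp
  have hD1P : D₁ P = - (c 0 0 * ℓ 1 - ℓ 0 * c 0 1) / ℓ 1 ^ 2 := by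
    rw [hP, Derivation.leibniz_div, map_neg, hD1ℓ, hD1ℓ]
    simp only [smul_eq_mul]
    field_simp
    ring
  have hD2P : D₂ P = - (- c 2 0 * ℓ 1 + ℓ 0 * c 2 1) / ℓ 1 ^ 2 := by
    rw [hP, Derivation.leibniz_div, map_neg, hD2ℓ, hD2ℓ]
    simp only [smul_eq_mul]
    field_simp
    ring
  have hD1Q : D₁ Q = (c 0 2 * ℓ 1 - ℓ 2 * c 0 1) / ℓ 1 ^ 2 := by
    rw [hQ, Derivation.leibniz_div, hD1ℓ, hD1ℓ]
    simp only [smul_eq_mul]
    field_simp
  have hD2Q : D₂ Q = (- c 2 2 * ℓ 1 + ℓ 2 * c 2 1) / ℓ 1 ^ 2 := by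
    rw [hQ, Derivation.leibniz_div, hD2ℓ, hD2ℓ]
    simp only [smul_eq_mul]
    field_simp
    ring
  -- the transformed forms
  set ta : M → M → M := fun x y => x * (c 0 0 + c 0 1 * P) + y * (c 2 0 + c 2 1 * P) with hta
  set tb : M → M → M := fun x y => x * (c 0 2 - c 0 1 * Q) + y * (c 2 2 - c 2 1 * Q) with htb
  set c0 : M := algebraMap ℂ M S.det / ℓ 1 ^ 2 with hc0
  have hc00 : c0 ≠ 0 := div_ne_zero hdet (pow_ne_zero 2 hℓ1)
  have hpull : ∀ x y : M, pull D₁ D₂ P Q (tb x y, ta x y) = c0 • (y, x) := by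
    intro x y
    have e0 : ℓ 0 = p * c 0 0 - c 1 0 - q * c 2 0 := rfl
    have e1 : ℓ 1 = p * c 0 1 - c 1 1 - q * c 2 1 := rfl
    have e2 : ℓ 2 = p * c 0 2 - c 1 2 - q * c 2 2 := rfl
    have h3 : ℓ 1 * (c 0 0 * c 2 2 - c 0 2 * c 2 0) - ℓ 0 * (c 0 1 * c 2 2 - c 0 2 * c 2 1) +
        ℓ 2 * (c 0 1 * c 2 0 - c 0 0 * c 2 1) = - algebraMap ℂ M S.det := by
      rw [hdetc, e0, e1, e2]; ring
    refine Prod.ext ?_ ?_
    · simp only [pull, Prod.smul_fst, smul_eq_mul, hta, htb, hc0]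
      rw [hD1P, hD1Q, hP, hQ]
      field_simp
      linear_combination (-(y * ℓ 1)) * h3
    · simp only [pull, Prod.smul_snd, smul_eq_mul, hta, htb, hc0]
      rw [hD2P, hD2Q, hP, hQ]
      field_simp
      linear_combination (-(x * ℓ 1)) * h3
  have hJ : Jac D₁ D₂ P Q ≠ 0 := by
    intro h0
    have h1 := wedge_pull (D₁ := D₁) (D₂ := D₂) (P := P) (Q := Q) (tb 0 1, ta 0 1) (tb 1 0, ta 1 0)
    rw [h0, zero_mul, hpull, hpull, wedge_smul_left, wedge_smul_right] at h1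
    have h2 : wedge ((1 : M), (0 : M)) ((0 : M), (1 : M)) = 1 := by simp [wedge]
    rw [h2, mul_one] at h1
    exact mul_ne_zero hc00 hc00 h1
  have hcrd' : Crd (E₁ D₁ D₂ P Q) (E₂ D₁ D₂ P Q) P Q :=
    ⟨E_comm hcrd.comm hJ, E₁P hJ, E₁Q, E₂P, E₂Q hJ⟩
  -- the web in the new chart
  have hweb' : ∀ s t : M, aeval ![s, P * s - Q * t, t] F' *
      (aeval ![s, P * s - Q * t, t] Q' - P * aeval ![s, P * s - Q * t, t] P') =
      (-(ℓ 1)⁻¹) * ∏ i, (ta (a i) (b i) * s + tb (a i) (b i) * t) := by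
    intro s t
    set v : Fin 3 → M := ![s, P * s - Q * t, t] with hv
    set s' := c 0 0 * s + c 0 1 * (P * s - Q * t) + c 0 2 * t with hs'
    set t' := c 2 0 * s + c 2 1 * (P * s - Q * t) + c 2 2 * t with ht'
    have hy' : c 1 0 * s + c 1 1 * (P * s - Q * t) + c 1 2 * t = p * s' - q * t' := by
      have e0 : ℓ 0 = p * c 0 0 - c 1 0 - q * c 2 0 := rfl
      have e1 : ℓ 1 = p * c 0 1 - c 1 1 - q * c 2 1 := rfl
      have e2 : ℓ 2 = p * c 0 2 - c 1 2 - q * c 2 2 := rfl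
      rw [hs', ht']
      linear_combination s * e0 + (P * s - Q * t) * e1 + t * e2 - s * hPℓ + t * hQℓ
    have hsub : ∀ f : R3, aeval v (Pool.Agent.W510.Cvx.sub S f) =
        aeval ![s', p * s' - q * t', t'] f := by
      intro f
      rw [aeval_sub, ← hy']
      rfl
    have h1 := hweb s' t'
    have h2 : ∀ i, aeval v ((![P', Q', 0] : Fin 3 → R3) i) =
        aeval v (act S N V i) + aeval v r * v i := by
      intro i
      rw [← hact i, map_add, map_mul, aeval_X]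
    have hP2 : aeval v P' = aeval v (act S N V 0) + aeval v r * s := h2 0
    have hQ2 : aeval v Q' = aeval v (act S N V 1) + aeval v r * (P * s - Q * t) := h2 1
    have h02 : 0 = aeval v (act S N V 2) + aeval v r * t := by
      have := h2 2
      have e : (![P', Q', 0] : Fin 3 → R3) 2 = 0 := rfl
      rw [e, map_zero] at this
      exact this
    have h3 : ∀ i, aeval v (Pool.Agent.W510.Cvx.sub S (V i)) =
        c i 0 * aeval v (act S N V 0) + c i 1 * aeval v (act S N V 1) +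
          c i 2 * aeval v (act S N V 2) := by
      intro i
      rw [Pool.Agent.W417.Cvx.ACT.sub_V S N hSN V i, Fin.sum_univ_three]
      simp only [map_add, map_mul, aeval_C, hc]
    have h4 : ℓ 1 * (aeval v Q' - P * aeval v P') =
        -(aeval ![s', p * s' - q * t', t'] (V 1) - p * aeval ![s', p * s' - q * t', t'] (V 0) +
        q * aeval ![s', p * s' - q * t', t'] (V 2)) := by
      rw [← hsub, ← hsub, ← hsub, h3, h3, h3, hP2, hQ2]
      have e0 : ℓ 0 = p * c 0 0 - c 1 0 - q * c 2 0 := rfl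
      have e1 : ℓ 1 = p * c 0 1 - c 1 1 - q * c 2 1 := rfl
      have e2 : ℓ 2 = p * c 0 2 - c 1 2 - q * c 2 2 := rfl
      linear_combination (-(aeval v (act S N V 0))) * hPℓ - aeval v r * t * hQℓ +
        aeval v (act S N V 0) * e0 + aeval v (act S N V 1) * e1 + aeval v (act S N V 2) * e2 +
        ℓ 2 * h02
    have h5 : ∏ i, (ta (a i) (b i) * s + tb (a i) (b i) * t) = ∏ i, (a i * s' + b i * t') := by
      refine prod_congr rfl (fun i _ => ?_)
      simp only [hta, htb, hs', ht']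
      ring
    rw [h5, ← h1, hF', hsub]
    have h6 : aeval v Q' - P * aeval v P' = -(ℓ 1)⁻¹ *
        (aeval ![s', p * s' - q * t', t'] (V 1) - p * aeval ![s', p * s' - q * t', t'] (V 0) +
        q * aeval ![s', p * s' - q * t', t'] (V 2)) := by
      field_simp
      linear_combination h4
    rw [h6]; ring
  have hspec := special hCv hF'h hF'sq hF'inv hn hcrd' (neg_ne_zero.2 (inv_ne_zero hℓ1)) hweb'
  obtain ⟨hw, hex, hall⟩ := hspec
  have hω : ∀ i, (b i, a i) = c0⁻¹ • pull D₁ D₂ P Q (tb (a i) (b i), ta (a i) (b i)) := by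
    intro i
    rw [hpull, smul_smul, inv_mul_cancel₀ hc00, one_smul]
  have hBl : ∀ i j l η', IsBlaschke D₁ D₂ (b i, a i) (b j, a j) (b l, a l)
      (pull D₁ D₂ P Q η') ↔ IsBlaschke (E₁ D₁ D₂ P Q) (E₂ D₁ D₂ P Q)
        (tb (a i) (b i), ta (a i) (b i)) (tb (a j) (b j), ta (a j) (b j))
        (tb (a l) (b l), ta (a l) (b l)) η' := by
    intro i j l η'
    rw [← isBlaschke_pull hcrd.comm hJ]
    constructor
    · intro h
      rw [hpull, hpull, hpull]
      exact h.smul hc00 hc00 hc00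
    · intro h
      rw [hω i, hω j, hω l]
      exact h.smul (inv_ne_zero hc00) (inv_ne_zero hc00) (inv_ne_zero hc00)
  refine ⟨?_, ?_, ?_⟩
  · intro i j hij
    rw [hω i, hω j, wedge_smul_left, wedge_smul_right, wedge_pull]
    exact mul_ne_zero (inv_ne_zero hc00) (mul_ne_zero (inv_ne_zero hc00)
      (mul_ne_zero hJ (hw i j hij)))
  · intro i j l hij hjl hil
    obtain ⟨η', hη'⟩ := hex i j l hij hjl hil
    exact ⟨_, (hBl i j l η').2 hη'⟩
  · intro η hη
    choose η' hη' using fun i j l => pull_surj (D₁ := D₁) (D₂ := D₂) hJ (η i j l)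
    have h1 := hall η' (by
      intro i j l hij hjl
      rw [← hBl, hη']
      exact hη i j l hij hjl)
    have h2 : ∀ i j l, dd D₁ D₂ (η i j l) =
        Jac D₁ D₂ P Q * dd (E₁ D₁ D₂ P Q) (E₂ D₁ D₂ P Q) (η' i j l) := by
      intro i j l
      rw [← hη', dd_pull hcrd.comm hJ]
    simp only [h2, ← mul_sum, h1, mul_zero]

end Pool.Agent.W638.CW
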