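import Pool.Agent.W638.CW.Clo

/-! Local identities at a branch of the dual web of the foliation (problem MP_5bde83_ag). -/

set_option autoImplicit false
set_option linter.unusedSectionVars false
set_option linter.unusedSimpArgs false

open MvPolynomial
open Pool.Agent.W510.Cvx (R3)

namespace Pool.Agent.W638.CW

variable {M : Type*} [Field M] [Algebra ℂ M]

/-- second derivative of the restriction -/
noncomputable def e2 (p q x : M) (W : R3) : M := e1 p q x (pderiv 0 W) + p * e1 p q x (pderiv 1 W)

/-- third derivative of the restriction -/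
noncomputable def e3 (p q x : M) (W : R3) : M := e2 p q x (pderiv 0 W) + p * e2 p q x (pderiv 1 W)

lemma e1_add (p q x : M) (f g : R3) : e1 p q x (f + g) = e1 p q x f + e1 p q x g := by
  simp only [e1, map_add]; ring

lemma eval_deriv2 (p q x : M) (f : R3) :
    (Polynomial.derivative (Polynomial.derivative (ev p q f))).eval x = e2 p q x f := by
  rw [ev_deriv, Polynomial.derivative_add, Polynomial.derivative_C_mul, Polynomial.eval_add,
    Polynomial.eval_mul, Polynomial.eval_C, eval_deriv, eval_deriv, e2]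

lemma eval_deriv3 (p q x : M) (f : R3) :
    (Polynomial.derivative (Polynomial.derivative (Polynomial.derivative (ev p q f)))).eval x =
      e3 p q x f := by
  rw [ev_deriv, Polynomial.derivative_add, Polynomial.derivative_C_mul, Polynomial.derivative_add,
    Polynomial.derivative_C_mul, Polynomial.eval_add,
    Polynomial.eval_mul, Polynomial.eval_C, eval_deriv2, eval_deriv2, e3]

variable {D₁ D₂ : Derivation ℂ M M} {p q : M}

lemma pd_comm (f : R3) : pderiv 0 (pderiv 1 f) = pderiv 1 (pderiv 0 f) := by
  have h : ∀ g : R3, (⁅(pderiv 0 : Derivation ℂ R3 R3), (pderiv 1 : Derivation ℂ R3 R3)⁆) g = 0 := by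
    intro g
    have : (⁅(pderiv 0 : Derivation ℂ R3 R3), (pderiv 1 : Derivation ℂ R3 R3)⁆) = 0 := by
      apply MvPolynomial.derivation_ext
      intro i
      rw [Derivation.commutator_apply]
      fin_cases i <;> simp [pderiv_X, Pi.single_apply]
    rw [this]; rfl
  have := h f
  rw [Derivation.commutator_apply] at this
  exact sub_eq_zero.1 this

lemma Dx_e1 (h : Crd D₁ D₂ p q) (x : M) (f : R3) :
    Dx D₁ D₂ x (e1 p q x f) = Dx D₁ D₂ x x * e2 p q x f + e p q x (pderiv 1 f) := by
  rw [e1, map_add, Derivation.leibniz, Dx_e h, Dx_e h, Dx_p h, e2]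
  simp only [smul_eq_mul]; ring

lemma Dx_e2 (h : Crd D₁ D₂ p q) (x : M) (f : R3) :
    Dx D₁ D₂ x (e2 p q x f) = Dx D₁ D₂ x x * e3 p q x f + 2 * e1 p q x (pderiv 1 f) := by
  rw [e2, map_add, Derivation.leibniz, Dx_e1 h, Dx_e1 h, Dx_p h, e3, ← pd_comm]
  simp only [smul_eq_mul, e1]; ring

/-- The derivative along the field `v = B ∂x - A ∂y`. -/
noncomputable def vf (A B : R3) (f : R3) : R3 := B * pderiv 0 f - A * pderiv 1 f

lemma vf_mul (A B f g : R3) : vf A B (f * g) = f * vf A B g + g * vf A B f := by
  simp only [vf, Derivation.leibniz, smul_eq_mul]; ring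

/-- The data at a branch of the dual web of the foliation. -/
structure Br (D₁ D₂ : Derivation ℂ M M) (p q : M) (A B E κN : R3) (x : M) : Prop where
  crd : Crd D₁ D₂ p q
  root : e p q x A + p * e p q x B = 0
  ne : e p q x B ≠ 0
  hE : E = κN + pderiv 1 A - pderiv 0 B
  hN : vf A B (A * vf A B B - B * vf A B A) = κN * (A * vf A B B - B * vf A B A)

section

variable {A B E κN : R3} {x : M}

/-- first derivative of the web polynomial -/
noncomputable def G1 (p q x : M) (A B : R3) : M := e1 p q x A + p * e1 p q x B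
/-- second derivative of the web polynomial -/
noncomputable def G2 (p q x : M) (A B : R3) : M := e2 p q x A + p * e2 p q x B
/-- third derivative of the web polynomial -/
noncomputable def G3 (p q x : M) (A B : R3) : M := e3 p q x A + p * e3 p q x B
/-- derivative of the web polynomial with respect to `y` -/
noncomputable def gy (p q x : M) (A B : R3) : M := e p q x (pderiv 1 A) + p * e p q x (pderiv 1 B)
/-- mixed derivative of the web polynomial -/
noncomputable def gy1 (p q x : M) (A B : R3) : M :=
  e1 p q x (pderiv 1 A) + p * e1 p q x (pderiv 1 B)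

lemma Br.h1 (h : Br D₁ D₂ p q A B E κN x) : Dx D₁ D₂ x x * G1 p q x A B = - e p q x B := by
  have h1 := congrArg (Dx D₁ D₂ x) h.root
  rw [map_zero, map_add, Derivation.leibniz, Dx_e h.crd, Dx_e h.crd, Dx_p h.crd] at h1
  simp only [smul_eq_mul] at h1
  rw [G1]; linear_combination h1

lemma Br.G1_ne (h : Br D₁ D₂ p q A B E κN x) : G1 p q x A B ≠ 0 := by
  intro h0
  have := h.h1
  rw [h0, mul_zero] at this
  exact h.ne (neg_eq_zero.1 this.symm)

lemma Br.hx_ne (h : Br D₁ D₂ p q A B E κN x) : Dx D₁ D₂ x x ≠ 0 := by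
  intro h0
  have := h.h1
  rw [h0, zero_mul] at this
  exact h.ne (neg_eq_zero.1 this.symm)

lemma Br.hq (h : Br D₁ D₂ p q A B E κN x) : D₂ x * G1 p q x A B = gy p q x A B := by
  have h1 := congrArg D₂ h.root
  rw [map_zero, map_add, Derivation.leibniz, D₂_e h.crd, D₂_e h.crd, h.crd.D₂p] at h1
  simp only [smul_eq_mul] at h1
  rw [G1, gy]; linear_combination h1

/-- `B g'' = E g'` -/
lemma Br.h2 (h : Br D₁ D₂ p q A B E κN x) :
    e p q x B * G2 p q x A B = e p q x E * G1 p q x A B := by
  have h1 := congrArg (e p q x) h.hN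
  have h0 := h.root
  have hA : e p q x A = - p * e p q x B := by linear_combination h0
  have h2 : e p q x B ^ 2 * (e p q x B * G2 p q x A B - e p q x E * G1 p q x A B) = 0 := by
    rw [h.hE]
    simp only [vf, map_mul, map_sub, map_add, Derivation.leibniz, smul_eq_mul, hA, G1, G2, e1,
      e2, pd_comm] at h1 ⊢
    linear_combination -h1
  have h3 := (mul_eq_zero.1 h2).resolve_left (pow_ne_zero 2 h.ne)
  linear_combination h3

/-- the third derivative -/
lemma Br.h3 (h : Br D₁ D₂ p q A B E κN x) :
    e p q x B * e p q x B * G3 p q x A B = G1 p q x A B *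
      (e p q x E * (e p q x κN - 3 * e1 p q x B) +
        e p q x B * (e1 p q x E + 2 * gy1 p q x A B + e2 p q x B)) := by
  have h1 := congrArg (Dx D₁ D₂ x) h.h2
  have hG1 : Dx D₁ D₂ x (G1 p q x A B) = Dx D₁ D₂ x x * G2 p q x A B + gy p q x A B +
      e1 p q x B := by
    rw [G1, map_add, Derivation.leibniz, Dx_e1 h.crd, Dx_e1 h.crd, Dx_p h.crd, G2, gy]
    simp only [smul_eq_mul]; ring
  have hG2 : Dx D₁ D₂ x (G2 p q x A B) = Dx D₁ D₂ x x * G3 p q x A B + 2 * gy1 p q x A B +
      e2 p q x B := by
    rw [G2, map_add, Derivation.leibniz, Dx_e2 h.crd, Dx_e2 h.crd, Dx_p h.crd, G3, gy1]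
    simp only [smul_eq_mul]; ring
  rw [Derivation.leibniz, Derivation.leibniz, hG1, hG2, Dx_e h.crd, Dx_e h.crd] at h1
  simp only [smul_eq_mul] at h1
  have r1 := h.h1
  have r2 := h.h2
  have hE : e p q x E = e p q x κN + e p q x (pderiv 1 A) - e p q x (pderiv 0 B) := by
    rw [h.hE]; simp only [map_add, map_sub]
  have hgy : gy p q x A B = e p q x E - e p q x κN + e1 p q x B := by
    rw [hE, gy, e1]; ring
  have hx := h.hx_ne
  have hG := h.G1_ne
  have hB := h.ne
  have e2' : G2 p q x A B = e p q x E * G1 p q x A B / e p q x B := by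
    rw [eq_div_iff hB]; linear_combination r2
  have ex : Dx D₁ D₂ x x = - e p q x B / G1 p q x A B := by
    rw [eq_div_iff hG]; exact r1
  rw [e2', ex, hgy] at h1
  field_simp at h1
  linear_combination -h1

end

end Pool.Agent.W638.CW
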