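import Pool.Agent.W638.CW.Alg
import Pool.Agent.W510.Cvx.Trans

/-! Polynomial identities in the chart whose line at infinity is invariant
(problem MP_5bde83_ag). -/

set_option autoImplicit false
set_option linter.unusedSectionVars false
set_option linter.unusedSimpArgs false

open MvPolynomial
open Pool.Agent.W510.Cvx (R3 drv infl lin Cv lin_eq lin_hom lin_irr lin_ne)

namespace Pool.Agent.W638.CW

lemma vf_neg (A B f : R3) : vf A B (-f) = - vf A B f := by
  simp only [vf, map_neg]; ring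

lemma vf_C (A B : R3) (c : ℂ) : vf A B (C c) = 0 := by simp [vf]

lemma vf_X2 (A B : R3) : vf A B (X 2) = 0 := by simp [vf, pderiv_X]

/-- the affine inflection polynomial -/
noncomputable def NN (A B : R3) : R3 := A * vf A B B - B * vf A B A

lemma drv_vf (P Q f : R3) : drv ![P, Q, 0] f = - vf Q (-P) f := by
  simp only [drv, Fin.sum_univ_three, vf, Matrix.cons_val_zero, Matrix.cons_val_one,
    Matrix.cons_val]
  ring

lemma infl_NN (P Q : R3) : infl ![P, Q, 0] = - (X 2 * NN Q (-P)) := by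
  rw [Pool.Agent.W510.Cvx.infl_eq, drv_vf, drv_vf, drv_vf, NN, vf_neg]
  simp only [Matrix.cons_val_zero, Matrix.cons_val_one, Matrix.cons_val]
  rw [show vf Q (-P) (0 : R3) = 0 by simp [vf]]
  ring

lemma vf_hom {A B f : R3} {m n : ℕ} (hA : A.IsHomogeneous (m + 1)) (hB : B.IsHomogeneous (m + 1))
    (hf : f.IsHomogeneous n) : (vf A B f).IsHomogeneous (n + m) := by
  cases n with
  | zero =>
    have hc := totalDegree_eq_zero_iff_eq_C.1 (Nat.le_zero.1 hf.totalDegree_le)
    rw [hc, vf_C]; exact isHomogeneous_zero _ _ _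
  | succ n =>
    have h1 := hB.mul (hf.pderiv (i := (0 : Fin 3)))
    have h2 := hA.mul (hf.pderiv (i := (1 : Fin 3)))
    have h3 := h1.sub h2
    have e : m + 1 + (n + 1 - 1) = n + 1 + m := by omega
    rw [e] at h3
    exact h3

/-- a cofactor which is homogeneous -/
lemma exists_cofactor {A B f : R3} {m n : ℕ} (hA : A.IsHomogeneous (m + 1))
    (hB : B.IsHomogeneous (m + 1)) (hf : f.IsHomogeneous n) (hf0 : f ≠ 0) (h : f ∣ vf A B f) :
    ∃ κ : R3, κ.IsHomogeneous m ∧ vf A B f = κ * f := by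
  obtain ⟨κ, hκ⟩ := h
  refine ⟨κ, hom_quot hf hf0 (m := m) ?_, by rw [hκ, mul_comm]⟩
  rw [← hκ]; exact vf_hom hA hB hf

/-- factorisation of a product of invariant lines -/
lemma exists_lines {A B : R3} {m : ℕ} (hA : A.IsHomogeneous (m + 1))
    (hB : B.IsHomogeneous (m + 1)) {N : R3} (hN0 : N ≠ 0)
    (h : ∀ P : R3, Irreducible P → P ∣ N → ∃ a : Fin 3 → ℂ, Associated P (lin a) ∧
      lin a ∣ vf A B (lin a)) :
    ∃ L : List ((Fin 3 → ℂ) × R3), ∃ c : ℂ, c ≠ 0 ∧
      N = C c * (L.map (fun l => lin l.1)).prod ∧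
      ∀ l ∈ L, l.1 ≠ 0 ∧ vf A B (lin l.1) = l.2 * lin l.1 ∧ l.2.IsHomogeneous m := by
  revert hN0 h
  refine WfDvdMonoid.induction_on_irreducible N ?_ ?_ ?_
  · intro h; exact absurd rfl h
  · intro u hu _ _
    obtain ⟨c, hc⟩ : ∃ c : ℂ, u = C c := by
      have h1 := (MvPolynomial.isUnit_iff_eq_C_of_isReduced (P := u)).1 hu
      obtain ⟨c, -, hc⟩ := h1
      exact ⟨c, hc⟩
    refine ⟨[], c, ?_, by simpa using hc, by simp⟩
    rintro rfl
    rw [C_0] at hc
    exact hu.ne_zero hc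
  · intro a i ha hi ih _ h
    obtain ⟨L, c, hc, hL, hL2⟩ := ih ha (fun P hP hPa => h P hP (hPa.trans (Dvd.intro_left _ rfl)))
    obtain ⟨b, hb, hb2⟩ := h i hi (Dvd.intro _ rfl)
    have hb0 : b ≠ 0 := by
      rintro rfl
      have : lin 0 = 0 := by simp [lin]
      rw [this] at hb
      exact hi.ne_zero ((associated_zero_iff_eq_zero _).1 hb)
    obtain ⟨u, hu⟩ := hb
    obtain ⟨d, hd, hd2⟩ := (MvPolynomial.isUnit_iff_eq_C_of_isReduced (P := (u : R3))).1 u.isUnit
    have hd0 := hd.ne_zero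
    obtain ⟨κ, hκh, hκ⟩ := exists_cofactor hA hB (lin_hom b) (lin_ne hb0) hb2
    refine ⟨(b, κ) :: L, d⁻¹ * c, mul_ne_zero (inv_ne_zero hd0) hc, ?_, ?_⟩
    · rw [List.map_cons, List.prod_cons, ← hu, hd2]
      have : (C d⁻¹ : R3) * C d = 1 := by rw [← C_mul, inv_mul_cancel₀ hd0, C_1]
      rw [C_mul]
      linear_combination i * hL - i * C c * (List.map (fun l => lin l.1) L).prod * this
    · intro l hl
      rcases List.mem_cons.1 hl with rfl | hl
      · exact ⟨hb0, hκ, hκh⟩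
      · exact hL2 l hl

/-- the cofactor of a product -/
lemma lines_cofactor {A B : R3} {m : ℕ} (L : List ((Fin 3 → ℂ) × R3)) (c : ℂ)
    (h : ∀ l ∈ L, l.1 ≠ 0 ∧ vf A B (lin l.1) = l.2 * lin l.1 ∧ l.2.IsHomogeneous m) :
    vf A B (C c * (L.map (fun l => lin l.1)).prod) =
      (L.map (fun l => l.2)).sum * (C c * (L.map (fun l => lin l.1)).prod) ∧
    IsHomogeneous (L.map (fun l => l.2)).sum m := by
  induction L with
  | nil =>
    simp only [List.map_nil, List.prod_nil, mul_one, List.sum_nil, zero_mul]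
    exact ⟨vf_C A B c, isHomogeneous_zero _ _ _⟩
  | cons a L ih =>
    obtain ⟨h1, h2⟩ := ih (fun l hl => h l (List.mem_cons_of_mem a hl))
    obtain ⟨-, h3, h4⟩ := h a List.mem_cons_self
    simp only [List.map_cons, List.prod_cons, List.sum_cons]
    refine ⟨?_, h4.add h2⟩
    have : C c * (lin a.1 * (List.map (fun l => lin l.1) L).prod) =
        lin a.1 * (C c * (List.map (fun l => lin l.1) L).prod) := by ring
    rw [this, vf_mul, h1, h3]
    ring

/-- the quotient `M` -/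
lemma exists_Mq {A B κN : R3} {m : ℕ} (hA : A.IsHomogeneous (m + 1))
    (hB : B.IsHomogeneous (m + 1)) (hκ : κN.IsHomogeneous m) (hcop : IsRelPrime A B)
    (hN0 : NN A B ≠ 0) (hN : vf A B (NN A B) = κN * NN A B) :
    ∃ Mq : R3, (κN + pderiv 1 A - pderiv 0 B) * pderiv 1 B + A * pderiv 1 (pderiv 1 B) = B * Mq ∧
      (m = 0 → Mq = 0) ∧ (∀ n, m = n + 1 → Mq.IsHomogeneous n) := by
  have hA0 : A ≠ 0 := by
    rintro rfl; apply hN0; simp [NN, vf]
  have hB0 : B ≠ 0 := by
    rintro rfl; apply hN0; simp [NN, vf]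
  have h1 : A * (vf A B (vf A B B) - κN * vf A B B) = B * (vf A B (vf A B A) - κN * vf A B A) := by
    have h2 : vf A B (NN A B) = A * vf A B (vf A B B) - B * vf A B (vf A B A) := by
      have : vf A B (NN A B) = vf A B (A * vf A B B) - vf A B (B * vf A B A) := by
        simp only [NN, vf, map_sub]; ring
      rw [this, vf_mul, vf_mul]; ring
    rw [h2, NN] at hN
    linear_combination hN
  have h2 : B ∣ A * ((κN + pderiv 1 A - pderiv 0 B) * pderiv 1 B + A * pderiv 1 (pderiv 1 B)) := by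
    -- `B` divides `vf (vf B) - κN vf B`
    have h3 : B ∣ vf A B (vf A B B) - κN * vf A B B :=
      (hcop.symm.dvd_of_dvd_mul_left (Dvd.intro _ h1.symm))
    obtain ⟨S, hS⟩ := h3
    refine ⟨S - (pderiv 0 B * pderiv 0 B + vf A B (pderiv 0 B) - pderiv 0 A * pderiv 1 B -
      A * pderiv 0 (pderiv 1 B) - κN * pderiv 0 B), ?_⟩
    rw [mul_sub, ← hS]
    simp only [vf, map_sub, Derivation.leibniz, smul_eq_mul, pd_comm]
    ring
  have h3 : B ∣ (κN + pderiv 1 A - pderiv 0 B) * pderiv 1 B + A * pderiv 1 (pderiv 1 B) :=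
    hcop.symm.dvd_of_dvd_mul_left h2
  obtain ⟨Mq, hMq⟩ := h3
  have hBy : (pderiv 1 B : R3).IsHomogeneous m := hB.pderiv (i := 1)
  have hE : (κN + pderiv 1 A - pderiv 0 B).IsHomogeneous m :=
    (hκ.add (hA.pderiv (i := 1))).sub (hB.pderiv (i := 0))
  refine ⟨Mq, hMq, ?_, ?_⟩
  · rintro rfl
    have hBc := totalDegree_eq_zero_iff_eq_C.1 (Nat.le_zero.1 hBy.totalDegree_le)
    have hEc := totalDegree_eq_zero_iff_eq_C.1 (Nat.le_zero.1 hE.totalDegree_le)
    by_contra h0
    have h4 : (B * Mq).totalDegree = 0 := by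
      rw [← hMq, hBc, hEc, pderiv_C, mul_zero, add_zero, ← C_mul, totalDegree_C]
    rw [totalDegree_mul_of_isDomain hB0 h0, hB.totalDegree hB0] at h4
    omega
  · rintro n rfl
    refine hom_quot hB hB0 (m := n) ?_
    rw [← hMq]
    have h5 := hE.mul hBy
    have h6 := hA.mul (hBy.pderiv (i := 1))
    have e1 : n + 1 + (n + 1) = n + 1 + 1 + n := by omega
    have e2 : n + 1 + 1 + (n + 1 - 1) = n + 1 + 1 + n := by omega
    rw [e1] at h5
    rw [e2] at h6
    exact h5.add h6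

end Pool.Agent.W638.CW
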