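import Pool.Agent.W638.CW.Web

/-! Lagrange sums and sums of residues (problem MP_5bde83_ag). -/

set_option autoImplicit false
set_option linter.unusedSectionVars false
set_option linter.unusedSimpArgs false

open Polynomial Finset

namespace Pool.Agent.W638.CW

variable {M : Type*} [Field M] {ι : Type*} [DecidableEq ι]

lemma nodal_deriv_ne {s : Finset ι} {v : ι → M} (hv : Set.InjOn v s) {c : M} (hc : c ≠ 0)
    {P : M[X]} (hP : P = C c * Lagrange.nodal s v) {i : ι} (hi : i ∈ s) :
    (derivative P).eval (v i) = c * ∏ j ∈ s.erase i, (v i - v j) ∧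
    (derivative P).eval (v i) ≠ 0 := by
  have h1 : (derivative P).eval (v i) = c * ∏ j ∈ s.erase i, (v i - v j) := by
    rw [hP, derivative_C_mul, eval_mul, eval_C, Lagrange.eval_nodal_derivative_eval_node_eq hi,
      Lagrange.eval_nodal]
  refine ⟨h1, ?_⟩
  rw [h1]
  refine mul_ne_zero hc (prod_ne_zero_iff.2 (fun j hj => ?_))
  rw [mem_erase] at hj
  exact sub_ne_zero.2 (fun h => hj.1 (hv hj.2 hi h.symm))

/-- Lagrange sums -/
lemma lag_sum {s : Finset ι} {v : ι → M} (hv : Set.InjOn v s) {c : M} (hc : c ≠ 0)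
    {P U : M[X]} (hP : P = C c * Lagrange.nodal s v) (hU : U.degree < s.card) :
    ∑ i ∈ s, U.eval (v i) / (derivative P).eval (v i) = U.coeff (s.card - 1) / c := by
  rw [Lagrange.coeff_eq_sum hv hU, sum_div]
  refine sum_congr rfl (fun i hi => ?_)
  rw [(nodal_deriv_ne hv hc hP hi).1]
  rw [mul_comm c, div_mul_eq_div_div]

lemma lag_zero {s : Finset ι} {v : ι → M} (hv : Set.InjOn v s) {c : M} (hc : c ≠ 0)
    {P U : M[X]} (hP : P = C c * Lagrange.nodal s v) {n : ℕ} (hn : s.card = n + 1)
    (hU : U.degree < n) :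
    ∑ i ∈ s, U.eval (v i) / (derivative P).eval (v i) = 0 := by
  rw [lag_sum hv hc hP (hU.trans_le (by rw [hn]; exact_mod_cast Nat.le_succ n)), hn,
    Nat.add_sub_cancel, coeff_eq_zero_of_degree_lt hU, zero_div]

/-- Sum of the residues of `U / P ^ 2`. -/
lemma double_sum {s : Finset ι} {v : ι → M} (hv : Set.InjOn v s) {c : M} (hc : c ≠ 0)
    {P U : M[X]} (hP : P = C c * Lagrange.nodal s v) {n : ℕ} (hn : s.card = n + 1)
    (hU : U.natDegree ≤ 2 * n) :
    ∑ i ∈ s, ((derivative U).eval (v i) / (derivative P).eval (v i) ^ 2 -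
      U.eval (v i) * (derivative (derivative P)).eval (v i) / (derivative P).eval (v i) ^ 3) = 0 := by
  have hP0 : P ≠ 0 := by
    rw [hP]; exact mul_ne_zero (by simpa using hc) Lagrange.nodal_ne_zero
  have hPd : P.natDegree = n + 1 := by
    rw [hP, natDegree_C_mul hc, Lagrange.natDegree_nodal, hn]
  have hPv : ∀ i ∈ s, P.eval (v i) = 0 := by
    intro i hi
    rw [hP, eval_mul, Lagrange.eval_nodal_at_node hi, mul_zero]
  set t := Lagrange.interpolate s v (fun i => U.eval (v i) / (derivative P).eval (v i)) with ht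
  have ht1 : t.degree < (n + 1 : ℕ) := by rw [← hn]; exact Lagrange.degree_interpolate_lt _ hv
  have htn : t.natDegree ≤ n := by
    rw [natDegree_le_iff_degree_le]; exact Order.lt_succ_iff.1 (by exact_mod_cast ht1)
  have ht2 : ∀ i ∈ s, t.eval (v i) = U.eval (v i) / (derivative P).eval (v i) := by
    intro i hi; exact Lagrange.eval_interpolate_at_node _ hv hi
  have hdvd : C c * Lagrange.nodal s v ∣ U - derivative P * t := by
    have hu : IsUnit (C c : M[X]) := isUnit_C.2 (isUnit_iff_ne_zero.2 hc)
    rw [hu.mul_left_dvd, Lagrange.nodal]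
    refine Finset.prod_dvd_of_coprime ?_ ?_
    · intro i hi j hj hij
      exact isCoprime_X_sub_C_of_isUnit_sub
        (isUnit_iff_ne_zero.2 (sub_ne_zero.2 (fun h => hij (hv hi hj h))))
    · intro i hi
      rw [dvd_iff_isRoot, IsRoot.def, eval_sub, eval_mul, ht2 i hi,
        mul_div_cancel₀ _ (nodal_deriv_ne hv hc hP hi).2, sub_self]
  rw [← hP] at hdvd
  obtain ⟨r, hr⟩ := hdvd
  have hU2 : U = derivative P * t + P * r := by rw [← hr]; ring
  have hrd : r.degree < n := by
    by_cases hr0 : r = 0
    · rw [hr0, degree_zero]; exact WithBot.bot_lt_coe _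
    have h1 : (P * r).natDegree ≤ 2 * n := by
      rw [← hr]
      refine (natDegree_sub_le _ _).trans (max_le hU ?_)
      refine natDegree_mul_le.trans ?_
      have := natDegree_derivative_le P
      omega
    rw [natDegree_mul hP0 hr0, hPd] at h1
    rw [degree_eq_natDegree hr0]
    exact_mod_cast (by omega : r.natDegree < n)
  have htd : (derivative t).degree < n := by
    by_cases h0 : derivative t = 0
    · rw [h0, degree_zero]; exact WithBot.bot_lt_coe _
    have h1 : t.natDegree ≠ 0 := by
      intro h; apply h0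
      rw [natDegree_eq_zero] at h
      obtain ⟨a, ha⟩ := h
      rw [← ha, derivative_C]
    rw [degree_eq_natDegree h0]
    have := natDegree_derivative_lt h1
    exact_mod_cast (by omega : (derivative t).natDegree < n)
  have e1 := lag_zero hv hc hP hn hrd
  have e2 := lag_zero hv hc hP hn htd
  have e3 : ∀ i ∈ s, ((derivative U).eval (v i) / (derivative P).eval (v i) ^ 2 -
      U.eval (v i) * (derivative (derivative P)).eval (v i) / (derivative P).eval (v i) ^ 3) =
      r.eval (v i) / (derivative P).eval (v i) +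
      (derivative t).eval (v i) / (derivative P).eval (v i) := by
    intro i hi
    have h1 := (nodal_deriv_ne hv hc hP hi).2
    have h2 := hPv i hi
    rw [hU2]
    simp only [derivative_add, derivative_mul, eval_add, eval_mul, h2]
    field_simp
    ring
  rw [sum_congr rfl e3, sum_add_distrib, e1, e2, add_zero]

/-! first and second symmetric sums -/

lemma prod_deriv (s : Finset ι) (v : ι → M) (y : M) (hy : ∀ j ∈ s, y ≠ v j) :
    (derivative (Lagrange.nodal s v)).eval y =
      (Lagrange.nodal s v).eval y * ∑ j ∈ s, (y - v j)⁻¹ ∧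
    (derivative (derivative (Lagrange.nodal s v))).eval y =
      (Lagrange.nodal s v).eval y * ((∑ j ∈ s, (y - v j)⁻¹) ^ 2 - ∑ j ∈ s, ((y - v j)⁻¹) ^ 2) := by
  induction s using Finset.induction_on with
  | empty => simp [Lagrange.nodal]
  | insert a s ha ih =>
    obtain ⟨h1, h2⟩ := ih (fun j hj => hy j (mem_insert_of_mem hj))
    have h3 : y - v a ≠ 0 := sub_ne_zero.2 (hy a (mem_insert_self a s))
    rw [Lagrange.nodal_insert_eq_nodal ha, sum_insert ha, sum_insert ha]
    simp only [derivative_mul, derivative_add, derivative_sub, derivative_X, derivative_C,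
      sub_zero, one_mul, eval_add, eval_mul, eval_sub, eval_X, eval_C, h1, h2]
    constructor
    · field_simp
    · field_simp
      ring

/-- `Φ'' = 2 Φ' σ` and `Φ''' = 3 Φ' (σ ^ 2 - τ)` at a root. -/
lemma root_sums {s : Finset ι} {v : ι → M} (hv : Set.InjOn v s) {c : M}
    {P : M[X]} (hP : P = C c * Lagrange.nodal s v) {i : ι} (hi : i ∈ s) :
    (derivative (derivative P)).eval (v i) =
      2 * (derivative P).eval (v i) * ∑ j ∈ s.erase i, (v i - v j)⁻¹ ∧
    (derivative (derivative (derivative P))).eval (v i) =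
      3 * (derivative P).eval (v i) * ((∑ j ∈ s.erase i, (v i - v j)⁻¹) ^ 2 -
        ∑ j ∈ s.erase i, ((v i - v j)⁻¹) ^ 2) := by
  have h := prod_deriv (s.erase i) v (v i) (fun j hj h => by
    rw [mem_erase] at hj
    exact hj.1 (hv hj.2 hi h.symm))
  rw [hP, Lagrange.nodal_eq_mul_nodal_erase hi]
  simp only [derivative_mul, derivative_add, derivative_sub, derivative_X, derivative_C,
      sub_zero, one_mul, zero_mul, zero_add, mul_zero, add_zero, eval_add, eval_mul, eval_sub,
      eval_X, eval_C, sub_self, h.1, h.2, derivative_zero, derivative_one]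
  constructor
  · ring
  · ring

end Pool.Agent.W638.CW
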