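import Pool.Agent.W638.CW.Sym

/-! The 3-subwebs (problem MP_5bde83_ag). -/

set_option autoImplicit false
set_option linter.unusedSectionVars false
set_option linter.unusedSimpArgs false

open Finset

namespace Pool.Agent.W638.CW

variable {M : Type*} [Field M] [Algebra ℂ M] {D₁ D₂ : Derivation ℂ M M}

/-- the inverse differences of the finite slopes -/
noncomputable def uu {n : ℕ} (J : Finset (Fin n)) (x : Fin n → M) (i j : Fin n) : M :=
  if i ∈ J ∧ j ∈ J then (x i - x j)⁻¹ else 0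

/-- the normalised form of the branch `i` -/
def nu {n : ℕ} (J : Finset (Fin n)) (x : Fin n → M) (i : Fin n) : M × M :=
  if i ∈ J then (x i, -1) else (1, 0)

lemma tri_fin {n : ℕ} {J : Finset (Fin n)} {x : Fin n → M} (hc : ∀ a, D₁ (D₂ a) = D₂ (D₁ a))
    (hx : Set.InjOn x J) {i j l : Fin n} (hi : i ∈ J) (hj : j ∈ J) (hl : l ∈ J)
    (hij : i ≠ j) (hjl : j ≠ l) (hil : i ≠ l) :
    ∃ θ, dd D₁ D₂ θ = 0 ∧ IsBlaschke D₁ D₂ (nu J x i) (nu J x j) (nu J x l)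
      (θ + (psi D₁ D₂ x (uu J x) i j l + psi D₁ D₂ x (uu J x) j i l +
        psi D₁ D₂ x (uu J x) l i j)) := by
  have h1 : x i ≠ x j := fun h => hij (hx hi hj h)
  have h2 : x j ≠ x l := fun h => hjl (hx hj hl h)
  have h3 : x i ≠ x l := fun h => hil (hx hi hl h)
  have g1 : x i - x j ≠ 0 := sub_ne_zero.2 h1
  have g2 : x j - x l ≠ 0 := sub_ne_zero.2 h2
  have g3 : x i - x l ≠ 0 := sub_ne_zero.2 h3
  have g1' : x j - x i ≠ 0 := sub_ne_zero.2 h1.symm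
  have g2' : x l - x j ≠ 0 := sub_ne_zero.2 h2.symm
  have g3' : x l - x i ≠ 0 := sub_ne_zero.2 h3.symm
  refine ⟨_, dd_dlog hc (f := (x i - x j) * (x j - x l) * (x l - x i))
    (mul_ne_zero (mul_ne_zero g1 g2) g3'), ?_⟩
  have h := blaschke_fin (D₁ := D₁) (D₂ := D₂) h1 h2 h3
  rw [nu, nu, nu, if_pos hi, if_pos hj, if_pos hl]
  convert h using 2
  simp only [psi, uu, hi, hj, hl, and_self, if_true]
  refine Prod.ext ?_ ?_
  · simp only [Prod.fst_add, Prod.fst_sub, Prod.smul_fst, smul_eq_mul]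
    field_simp
    ring
  · simp only [Prod.snd_add, Prod.snd_sub, Prod.smul_snd, smul_eq_mul]
    field_simp
    ring

lemma tri_inf {n : ℕ} {J : Finset (Fin n)} {x : Fin n → M} (hc : ∀ a, D₁ (D₂ a) = D₂ (D₁ a))
    (hx : Set.InjOn x J) (hx0 : ∀ i ∉ J, x i = 0) {i j l : Fin n} (hi : i ∈ J) (hj : j ∈ J)
    (hl : l ∉ J) (hij : i ≠ j) :
    ∃ θ, dd D₁ D₂ θ = 0 ∧ IsBlaschke D₁ D₂ (nu J x i) (nu J x j) (nu J x l)
      (θ + (psi D₁ D₂ x (uu J x) i j l + psi D₁ D₂ x (uu J x) j i l +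
        psi D₁ D₂ x (uu J x) l i j)) := by
  have h1 : x i ≠ x j := fun h => hij (hx hi hj h)
  have g1 : x i - x j ≠ 0 := sub_ne_zero.2 h1
  have g1' : x j - x i ≠ 0 := sub_ne_zero.2 h1.symm
  refine ⟨_, dd_dlog hc g1, ?_⟩
  have h := blaschke_inf (D₁ := D₁) (D₂ := D₂) h1
  rw [nu, nu, nu, if_pos hi, if_pos hj, if_neg hl]
  convert h using 2
  simp only [psi, uu, hi, hj, hl, and_self, if_true, and_false, false_and, if_false, hx0 l hl]
  refine Prod.ext ?_ ?_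
  · simp only [Prod.fst_add, Prod.fst_sub, Prod.smul_fst, smul_eq_mul, map_zero]
    field_simp
    ring
  · simp only [Prod.snd_add, Prod.snd_sub, Prod.smul_snd, smul_eq_mul, map_zero]
    ring

lemma tri {n : ℕ} {J : Finset (Fin n)} {x : Fin n → M} (hc : ∀ a, D₁ (D₂ a) = D₂ (D₁ a))
    (hx : Set.InjOn x J) (hx0 : ∀ i ∉ J, x i = 0) (hJ : ∀ i ∉ J, ∀ j ∉ J, i = j) {i j l : Fin n}
    (hij : i ≠ j) (hjl : j ≠ l) (hil : i ≠ l) :
    ∃ θ, dd D₁ D₂ θ = 0 ∧ IsBlaschke D₁ D₂ (nu J x i) (nu J x j) (nu J x l)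
      (θ + (psi D₁ D₂ x (uu J x) i j l + psi D₁ D₂ x (uu J x) j i l +
        psi D₁ D₂ x (uu J x) l i j)) := by
  by_cases hi : i ∈ J
  · by_cases hj : j ∈ J
    · by_cases hl : l ∈ J
      · exact tri_fin hc hx hi hj hl hij hjl hil
      · exact tri_inf hc hx hx0 hi hj hl hij
    · have hl : l ∈ J := by
        by_contra hl; exact hjl (hJ j hj l hl)
      obtain ⟨θ, h1, h2⟩ := tri_inf (D₁ := D₁) (D₂ := D₂) hc hx hx0 hl hi hj hil.symm
      refine ⟨θ, h1, ?_⟩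
      convert h2.rot using 2
      rw [psi_symm D₁ D₂ x _ j l i, psi_symm D₁ D₂ x _ i l j]
      abel
  · have hj : j ∈ J := by
      by_contra hj; exact hij (hJ i hi j hj)
    have hl : l ∈ J := by
      by_contra hl; exact hil (hJ i hi l hl)
    obtain ⟨θ, h1, h2⟩ := tri_inf (D₁ := D₁) (D₂ := D₂) hc hx hx0 hj hl hi hjl
    refine ⟨θ, h1, ?_⟩
    convert h2.rot.rot using 2
    rw [psi_symm D₁ D₂ x _ j l i, psi_symm D₁ D₂ x _ l j i]
    abel

lemma nu_wedge {n : ℕ} {J : Finset (Fin n)} {x : Fin n → M}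
    (hx : Set.InjOn x J) (hJ : ∀ i ∉ J, ∀ j ∉ J, i = j) {i j : Fin n}
    (hij : i ≠ j) : wedge (nu J x i) (nu J x j) ≠ 0 := by
  by_cases hi : i ∈ J
  · by_cases hj : j ∈ J
    · have h1 : x i ≠ x j := fun h => hij (hx hi hj h)
      rw [nu, nu, if_pos hi, if_pos hj]
      simp only [wedge]
      intro h
      apply h1
      linear_combination -h
    · rw [nu, nu, if_pos hi, if_neg hj]
      simp [wedge]
  · by_cases hj : j ∈ J
    · rw [nu, nu, if_neg hi, if_pos hj]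
      simp [wedge]
    · exact absurd (hJ i hi j hj) hij

/-- The conclusion for a web with at most one infinite slope from the closedness of the sums. -/
theorem web_final {n : ℕ} {J : Finset (Fin n)} {x : Fin n → M}
    (hc : ∀ a, D₁ (D₂ a) = D₂ (D₁ a))
    (hx : Set.InjOn x J) (hx0 : ∀ i ∉ J, x i = 0) (hJ : ∀ i ∉ J, ∀ j ∉ J, i = j)
    {ω : Fin n → M × M} {s : Fin n → M} (hs : ∀ i, s i ≠ 0) (hω : ∀ i, ω i = s i • nu J x i)
    (h1 : D₂ (∑ i, D₂ (x i)) = 0)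
    (h2 : D₂ (∑ i, (D₁ (x i) + x i * D₂ (x i)) * ∑ j ∈ univ.erase i, uu J x i j) = 0)
    (h3 : dd D₁ D₂ (∑ i, ((D₁ (x i) + x i * D₂ (x i)) * ((∑ j ∈ univ.erase i, uu J x i j) ^ 2 -
        ∑ j ∈ univ.erase i, (uu J x i j) ^ 2)) • (x i, (-1 : M))) = 0) :
    (∀ i j, i ≠ j → wedge (ω i) (ω j) ≠ 0) ∧
    (∀ i j l, i ≠ j → j ≠ l → i ≠ l → ∃ η, IsBlaschke D₁ D₂ (ω i) (ω j) (ω l) η) ∧
    (∀ η : Fin n → Fin n → Fin n → M × M,
      (∀ i j l, i < j → j < l → IsBlaschke D₁ D₂ (ω i) (ω j) (ω l) (η i j l)) →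
      ∑ i, ∑ j ∈ Ioi i, ∑ l ∈ Ioi j, dd D₁ D₂ (η i j l) = 0) := by
  have hw : ∀ i j, i ≠ j → wedge (ω i) (ω j) ≠ 0 := by
    intro i j hij
    rw [hω, hω, wedge_smul_left, wedge_smul_right]
    exact mul_ne_zero (hs i) (mul_ne_zero (hs j) (nu_wedge hx hJ hij))
  have hB : ∀ i j l, i ≠ j → j ≠ l → i ≠ l → ∃ θ, dd D₁ D₂ θ = 0 ∧
      IsBlaschke D₁ D₂ (ω i) (ω j) (ω l)
      (θ + (psi D₁ D₂ x (uu J x) i j l + psi D₁ D₂ x (uu J x) j i l +
        psi D₁ D₂ x (uu J x) l i j)) := by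
    intro i j l hij hjl hil
    obtain ⟨θ, h4, h5⟩ := tri (D₁ := D₁) (D₂ := D₂) hc hx hx0 hJ hij hjl hil
    refine ⟨θ, h4, ?_⟩
    rw [hω, hω, hω]
    exact h5.smul (hs i) (hs j) (hs l)
  refine ⟨hw, ?_, ?_⟩
  · intro i j l hij hjl hil
    obtain ⟨θ, -, h5⟩ := hB i j l hij hjl hil
    exact ⟨_, h5⟩
  · intro η hη
    rw [← psi_total D₁ D₂ x (uu J x) h1 h2 h3]
    refine sum_congr rfl (fun i _ => sum_congr rfl (fun j hj => sum_congr rfl (fun l hl => ?_)))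
    rw [mem_Ioi] at hj hl
    have hil : i < l := hj.trans hl
    obtain ⟨θ, h4, h5⟩ := hB i j l hj.ne hl.ne hil.ne
    rw [blaschke_unique hc (hw i j hj.ne) (hw j l hl.ne) (hη i j l hj hl) h5, dd_add, h4, zero_add]

end Pool.Agent.W638.CW
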