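import Pool.Agent.W638.CW.Pol
import Pool.Agent.W638.CW.Tri

/-! The theorem in a chart whose line at infinity is invariant (problem MP_5bde83_ag). -/

set_option autoImplicit false
set_option linter.unusedSectionVars false
set_option linter.unusedSimpArgs false

open Polynomial Finset
open Pool.Agent.W510.Cvx (R3 drv infl lin Cv lin_eq lin_hom lin_irr lin_ne)
open MvPolynomial (pderiv IsHomogeneous)

namespace Pool.Agent.W638.CW

variable {M : Type*} [Field M] [Algebra ℂ M] {D₁ D₂ : Derivation ℂ M M} {p q : M}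

/-- removing the line at infinity from the curve -/
lemma exists_F1 {A B F : R3} {k : ℕ} (hF : F.IsHomogeneous k) (hsq : Squarefree F)
    (hinv : F ∣ vf A B F) :
    ∃ F1 : R3, ∃ k1 : ℕ, F1.IsHomogeneous k1 ∧ Squarefree F1 ∧ ¬ (MvPolynomial.X 2 : R3) ∣ F1 ∧
      F1 ∣ vf A B F1 ∧ k ≤ k1 + 1 ∧ k1 ≤ k ∧
      ∀ {M : Type*} [Field M] [Algebra ℂ M] (p q : M), ev p q F = ev p q F1 := by
  by_cases hz : (MvPolynomial.X 2 : R3) ∣ F
  · obtain ⟨F1, hF1⟩ := hz
    have hX : (MvPolynomial.X 2 : R3) ≠ 0 := MvPolynomial.X_ne_zero 2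
    have h0 : F ≠ 0 := hsq.ne_zero
    have hk : 1 ≤ k := by
      by_contra hk
      have hk0 : k = 0 := by omega
      subst hk0
      have hc := MvPolynomial.totalDegree_eq_zero_iff_eq_C.1 (Nat.le_zero.1 hF.totalDegree_le)
      have h1 : F.totalDegree = 0 := hF.totalDegree h0
      rw [hF1, MvPolynomial.totalDegree_mul_of_isDomain hX (by
        rintro rfl; rw [mul_zero] at hF1; exact h0 hF1), MvPolynomial.totalDegree_X] at h1
      omega
    obtain ⟨k1, rfl⟩ : ∃ k1, k = k1 + 1 := ⟨k - 1, by omega⟩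
    have hF1h : F1.IsHomogeneous k1 := by
      refine hom_quot (MvPolynomial.isHomogeneous_X ℂ 2) hX (m := k1) ?_
      rw [← hF1, add_comm]; exact hF
    refine ⟨F1, k1, hF1h, ?_, ?_, ?_, le_refl _, Nat.le_succ _, ?_⟩
    · exact hsq.squarefree_of_dvd ⟨_, by rw [hF1, mul_comm]⟩
    · rintro ⟨g, hg⟩
      have h1 : (MvPolynomial.X 2 : R3) * MvPolynomial.X 2 ∣ F := ⟨g, by rw [hF1, hg]; ring⟩
      have h2 := hsq _ h1
      have h3 : Prime (MvPolynomial.X 2 : R3) := MvPolynomial.X_prime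
      exact h3.not_isUnit h2
    · have h1 : vf A B F = MvPolynomial.X 2 * vf A B F1 := by
        rw [hF1, vf_mul, vf_X2]; ring
      rw [h1, hF1] at hinv
      exact (mul_dvd_mul_iff_left hX).1 hinv
    · intro M _ _ p q
      rw [hF1, map_mul, ev_X2, one_mul]
  · exact ⟨F, k, hF, hsq, hz, hinv, Nat.le_succ _, le_refl _, fun p q => rfl⟩

/-- the cofactor of an invariant line gives closed sums -/
lemma TC_line {m : ℕ} {A B E κN : R3} {ι : Type*} [DecidableEq ι] {G : Finset ι} {x : ι → M}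
    {cg : M} (h : Fol D₁ D₂ p q m A B E κN G x cg) (hB0 : B ≠ 0) (hcop : IsRelPrime A B)
    {a : Fin 3 → ℂ} {κ : R3} (ha : a ≠ 0) (hκ : vf A B (lin a) = κ * lin a) :
    TC D₁ D₂ p q m A B G x κ := by
  have hlin := lin_ne ha
  by_cases h0 : a 0 = 0 ∧ a 1 = 0
  · have h1 : vf A B (lin a) = 0 := by
      rw [lin_eq, h0.1, h0.2]
      simp [vf, MvPolynomial.pderiv_X]
    rw [h1] at hκ
    have h2 : κ = 0 := (mul_eq_zero.1 hκ.symm).resolve_right hlin
    rw [h2]; exact TC.zero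
  · have hsq : Squarefree (lin a) := (lin_irr ha).squarefree
    set c := algebraMap ℂ M (a 0) + p * algebraMap ℂ M (a 1) with hc
    have halg : ∀ (D : Derivation ℂ M M) (z : ℂ), D (algebraMap ℂ M z) = 0 := fun D z =>
      Derivation.map_algebraMap D z
    have hc0 : c ≠ 0 := by
      intro hc0
      have h1 := congrArg D₁ hc0
      rw [hc, map_add, Derivation.leibniz, halg, halg, h.crd.D₁p, map_zero] at h1
      simp only [smul_eq_mul, mul_zero, mul_one, zero_add] at h1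
      have h2 : a 1 = 0 := by
        apply (algebraMap ℂ M).injective; rw [h1, map_zero]
      rw [hc, h1, mul_zero, add_zero] at hc0
      have h3 : a 0 = 0 := by
        apply (algebraMap ℂ M).injective; rw [hc0, map_zero]
      exact h0 ⟨h3, h2⟩
    have hDc : D₂ c = 0 := by
      rw [hc, map_add, Derivation.leibniz, halg, halg, h.crd.D₂p]; simp
    set y : Unit → M := fun _ => -(algebraMap ℂ M (a 2) - q * algebraMap ℂ M (a 1)) / c with hy
    have hev : ev p q (lin a) = C c * Lagrange.nodal ({()} : Finset Unit) y := by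
      rw [lin_eq]
      simp only [map_add, map_mul, ev_X0, ev_X1, ev_X2, ev_C]
      rw [Lagrange.nodal, prod_singleton, hy]
      have h1 : C c * (X - C (-(algebraMap ℂ M (a 2) - q * algebraMap ℂ M (a 1)) / c)) =
          C c * X + C (algebraMap ℂ M (a 2) - q * algebraMap ℂ M (a 1)) := by
        rw [mul_sub, ← C_mul, mul_div_cancel₀ _ hc0, C_neg]; ring
      rw [h1, hc]
      simp only [C_add, C_mul, C_sub]
      ring
    refine h.curve (ι' := Unit) hκ (T := {()}) (y := y) (by simp) hc0 hDc hev ?_ ?_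
    · intro i hi h1
      exact nv_g h.crd h.hA h.hB hB0 hcop (lin_hom a) hsq hκ h1 (h.br i hi).root
    · intro j hj
      have h1 : e p q (y j) (lin a) = 0 := by
        rw [← eval_ev, hev, eval_mul, Lagrange.eval_nodal_at_node hj, mul_zero]
      exact ⟨nv_e1 h.crd (lin_hom a) hsq h1, nv_g h.crd h.hA h.hB hB0 hcop (lin_hom a) hsq hκ h1⟩

lemma TC_lines {m : ℕ} {A B E κN : R3} {ι : Type*} [DecidableEq ι] {G : Finset ι} {x : ι → M}
    {cg : M} (h : Fol D₁ D₂ p q m A B E κN G x cg) (hB0 : B ≠ 0) (hcop : IsRelPrime A B)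
    (L : List ((Fin 3 → ℂ) × R3))
    (hL : ∀ l ∈ L, l.1 ≠ 0 ∧ vf A B (lin l.1) = l.2 * lin l.1 ∧ l.2.IsHomogeneous m) :
    TC D₁ D₂ p q m A B G x (L.map (fun l => l.2)).sum := by
  induction L with
  | nil => exact TC.zero
  | cons a L ih =>
    rw [List.map_cons, List.sum_cons]
    exact (TC_line h hB0 hcop (hL a List.mem_cons_self).1 (hL a List.mem_cons_self).2.1).add
      (ih (fun l hl => hL l (List.mem_cons_of_mem a hl)))

/-- Splitting of a product of two polynomials with simple roots. -/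
lemma split_nodal {n : ℕ} {f g : M[X]} {c : M} (hc : c ≠ 0) {J : Finset (Fin n)} {x : Fin n → M}
    (hJ : f * g = C c * Lagrange.nodal J x) (hx : Set.InjOn x J) {G H : Finset (Fin n)}
    (hGJ : G ⊆ J) (hHJ : H ⊆ J) (hd : Disjoint G H) (hu : G ∪ H = J)
    (hG : ∀ i ∈ G, g.eval (x i) = 0) (hH : ∀ i ∈ H, f.eval (x i) = 0) :
    ∃ cg cf : M, cg ≠ 0 ∧ cf ≠ 0 ∧ g = C cg * Lagrange.nodal G x ∧
      f = C cf * Lagrange.nodal H x := by
  have key : ∀ (s : Finset (Fin n)) (r : M[X]), s ⊆ J → (∀ i ∈ s, r.eval (x i) = 0) →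
      Lagrange.nodal s x ∣ r := by
    intro s r hs hr
    refine Finset.prod_dvd_of_coprime ?_ ?_
    · intro i hi j hj hij
      exact isCoprime_X_sub_C_of_isUnit_sub
        (isUnit_iff_ne_zero.2 (sub_ne_zero.2 (fun h => hij (hx (hs hi) (hs hj) h))))
    · intro i hi
      rw [dvd_iff_isRoot]; exact hr i hi
  obtain ⟨u, hu1⟩ := key G g hGJ hG
  obtain ⟨w, hw1⟩ := key H f hHJ hH
  have h1 : Lagrange.nodal J x = Lagrange.nodal G x * Lagrange.nodal H x := by
    rw [Lagrange.nodal, ← hu, prod_union hd]; rfl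
  have h2 : u * w = C c := by
    have h3 : Lagrange.nodal J x * (u * w) = Lagrange.nodal J x * C c := by
      rw [mul_comm (Lagrange.nodal J x) (C c), ← hJ, hw1, hu1, h1]; ring
    exact mul_left_cancel₀ Lagrange.nodal_ne_zero h3
  have hcu : IsUnit (u * w) := by rw [h2]; exact isUnit_C.2 (isUnit_iff_ne_zero.2 hc)
  obtain ⟨cg, hcg, rfl⟩ := Polynomial.isUnit_iff.1 (isUnit_of_mul_isUnit_left hcu)
  obtain ⟨cf, hcf, rfl⟩ := Polynomial.isUnit_iff.1 (isUnit_of_mul_isUnit_right hcu)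
  exact ⟨cg, cf, hcg.ne_zero, hcf.ne_zero, by rw [hu1, mul_comm], by rw [hw1, mul_comm]⟩

/-- The web polynomial as a product over the finite slopes. -/
lemma prod_lin {n : ℕ} (a b : Fin n → M) (J : Finset (Fin n)) (hJ : ∀ i, i ∈ J ↔ a i ≠ 0) :
    ∏ i, (C (a i) * X + C (b i)) =
      C ((∏ i ∈ J, a i) * ∏ i ∈ Jᶜ, b i) * Lagrange.nodal J (fun i => -(b i) / a i) := by
  rw [← prod_mul_prod_compl J, C_mul, Lagrange.nodal]
  have h1 : ∏ i ∈ J, (C (a i) * X + C (b i)) =
      C (∏ i ∈ J, a i) * ∏ i ∈ J, (X - C (-(b i) / a i)) := by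
    rw [map_prod, ← prod_mul_distrib]
    refine prod_congr rfl (fun i hi => ?_)
    have : a i ≠ 0 := (hJ i).1 hi
    rw [mul_sub, ← C_mul, mul_div_cancel₀ _ this, C_neg]; ring
  have h2 : ∏ i ∈ Jᶜ, (C (a i) * X + C (b i)) = C (∏ i ∈ Jᶜ, b i) := by
    rw [map_prod]
    refine prod_congr rfl (fun i hi => ?_)
    have : a i = 0 := by
      by_contra h; exact (mem_compl.1 hi) ((hJ i).2 h)
    rw [this, C_0, zero_mul, zero_add]
  rw [h1, h2]; ring

/-- The theorem in a chart whose line at infinity is invariant. -/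
theorem special {n k m : ℕ} {P Q F : R3} (hV : Cv (m + 1) ![P, Q, 0]) (hF : F.IsHomogeneous k)
    (hsq : Squarefree F) (hinv : F ∣ drv ![P, Q, 0] F) (hn : n = k + (m + 1))
    (hcrd : Crd D₁ D₂ p q) {a b : Fin n → M} {c : M} (hc : c ≠ 0)
    (hweb : ∀ s t : M, MvPolynomial.aeval ![s, p * s - q * t, t] F *
      (MvPolynomial.aeval ![s, p * s - q * t, t] Q -
        p * MvPolynomial.aeval ![s, p * s - q * t, t] P) = c * ∏ i, (a i * s + b i * t)) :
    (∀ i j, i ≠ j → wedge (b i, a i) (b j, a j) ≠ 0) ∧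
    (∀ i j l, i ≠ j → j ≠ l → i ≠ l →
      ∃ η, IsBlaschke D₁ D₂ (b i, a i) (b j, a j) (b l, a l) η) ∧
    (∀ η : Fin n → Fin n → Fin n → M × M,
      (∀ i j l, i < j → j < l →
        IsBlaschke D₁ D₂ (b i, a i) (b j, a j) (b l, a l) (η i j l)) →
      ∑ i, ∑ j ∈ Ioi i, ∑ l ∈ Ioi j, dd D₁ D₂ (η i j l) = 0) := by
  classical
  have hch : CharZero M := charZero_of_injective_algebraMap (algebraMap ℂ M).injective
  -- the polynomials
  set A : R3 := Q with hAdef
  set B : R3 := -P with hBdef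
  have hA : A.IsHomogeneous (m + 1) := hV.hom 1
  have hB : B.IsHomogeneous (m + 1) := (hV.hom 0).neg
  have hcop : IsRelPrime A B := by
    intro d hdA hdB
    have hdP : d ∣ P := (dvd_neg).1 hdB
    have e0 : (![P, Q, 0] : Fin 3 → R3) 0 = P := rfl
    have e1 : (![P, Q, 0] : Fin 3 → R3) 1 = Q := rfl
    have e2 : (![P, Q, 0] : Fin 3 → R3) 2 = 0 := rfl
    refine hV.cop d ?_ ?_ ?_
    · rw [e1, e2, zero_mul, sub_zero]; exact hdA.mul_right _
    · rw [e0, e2, zero_mul, zero_sub]; exact (dvd_neg).2 (hdP.mul_right _)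
    · rw [e0, e1]; exact dvd_sub (hdP.mul_right _) (hdA.mul_right _)
  have hX2 : (MvPolynomial.X 2 : R3) ≠ 0 := MvPolynomial.X_ne_zero 2
  have hinfl : infl ![P, Q, 0] = -(MvPolynomial.X 2 * NN A B) := infl_NN P Q
  have hN0 : NN A B ≠ 0 := by
    intro h0
    apply hV.ne
    rw [hinfl, h0, mul_zero, neg_zero]
  have hB0 : B ≠ 0 := by
    intro h0; apply hN0; rw [NN, h0]; simp [vf]
  -- the lines
  obtain ⟨L, cN, hcN, hL1, hL2⟩ := exists_lines hA hB hN0 (by
    intro R hR hRN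
    obtain ⟨α, h1, h2⟩ := hV.fac R hR (by
      rw [hinfl, dvd_neg]; exact hRN.mul_left _)
    refine ⟨α, h1, ?_⟩
    have h3 : vf A B (lin α) = -(∑ i : Fin 3, MvPolynomial.C (α i) * (![P, Q, 0] : Fin 3 → R3) i) := by
      rw [lin_eq, Fin.sum_univ_three]
      simp [vf, MvPolynomial.pderiv_X, hAdef, hBdef]
      ring
    rw [h3, dvd_neg]; exact h2)
  set κN := (L.map (fun l => l.2)).sum with hκN
  obtain ⟨hN1, hκNh⟩ := lines_cofactor L cN hL2
  rw [← hL1, ← hκN] at hN1
  rw [← hκN] at hκNh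
  obtain ⟨Mq, hMq, hMq0, hMq1⟩ := exists_Mq hA hB hκNh hcop hN0 hN1
  set E := κN + pderiv 1 A - pderiv 0 B with hE
  have hEh : E.IsHomogeneous m := (hκNh.add (hA.pderiv (i := 1))).sub (hB.pderiv (i := 0))
  have hMqS : InS D₂ m (ev p q Mq) := by
    cases m with
    | zero => rw [hMq0 rfl, map_zero]; rfl
    | succ m => exact InS.ev hcrd.D₂p (hMq1 m rfl)
  -- the curve
  have hinv' : F ∣ vf A B F := by
    rw [drv_vf, dvd_neg] at hinv; exact hinv
  obtain ⟨F1, k1, hF1h, hF1sq, hF1z, hF1inv, hk1, hk1', hF1ev⟩ := exists_F1 hF hsq hinv'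
  obtain ⟨κ, hκh, hκ⟩ := exists_cofactor hA hB hF1h hF1sq.ne_zero hF1inv
  -- the web polynomial
  set Φ := ev p q F1 * gp p q A B with hΦ
  set x : Fin n → M := fun i => -(b i) / a i with hx
  set J : Finset (Fin n) := univ.filter (fun i => a i ≠ 0) with hJ
  have hJm : ∀ i, i ∈ J ↔ a i ≠ 0 := fun i => by rw [hJ]; simp
  set c' := c * ((∏ i ∈ J, a i) * ∏ i ∈ Jᶜ, b i) with hc'
  have hfac : Φ = C c' * Lagrange.nodal J x := by
    rw [hc', C_mul, mul_assoc, ← prod_lin a b J hJm]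
    apply Polynomial.funext
    intro s
    have h1 := hweb s 1
    rw [hΦ, eval_mul, ← hF1ev, eval_ev, gp_eval, eval_mul, eval_C, eval_prod]
    simp only [eval_add, eval_mul, eval_C, eval_X]
    simp only [mul_one] at h1
    rw [← h1, e_def, e_def, e_def, hBdef, map_neg]
    ring
  -- the leading coefficients
  have hgp1 : (gp p q A B).natDegree ≤ m + 1 := by
    rw [gp]
    refine (natDegree_add_le _ _).trans (max_le (ev_natDegree p q hA) ?_)
    exact (natDegree_C_mul_le _ _).trans (ev_natDegree p q hB)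
  have hgpc : (gp p q A B).coeff (m + 1) = top p A + p * top p B := by
    rw [gp, coeff_add, coeff_C_mul, ev_coeff p q hA, ev_coeff p q hB]
  have hgp2 : (gp p q A B).coeff (m + 1) ≠ 0 := by
    rw [hgpc]
    have h1 : (MvPolynomial.X 0 * A + MvPolynomial.X 1 * B).IsHomogeneous (1 + (m + 1)) :=
      ((MvPolynomial.isHomogeneous_X ℂ 0).mul hA).add ((MvPolynomial.isHomogeneous_X ℂ 1).mul hB)
    have h2 : ¬ (MvPolynomial.X 2 : R3) ∣ MvPolynomial.X 0 * A + MvPolynomial.X 1 * B := by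
      intro h3
      have h4 : Prime (MvPolynomial.X 2 : R3) := MvPolynomial.X_prime
      apply h4.not_isUnit
      have e0 : (![P, Q, 0] : Fin 3 → R3) 0 = P := rfl
      have e1 : (![P, Q, 0] : Fin 3 → R3) 1 = Q := rfl
      have e2 : (![P, Q, 0] : Fin 3 → R3) 2 = 0 := rfl
      refine hV.cop _ ?_ ?_ ?_
      · rw [e1, e2, zero_mul, sub_zero]; exact dvd_mul_left _ _
      · rw [e0, e2, zero_mul, zero_sub]; exact (dvd_neg).2 (dvd_mul_left _ _)
      · rw [e0, e1, ← dvd_neg]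
        convert h3 using 1
        rw [hAdef, hBdef]; ring
    have h3 := top_ne hcrd.trans_p h1 h2
    rw [map_add, map_mul, map_mul] at h3
    simpa [top] using h3
  have hF1c : (ev p q F1).coeff k1 ≠ 0 := by
    rw [ev_coeff p q hF1h]; exact top_ne hcrd.trans_p hF1h hF1z
  have hgpd : (gp p q A B).natDegree = m + 1 := natDegree_eq_of_le_of_coeff_ne_zero hgp1 hgp2
  have hF1d : (ev p q F1).natDegree = k1 :=
    natDegree_eq_of_le_of_coeff_ne_zero (ev_natDegree p q hF1h) hF1c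
  have hgp0 : gp p q A B ≠ 0 := by
    intro h; rw [h, coeff_zero] at hgp2; exact hgp2 rfl
  have hF10 : ev p q F1 ≠ 0 := by
    intro h; rw [h, coeff_zero] at hF1c; exact hF1c rfl
  have hΦ0 : Φ ≠ 0 := mul_ne_zero hF10 hgp0
  have hc'0 : c' ≠ 0 := by
    intro h; rw [h, C_0, zero_mul] at hfac; exact hΦ0 hfac
  -- simple roots
  have hgroot : ∀ y, e p q y A + p * e p q y B = 0 → e p q y B ≠ 0 := by
    intro y h1 h2
    refine nv_cop hcrd hA hB hB0 hcop (x := y) ?_ h2
    rw [h2, mul_zero, add_zero] at h1; exact h1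
  have hfg : ∀ y, e p q y A + p * e p q y B = 0 → e p q y F1 ≠ 0 := by
    intro y h1 h2
    exact nv_g hcrd hA hB hB0 hcop hF1h hF1sq hκ h2 h1
  have hBr : ∀ y, e p q y A + p * e p q y B = 0 → Br D₁ D₂ p q A B E κN y := fun y h1 =>
    ⟨hcrd, h1, hgroot y h1, hE, hN1⟩
  have hΦd : ∀ y, (derivative Φ).eval y = e1 p q y F1 * (e p q y A + p * e p q y B) +
      e p q y F1 * G1 p q y A B := by
    intro y
    rw [hΦ, derivative_mul, eval_add, eval_mul, eval_mul, eval_deriv, gp_eval, eval_ev, gp_deriv]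
  have hsimple : ∀ y, Φ.eval y = 0 → (derivative Φ).eval y ≠ 0 := by
    intro y hy
    rw [hΦ, eval_mul, eval_ev, gp_eval] at hy
    rw [hΦd]
    rcases mul_eq_zero.1 hy with h1 | h1
    · rw [h1, zero_mul, add_zero]
      exact mul_ne_zero (nv_e1 hcrd hF1h hF1sq h1) (nv_g hcrd hA hB hB0 hcop hF1h hF1sq hκ h1)
    · rw [h1, mul_zero, zero_add]
      exact mul_ne_zero (hfg y h1) (hBr y h1).G1_ne
  have hxinj : Set.InjOn x J := by
    intro i hi j hj hij
    by_contra hne
    have h1 : Φ.eval (x i) = 0 := by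
      rw [hfac, eval_mul, Lagrange.eval_nodal_at_node hi, mul_zero]
    apply hsimple _ h1
    rw [hfac, derivative_C_mul, eval_mul, Lagrange.eval_nodal_derivative_eval_node_eq hi,
      Lagrange.eval_nodal]
    have : ∏ l ∈ J.erase i, (x i - x l) = 0 :=
      prod_eq_zero (mem_erase.2 ⟨Ne.symm hne, hj⟩) (by rw [hij, sub_self])
    rw [this, mul_zero]
  -- the two kinds of branches
  set G := J.filter (fun i => e p q (x i) A + p * e p q (x i) B = 0) with hG
  set H := J.filter (fun i => ¬ (e p q (x i) A + p * e p q (x i) B = 0)) with hH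
  have hGJ : G ⊆ J := filter_subset _ _
  have hHJ : H ⊆ J := filter_subset _ _
  have hGH : Disjoint G H := disjoint_filter_filter_not _ _ _
  have hGHu : G ∪ H = J := filter_union_filter_not_eq _ _
  have hGr : ∀ i ∈ G, e p q (x i) A + p * e p q (x i) B = 0 := fun i hi => (mem_filter.1 hi).2
  have hHr : ∀ i ∈ H, e p q (x i) F1 = 0 := by
    intro i hi
    have h1 : Φ.eval (x i) = 0 := by
      rw [hfac, eval_mul, Lagrange.eval_nodal_at_node (hHJ hi), mul_zero]
    rw [hΦ, eval_mul, eval_ev, gp_eval] at h1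
    exact (mul_eq_zero.1 h1).resolve_right (mem_filter.1 hi).2
  obtain ⟨cg, cf, hcg, hcf, hgfac, hffac⟩ := split_nodal hc'0 hfac hxinj hGJ hHJ hGH hGHu
    (fun i hi => by rw [gp_eval]; exact hGr i hi) (fun i hi => by rw [eval_ev]; exact hHr i hi)
  have hGcard : G.card = m + 1 := by
    rw [← hgpd, hgfac, natDegree_C_mul hcg, Lagrange.natDegree_nodal]
  have hHcard : H.card = k1 := by
    rw [← hF1d, hffac, natDegree_C_mul hcf, Lagrange.natDegree_nodal]
  have hcg' : cg = (gp p q A B).coeff (m + 1) := by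
    have h1 := (Lagrange.nodal_monic (s := G) (v := x)).coeff_natDegree
    rw [Lagrange.natDegree_nodal, hGcard] at h1
    rw [hgfac, coeff_C_mul, h1, mul_one]
  have hcf' : cf = (ev p q F1).coeff k1 := by
    have h1 := (Lagrange.nodal_monic (s := H) (v := x)).coeff_natDegree
    rw [Lagrange.natDegree_nodal, hHcard] at h1
    rw [hffac, coeff_C_mul, h1, mul_one]
  have hDcg : D₂ cg = 0 := by
    rw [hcg', hgpc, map_add, Derivation.leibniz, D₂_top hcrd.D₂p, D₂_top hcrd.D₂p, hcrd.D₂p]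
    simp
  have hDcf : D₂ cf = 0 := by
    rw [hcf', ev_coeff p q hF1h, D₂_top hcrd.D₂p]
  have hJcard : J.card = m + 1 + k1 := by
    rw [← hGHu, card_union_of_disjoint hGH, hGcard, hHcard]
  have hJone : ∀ i ∉ J, ∀ j ∉ J, i = j := by
    intro i hi j hj
    have h1 : (Jᶜ).card ≤ 1 := by
      rw [card_compl, Fintype.card_fin, hJcard, hn]; omega
    exact card_le_one.1 h1 i (mem_compl.2 hi) j (mem_compl.2 hj)
  have hx0 : ∀ i ∉ J, x i = 0 := by
    intro i hi
    have : a i = 0 := by by_contra h; exact hi ((hJm i).2 h)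
    rw [hx]; simp [this]
  have hb0 : ∀ i ∉ J, b i ≠ 0 := by
    intro i hi h0
    apply hc'0
    rw [hc', prod_eq_zero (mem_compl.2 hi) h0, mul_zero, mul_zero]
  -- the foliation data
  have hFol : Fol D₁ D₂ p q m A B E κN G x cg :=
    ⟨hcrd, hA, hB, hEh, hκNh, fun i hi => hBr _ (hGr i hi), hxinj.mono hGJ, hGcard, hcg, hDcg,
      hgfac⟩
  have hGf : ∀ i ∈ G, e p q (x i) F1 ≠ 0 := fun i hi => hfg _ (hGr i hi)
  have hTN : TC D₁ D₂ p q m A B G x κN := TC_lines hFol hB0 hcop L hL2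
  have hHe1 : ∀ j ∈ H, e1 p q (x j) F1 ≠ 0 := fun j hj => nv_e1 hcrd hF1h hF1sq (hHr j hj)
  have hT : TC D₁ D₂ p q m A B G x κ :=
    hFol.curve hκ (hxinj.mono hHJ) hcf hDcf hffac hGf
      (fun j hj => ⟨hHe1 j hj, nv_g hcrd hA hB hB0 hcop hF1h hF1sq hκ (hHr j hj)⟩)
  obtain ⟨hHsq, hHh⟩ := curve_sq hcrd hF1h hHcard (hxinj.mono hHJ) hcf hDcf hffac hHe1
  -- symmetric sums
  set σ : Fin n → M := fun i => ∑ j ∈ univ.erase i, uu J x i j with hσ
  set τ : Fin n → M := fun i => ∑ j ∈ univ.erase i, (uu J x i j) ^ 2 with hτ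
  have hσJ : ∀ i ∈ J, σ i = ∑ j ∈ J.erase i, (x i - x j)⁻¹ := by
    intro i hi
    rw [hσ]
    symm
    refine sum_subset_zero_on_sdiff (erase_subset_erase _ (subset_univ _)) ?_ ?_
    · intro j hj
      rw [mem_sdiff, mem_erase, mem_erase, not_and] at hj
      rw [uu, if_neg (fun h => hj.2 hj.1.1 h.2)]
    · intro j hj
      rw [uu, if_pos ⟨hi, (mem_erase.1 hj).2⟩]
  have hτJ : ∀ i ∈ J, τ i = ∑ j ∈ J.erase i, ((x i - x j)⁻¹) ^ 2 := by
    intro i hi
    rw [hτ]
    symm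
    refine sum_subset_zero_on_sdiff (erase_subset_erase _ (subset_univ _)) ?_ ?_
    · intro j hj
      rw [mem_sdiff, mem_erase, mem_erase, not_and] at hj
      rw [uu, if_neg (fun h => hj.2 hj.1.1 h.2)]; simp
    · intro j hj
      rw [uu, if_pos ⟨hi, (mem_erase.1 hj).2⟩]
  have hΦ1 : ∀ i ∈ G, (derivative Φ).eval (x i) = e p q (x i) F1 * G1 p q (x i) A B := by
    intro i hi
    rw [hΦd, hGr i hi, mul_zero, zero_add]
  have hΦ2 : ∀ i ∈ G, (derivative (derivative Φ)).eval (x i) =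
      2 * e1 p q (x i) F1 * G1 p q (x i) A B + e p q (x i) F1 * G2 p q (x i) A B := by
    intro i hi
    rw [hΦ]
    simp only [derivative_mul, derivative_add, eval_add, eval_mul, eval_deriv, gp_eval, eval_ev,
      gp_deriv, eval_deriv2, gp_deriv2, hGr i hi]
    ring
  have hΦ3 : ∀ i ∈ G, (derivative (derivative (derivative Φ))).eval (x i) =
      3 * e2 p q (x i) F1 * G1 p q (x i) A B + 3 * e1 p q (x i) F1 * G2 p q (x i) A B +
        e p q (x i) F1 * G3 p q (x i) A B := by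
    intro i hi
    rw [hΦ]
    simp only [derivative_mul, derivative_add, eval_add, eval_mul, eval_deriv, gp_eval, eval_ev,
      gp_deriv, eval_deriv2, gp_deriv2, eval_deriv3, gp_deriv3, hGr i hi]
    ring
  have hr2 : ∀ i ∈ G, 2 * (e p q (x i) F1 * G1 p q (x i) A B) * σ i =
      2 * e1 p q (x i) F1 * G1 p q (x i) A B + e p q (x i) F1 * G2 p q (x i) A B := by
    intro i hi
    rw [← hΦ2 i hi, ← hΦ1 i hi, hσJ i (hGJ hi), (root_sums hxinj hfac (hGJ hi)).1]
  have hr3 : ∀ i ∈ G, 3 * (e p q (x i) F1 * G1 p q (x i) A B) * (σ i ^ 2 - τ i) =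
      3 * e2 p q (x i) F1 * G1 p q (x i) A B + 3 * e1 p q (x i) F1 * G2 p q (x i) A B +
        e p q (x i) F1 * G3 p q (x i) A B := by
    intro i hi
    rw [← hΦ3 i hi, ← hΦ1 i hi, hσJ i (hGJ hi), hτJ i (hGJ hi),
      (root_sums hxinj hfac (hGJ hi)).2]
  have hDx0 : ∀ i, i ∉ G → D₁ (x i) + x i * D₂ (x i) = 0 := by
    intro i hi
    by_cases hiJ : i ∈ J
    · have hiH : i ∈ H := by
        rw [← hGHu, mem_union] at hiJ
        exact hiJ.resolve_left hi
      rw [← Dx_apply]; exact hHh i hiH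
    · rw [hx0 i hiJ]; simp
  refine web_final (J := J) (x := x) (s := fun i => if i ∈ J then -(a i) else b i)
    hcrd.comm hxinj hx0 hJone ?_ ?_ ?_ ?_ ?_
  · intro i
    by_cases hi : i ∈ J
    · simp only [hi, if_true]; exact neg_ne_zero.2 ((hJm i).1 hi)
    · simp only [hi, if_false]; exact hb0 i hi
  · intro i
    by_cases hi : i ∈ J
    · have hai := (hJm i).1 hi
      simp only [nu, hi, if_true]
      refine Prod.ext ?_ ?_
      · simp only [Prod.smul_fst, smul_eq_mul, hx]; field_simp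
      · simp
    · have hai : a i = 0 := by by_contra h; exact hi ((hJm i).2 h)
      simp only [nu, hi, if_false, hai]
      refine Prod.ext ?_ ?_
      · simp
      · simp
  · have h1 : ∑ i, D₂ (x i) = (∑ i ∈ G, D₂ (x i)) + ∑ i ∈ H, D₂ (x i) := by
      rw [← sum_union hGH, hGHu]
      symm
      refine sum_subset (subset_univ _) (fun i _ hi => ?_)
      rw [hx0 i hi, map_zero]
    rw [h1, map_add, hFol.sq, hHsq, add_zero]
  · have h1 : ∑ i, (D₁ (x i) + x i * D₂ (x i)) * ∑ j ∈ univ.erase i, uu J x i j =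
        ∑ i ∈ G, Dx D₁ D₂ (x i) (x i) * σ i := by
      symm
      refine sum_subset_zero_on_sdiff (subset_univ _) ?_ ?_
      · intro i hi
        rw [hDx0 i (mem_sdiff.1 hi).2, zero_mul]
      · intro i _
        rw [Dx_apply]
    rw [h1]
    exact hFol.sigma hκ hκh hGf hr2
  · have h1 : ∑ i, ((D₁ (x i) + x i * D₂ (x i)) * ((∑ j ∈ univ.erase i, uu J x i j) ^ 2 -
        ∑ j ∈ univ.erase i, (uu J x i j) ^ 2)) • (x i, (-1 : M)) =
        ∑ i ∈ G, (Dx D₁ D₂ (x i) (x i) * (σ i ^ 2 - τ i)) • (x i, (-1 : M)) := by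
      symm
      refine sum_subset_zero_on_sdiff (subset_univ _) ?_ ?_
      · intro i hi
        rw [hDx0 i (mem_sdiff.1 hi).2, zero_mul, zero_smul]
      · intro i _
        rw [Dx_apply]
    rw [h1]
    exact hFol.total hMqS hMq hκ hκh hGf hT hTN hr3

end Pool.Agent.W638.CW
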