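import Pool.Agent.W638.CW.Web

/-! Sums over triples (problem MP_5bde83_ag). -/

set_option autoImplicit false
set_option linter.unusedSectionVars false
set_option linter.unusedSimpArgs false

open Finset

namespace Pool.Agent.W638.CW

section

variable {n : ℕ} {N : Type*} [AddCommMonoid N]

lemma sum_Ioi (i : Fin n) (f : Fin n → N) : ∑ j ∈ Ioi i, f j = ∑ j, if i < j then f j else 0 := by
  rw [← sum_filter]
  congr 1
  ext j; simp

lemma sum_erase_ite (s : Finset (Fin n)) (i : Fin n) (f : Fin n → N) :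
    ∑ j ∈ s.erase i, f j = ∑ j ∈ s, if j ≠ i then f j else 0 := by
  rw [← sum_filter]
  congr 1
  ext j; simp [and_comm]

/-- A sum over triples `i < j < l`. -/
lemma triple_sum (ψ : Fin n → Fin n → Fin n → N) (hs : ∀ i j l, ψ i j l = ψ i l j) :
    (∑ i, ∑ j ∈ Ioi i, ∑ l ∈ Ioi j, (ψ i j l + ψ j i l + ψ l i j)) +
    (∑ i, ∑ j ∈ Ioi i, ∑ l ∈ Ioi j, (ψ i j l + ψ j i l + ψ l i j)) =
      ∑ i, ∑ j ∈ univ.erase i, ∑ l ∈ (univ.erase i).erase j, ψ i j l := by
  have h1 : (∑ i, ∑ j ∈ Ioi i, ∑ l ∈ Ioi j, (ψ i j l + ψ j i l + ψ l i j)) =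
      ∑ i, ∑ j, ∑ l, ((if i < j ∧ j < l then ψ i j l else 0) +
        (if j < i ∧ i < l then ψ i j l else 0) + (if j < l ∧ l < i then ψ i j l else 0)) := by
    have h2 : (∑ i, ∑ j ∈ Ioi i, ∑ l ∈ Ioi j, (ψ i j l + ψ j i l + ψ l i j)) =
        (∑ i, ∑ j, ∑ l, if i < j ∧ j < l then ψ i j l else 0) +
        (∑ i, ∑ j, ∑ l, if i < j ∧ j < l then ψ j i l else 0) +
        (∑ i, ∑ j, ∑ l, if i < j ∧ j < l then ψ l i j else 0) := by
      rw [← sum_add_distrib, ← sum_add_distrib]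
      refine sum_congr rfl (fun i _ => ?_)
      rw [sum_Ioi, ← sum_add_distrib, ← sum_add_distrib]
      refine sum_congr rfl (fun j _ => ?_)
      rw [sum_Ioi, ← sum_add_distrib, ← sum_add_distrib]
      by_cases h : i < j
      · rw [if_pos h]
        refine sum_congr rfl (fun l _ => ?_)
        by_cases h' : j < l
        · simp [h, h']
        · simp [h']
      · simp [h]
    have h3 : (∑ i : Fin n, ∑ j : Fin n, ∑ l : Fin n, if i < j ∧ j < l then ψ j i l else 0) =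
        ∑ i, ∑ j, ∑ l, if j < i ∧ i < l then ψ i j l else 0 := sum_comm
    have h4 : (∑ i : Fin n, ∑ j : Fin n, ∑ l : Fin n, if i < j ∧ j < l then ψ l i j else 0) =
        ∑ i, ∑ j, ∑ l, if j < l ∧ l < i then ψ i j l else 0 := by
      have : (∑ i : Fin n, ∑ j : Fin n, ∑ l : Fin n, if i < j ∧ j < l then ψ l i j else 0) =
          ∑ i : Fin n, ∑ l : Fin n, ∑ j : Fin n, if i < j ∧ j < l then ψ l i j else 0 :=
        sum_congr rfl (fun i _ => sum_comm)
      rw [this]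
      exact sum_comm
    rw [h2, h3, h4, ← sum_add_distrib, ← sum_add_distrib]
    refine sum_congr rfl (fun i _ => ?_)
    rw [← sum_add_distrib, ← sum_add_distrib]
    refine sum_congr rfl (fun j _ => ?_)
    rw [← sum_add_distrib, ← sum_add_distrib]
  have h5 : (∑ i, ∑ j ∈ Ioi i, ∑ l ∈ Ioi j, (ψ i j l + ψ j i l + ψ l i j)) =
      ∑ i, ∑ j, ∑ l, ((if i < l ∧ l < j then ψ i j l else 0) +
        (if l < i ∧ i < j then ψ i j l else 0) + (if l < j ∧ j < i then ψ i j l else 0)) := by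
    rw [h1]
    refine sum_congr rfl (fun i _ => ?_)
    rw [sum_comm]
    refine sum_congr rfl (fun j _ => ?_)
    refine sum_congr rfl (fun l _ => ?_)
    rw [hs i l j]
  nth_rewrite 1 [h1]
  rw [h5, ← sum_add_distrib]
  refine sum_congr rfl (fun i _ => ?_)
  rw [← sum_add_distrib, sum_erase_ite]
  refine sum_congr rfl (fun j _ => ?_)
  rw [← sum_add_distrib, sum_erase_ite, sum_erase_ite]
  by_cases hj : j ≠ i
  · rw [if_pos hj]
    refine sum_congr rfl (fun l _ => ?_)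
    rcases lt_trichotomy i j with h1 | h1 | h1
    · rcases lt_trichotomy j l with h2 | h2 | h2
      · have h3 := h1.trans h2
        simp [h1, h2, h3, h1.not_gt, h2.not_gt, h3.not_gt, h2.ne', h3.ne']
      · subst h2; simp [h1.not_gt]
      · rcases lt_trichotomy i l with h3 | h3 | h3
        · simp [h1, h2, h3, h1.not_gt, h2.not_gt, h3.not_gt, h2.ne, h3.ne']
        · subst h3; simp [h1.not_gt]
        · simp [h1, h2, h3, h1.not_gt, h2.not_gt, h3.not_gt, h2.ne, h3.ne]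
    · exact absurd h1.symm hj
    · rcases lt_trichotomy j l with h2 | h2 | h2
      · rcases lt_trichotomy i l with h3 | h3 | h3
        · simp [h1, h2, h3, h1.not_gt, h2.not_gt, h3.not_gt, h2.ne', h3.ne']
        · subst h3; simp [h1.not_gt]
        · simp [h1, h2, h3, h1.not_gt, h2.not_gt, h3.not_gt, h2.ne', h3.ne]
      · subst h2; simp [h1.not_gt]
      · have h3 := h2.trans h1
        simp [h1, h2, h3, h1.not_gt, h2.not_gt, h3.not_gt, h2.ne, h3.ne]
  · rw [if_neg hj]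
    push Not at hj
    subst hj
    refine sum_eq_zero (fun l _ => ?_)
    rcases lt_trichotomy j l with h2 | h2 | h2
    · simp [h2, h2.not_gt]
    · subst h2; simp
    · simp [h2, h2.not_gt]

end

variable {M : Type*} [Field M] [Algebra ℂ M]

/-- the contribution of the branch `i` to the 3-web `i, j, l` -/
noncomputable def psi {n : ℕ} (D₁ D₂ : Derivation ℂ M M) (x : Fin n → M) (u : Fin n → Fin n → M)
    (i j l : Fin n) : M × M :=
  (D₂ (x i), 0) + ((D₁ (x i) + x i * D₂ (x i)) * (u i j * u i l)) • (x i, (-1 : M)) -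
    (((D₁ (x i) + x i * D₂ (x i)) * (u i j + u i l), 0) : M × M)

lemma psi_symm {n : ℕ} (D₁ D₂ : Derivation ℂ M M) (x : Fin n → M) (u : Fin n → Fin n → M)
    (i j l : Fin n) : psi D₁ D₂ x u i j l = psi D₁ D₂ x u i l j := by
  rw [psi, psi, mul_comm (u i j), add_comm (u i j)]

/-- the sum of the contributions of the branch `i` -/
lemma psi_sum {n : ℕ} (D₁ D₂ : Derivation ℂ M M) (x : Fin n → M) (u : Fin n → Fin n → M)
    (i : Fin n) :
    ∑ j ∈ univ.erase i, ∑ l ∈ (univ.erase i).erase j, psi D₁ D₂ x u i j l =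
      ((((n : M) - 1) * ((n : M) - 2)) * D₂ (x i), (0 : M)) +
      ((D₁ (x i) + x i * D₂ (x i)) * ((∑ j ∈ univ.erase i, u i j) ^ 2 -
        ∑ j ∈ univ.erase i, (u i j) ^ 2)) • (x i, (-1 : M)) -
      ((2 * ((n : M) - 2)) * ((D₁ (x i) + x i * D₂ (x i)) * ∑ j ∈ univ.erase i, u i j), (0 : M)) := by
  have hcard : ((univ.erase i : Finset (Fin n)).card : M) = n - 1 := by
    rw [card_erase_of_mem (mem_univ i), card_univ, Fintype.card_fin]
    have : 1 ≤ n := by have := i.isLt; omega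
    push_cast [Nat.cast_sub this]; ring
  have key : ∀ f : Fin n → M, ∀ j ∈ (univ.erase i : Finset (Fin n)),
      ∑ l ∈ (univ.erase i).erase j, f l = (∑ l ∈ univ.erase i, f l) - f j := by
    intro f j hj
    rw [← add_sum_erase _ f hj]; ring
  set E := (univ.erase i : Finset (Fin n)) with hE
  set h := D₁ (x i) + x i * D₂ (x i) with hh
  have c1 : ∑ j ∈ E, ∑ _l ∈ E.erase j, (1 : M) = ((n : M) - 1) * ((n : M) - 2) := by
    rw [sum_congr rfl (fun j hj => key (fun _ => 1) j hj)]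
    simp only [sum_const, nsmul_eq_mul, mul_one, hcard]; ring
  have c2 : ∑ j ∈ E, ∑ l ∈ E.erase j, u i j * u i l = (∑ j ∈ E, u i j) ^ 2 - ∑ j ∈ E, (u i j) ^ 2 := by
    have : ∀ j ∈ E, ∑ l ∈ E.erase j, u i j * u i l = u i j * (∑ l ∈ E, u i l) - u i j ^ 2 := by
      intro j hj
      rw [key (fun l => u i j * u i l) j hj, mul_sum]; ring
    rw [sum_congr rfl this, sum_sub_distrib, ← sum_mul]; ring
  have c3 : ∑ j ∈ E, ∑ l ∈ E.erase j, (u i j + u i l) = 2 * ((n : M) - 2) * ∑ j ∈ E, u i j := by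
    have : ∀ j ∈ E, ∑ l ∈ E.erase j, (u i j + u i l) =
        ((n : M) - 1) * u i j + (∑ l ∈ E, u i l) - 2 * u i j := by
      intro j hj
      rw [key (fun l => u i j + u i l) j hj, sum_add_distrib, sum_const, nsmul_eq_mul, hcard]; ring
    rw [sum_congr rfl this, sum_sub_distrib, sum_add_distrib, ← mul_sum, ← mul_sum, sum_const,
      nsmul_eq_mul, hcard]
    ring
  refine Prod.ext ?_ ?_
  · simp only [Prod.fst_sum, psi, Prod.fst_add, Prod.fst_sub, Prod.smul_fst, smul_eq_mul]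
    rw [← c1, ← c2]
    have : ∀ a b c d e : M, a * b + h * c * d - e = a * b + h * d * c - e := by intros; ring
    calc ∑ j ∈ E, ∑ l ∈ E.erase j, (D₂ (x i) + h * (u i j * u i l) * x i - h * (u i j + u i l))
        = ∑ j ∈ E, ∑ l ∈ E.erase j, (D₂ (x i) * 1 + h * x i * (u i j * u i l) -
            h * (u i j + u i l)) := by
          refine sum_congr rfl (fun j _ => sum_congr rfl (fun l _ => ?_)); ring
      _ = D₂ (x i) * (∑ j ∈ E, ∑ _l ∈ E.erase j, (1 : M)) + h * x i *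
            (∑ j ∈ E, ∑ l ∈ E.erase j, u i j * u i l) -
            h * ∑ j ∈ E, ∑ l ∈ E.erase j, (u i j + u i l) := by
          simp only [mul_sum, mul_add, sum_add_distrib, sum_sub_distrib]
      _ = _ := by rw [c3]; ring
  · simp only [Prod.snd_sum, psi, Prod.snd_add, Prod.snd_sub, Prod.smul_snd, smul_eq_mul]
    rw [← c2]
    simp only [mul_sum, sum_mul, zero_add, sub_zero]
    rfl

/-- The sum over all 3-subwebs. -/
lemma psi_total {n : ℕ} (D₁ D₂ : Derivation ℂ M M) (x : Fin n → M) (u : Fin n → Fin n → M)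
    (h1 : D₂ (∑ i, D₂ (x i)) = 0)
    (h2 : D₂ (∑ i, (D₁ (x i) + x i * D₂ (x i)) * ∑ j ∈ univ.erase i, u i j) = 0)
    (h3 : dd D₁ D₂ (∑ i, ((D₁ (x i) + x i * D₂ (x i)) * ((∑ j ∈ univ.erase i, u i j) ^ 2 -
        ∑ j ∈ univ.erase i, (u i j) ^ 2)) • (x i, (-1 : M))) = 0) :
    ∑ i, ∑ j ∈ Ioi i, ∑ l ∈ Ioi j, dd D₁ D₂ (psi D₁ D₂ x u i j l + psi D₁ D₂ x u j i l +
      psi D₁ D₂ x u l i j) = 0 := by
  have hch : CharZero M := charZero_of_injective_algebraMap (algebraMap ℂ M).injective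
  set S := ∑ i, ∑ j ∈ Ioi i, ∑ l ∈ Ioi j, (psi D₁ D₂ x u i j l + psi D₁ D₂ x u j i l +
      psi D₁ D₂ x u l i j) with hS
  have hsum : ∑ i, ∑ j ∈ Ioi i, ∑ l ∈ Ioi j, dd D₁ D₂ (psi D₁ D₂ x u i j l +
      psi D₁ D₂ x u j i l + psi D₁ D₂ x u l i j) = dd D₁ D₂ S := by
    rw [hS, dd_sum]
    refine sum_congr rfl (fun i _ => ?_)
    rw [dd_sum]
    refine sum_congr rfl (fun j _ => ?_)
    rw [dd_sum]
  rw [hsum]
  have h4 := triple_sum (psi D₁ D₂ x u) (psi_symm D₁ D₂ x u)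
  rw [← hS] at h4
  rw [sum_congr rfl (fun i _ => psi_sum D₁ D₂ x u i), sum_sub_distrib, sum_add_distrib] at h4
  have h5 := congrArg (dd D₁ D₂) h4
  rw [dd_add, dd_sub, dd_add, h3] at h5
  have dn : D₂ (((n : M) - 1) * ((n : M) - 2)) = 0 := by
    have d1 : D₂ (1 : M) = 0 := Derivation.map_one_eq_zero D₂
    have d2 : D₂ (2 : M) = 0 := by exact_mod_cast Derivation.map_natCast D₂ 2
    rw [Derivation.leibniz, map_sub, map_sub, Derivation.map_natCast, d1, d2]; simp
  have dn' : D₂ (2 * ((n : M) - 2)) = 0 := by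
    have d2 : D₂ (2 : M) = 0 := by exact_mod_cast Derivation.map_natCast D₂ 2
    rw [Derivation.leibniz, map_sub, Derivation.map_natCast, d2]; simp
  have e1 : dd D₁ D₂ (∑ i, ((((n : M) - 1) * ((n : M) - 2)) * D₂ (x i), (0 : M))) = 0 := by
    rw [dd, Prod.fst_sum, Prod.snd_sum]
    simp only [sum_const_zero, map_zero, ← mul_sum]
    rw [Derivation.leibniz, h1, dn]; simp
  have e2 : dd D₁ D₂ (∑ i, ((2 * ((n : M) - 2)) * ((D₁ (x i) + x i * D₂ (x i)) *
      ∑ j ∈ univ.erase i, u i j), (0 : M))) = 0 := by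
    rw [dd, Prod.fst_sum, Prod.snd_sum]
    simp only [sum_const_zero, map_zero]
    rw [← mul_sum, Derivation.leibniz, h2, dn']; simp
  rw [e1, e2] at h5
  have h6 : (2 : M) * dd D₁ D₂ S = 0 := by linear_combination h5
  exact (mul_eq_zero.1 h6).resolve_left (by norm_num)

end Pool.Agent.W638.CW
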