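import Pool.Agent.W638.CW.Loc

/-! The total form at a branch of the dual web of the foliation (problem MP_5bde83_ag). -/

set_option autoImplicit false
set_option linter.unusedSectionVars false
set_option linter.unusedSimpArgs false

open MvPolynomial
open Pool.Agent.W510.Cvx (R3)

namespace Pool.Agent.W638.CW

variable {M : Type*} [Field M] [Algebra ℂ M]
variable {D₁ D₂ : Derivation ℂ M M} {p q : M} {A B E κN : R3} {x : M}

lemma Br.hgy (h : Br D₁ D₂ p q A B E κN x) :
    gy p q x A B = e p q x E - e p q x κN + e1 p q x B := by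
  have hE : e p q x E = e p q x κN + e p q x (pderiv 1 A) - e p q x (pderiv 0 B) := by
    rw [h.hE]; simp only [map_add, map_sub]
  rw [hE, gy, e1]; ring

lemma Br.DG1 (h : Br D₁ D₂ p q A B E κN x) :
    Dx D₁ D₂ x (G1 p q x A B) = Dx D₁ D₂ x x * G2 p q x A B + gy p q x A B + e1 p q x B := by
  rw [G1, map_add, Derivation.leibniz, Dx_e1 h.crd, Dx_e1 h.crd, Dx_p h.crd, G2, gy]
  simp only [smul_eq_mul]; ring

lemma Br.G2_eq (h : Br D₁ D₂ p q A B E κN x) :
    G2 p q x A B = e p q x E * G1 p q x A B / e p q x B := by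
  rw [eq_div_iff h.ne]; linear_combination h.h2

lemma Br.hx_eq (h : Br D₁ D₂ p q A B E κN x) :
    Dx D₁ D₂ x x = - e p q x B / G1 p q x A B := by
  rw [eq_div_iff h.G1_ne]; exact h.h1

lemma Br.hq_eq (h : Br D₁ D₂ p q A B E κN x) :
    D₂ x = gy p q x A B / G1 p q x A B := by
  rw [eq_div_iff h.G1_ne]; exact h.hq

/-- the third sum, at one branch -/
lemma Br.c3 (h : Br D₁ D₂ p q A B E κN x) :
    dd D₁ D₂ ((e p q x E * e1 p q x B / (e p q x B * G1 p q x A B)) • (x, (-1 : M))) =
      ((e1 p q x E * e1 p q x B + e p q x E * e2 p q x B) / G1 p q x A B ^ 2 -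
        e p q x E * e1 p q x B * G2 p q x A B / G1 p q x A B ^ 3) -
      (e p q x E * e p q x (pderiv 1 B) / e p q x B) / G1 p q x A B := by
  rw [dd_tau, Derivation.leibniz_div, Derivation.leibniz, Derivation.leibniz, h.DG1,
    Dx_e h.crd, Dx_e h.crd, Dx_e1 h.crd]
  simp only [smul_eq_mul]
  rw [h.hx_eq, h.hq_eq, h.G2_eq, h.hgy]
  have hB := h.ne
  have hG := h.G1_ne
  field_simp
  ring

/-- The form `3 h r τ` at one branch. -/
lemma Br.total (h : Br D₁ D₂ p q A B E κN x) {f κ : R3} (hf : e p q x f ≠ 0)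
    (hκ : vf A B f = κ * f) {r : M}
    (hr : 3 * (e p q x f * G1 p q x A B) * r =
      3 * e2 p q x f * G1 p q x A B + 3 * e1 p q x f * G2 p q x A B + e p q x f * G3 p q x A B) :
    (3 * (Dx D₁ D₂ x x * r)) • (x, (-1 : M)) =
      -((3 * (e p q x κ * e p q x (κ - κN + 2 * E) / (e p q x B * G1 p q x A B))) • (x, (-1 : M)) +
        (3 : M) • (D₁ (e p q x f) / e p q x f, D₂ (e p q x f) / e p q x f) +
        (3 * (e p q x κ / G1 p q x A B), (0 : M)) +
        (e p q x κN * e p q x E / (e p q x B * G1 p q x A B)) • (x, (-1 : M)) -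
        (3 * (e p q x E * e1 p q x B / (e p q x B * G1 p q x A B))) • (x, (-1 : M)) +
        ((3 * e1 p q x κ + e1 p q x E + 2 * gy1 p q x A B + e2 p q x B) / G1 p q x A B) •
          (x, (-1 : M))) := by
  have hB := h.ne
  have hG := h.G1_ne
  have h3 := h.h3
  have r5 : e p q x B * e1 p q x f = e p q x κ * e p q x f := by
    have h1 := congrArg (e p q x) hκ
    simp only [vf, map_mul, map_sub] at h1
    have h0 := h.root
    rw [e1]
    linear_combination h1 + e p q x (pderiv 1 f) * h0
  have r6 := congrArg (Dx D₁ D₂ x) r5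
  rw [Derivation.leibniz, Derivation.leibniz, Dx_e h.crd, Dx_e h.crd, Dx_e h.crd,
    Dx_e1 h.crd] at r6
  simp only [smul_eq_mul] at r6
  have e1f : e1 p q x f = e p q x κ * e p q x f / e p q x B := by
    rw [eq_div_iff hB]; linear_combination r5
  have hD1 : D₁ x = Dx D₁ D₂ x x - x * D₂ x := by rw [Dx_apply]; ring
  have hsum : e p q x (κ - κN + 2 * E) = e p q x κ - e p q x κN + 2 * e p q x E := by
    simp only [map_add, map_sub, map_mul, map_ofNat]
  rw [h.hx_eq] at r6
  rw [e1f] at r6
  have e2f : e2 p q x f = e p q x f * (e p q x κ ^ 2 - e p q x κ * e1 p q x B) / e p q x B ^ 2 +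
      e p q x f * e1 p q x κ / e p q x B + e p q x (pderiv 1 f) * G1 p q x A B / e p q x B := by
    field_simp at r6 ⊢
    linear_combination -r6
  have e3g : G3 p q x A B = G1 p q x A B *
      (e p q x E * (e p q x κN - 3 * e1 p q x B) +
        e p q x B * (e1 p q x E + 2 * gy1 p q x A B + e2 p q x B)) / e p q x B ^ 2 := by
    rw [eq_div_iff (pow_ne_zero 2 hB)]; linear_combination h3
  have hr2 : r = (3 * e2 p q x f * G1 p q x A B + 3 * e1 p q x f * G2 p q x A B +
      e p q x f * G3 p q x A B) / (3 * (e p q x f * G1 p q x A B)) := by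
    have : CharZero M := charZero_of_injective_algebraMap (algebraMap ℂ M).injective
    rw [eq_div_iff (mul_ne_zero (by norm_num) (mul_ne_zero hf hG))]
    linear_combination hr
  have : CharZero M := charZero_of_injective_algebraMap (algebraMap ℂ M).injective
  refine Prod.ext ?_ ?_
  · simp only [Prod.fst_add, Prod.fst_sub, Prod.fst_neg, Prod.smul_fst, smul_eq_mul]
    rw [hr2, D₁_e h.crd, hsum, hD1, h.hx_eq, h.hq_eq, h.hgy, e3g, h.G2_eq, e2f, e1f]
    field_simp
    ring
  · simp only [Prod.snd_add, Prod.snd_sub, Prod.snd_neg, Prod.smul_snd, smul_eq_mul]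
    rw [hr2, D₂_e h.crd, hsum, h.hx_eq, h.hq_eq, h.hgy, e3g, h.G2_eq, e2f, e1f]
    field_simp
    ring

/-- The form `h σ` at one branch. -/
lemma Br.sig (h : Br D₁ D₂ p q A B E κN x) {f κ : R3} (hf : e p q x f ≠ 0)
    (hκ : vf A B f = κ * f) {r : M}
    (hr : 2 * (e p q x f * G1 p q x A B) * r =
      2 * e1 p q x f * G1 p q x A B + e p q x f * G2 p q x A B) :
    2 * (Dx D₁ D₂ x x * r) = -((2 * e p q x κ + e p q x E) / G1 p q x A B) := by
  have hB := h.ne
  have hG := h.G1_ne
  have r5 : e p q x B * e1 p q x f = e p q x κ * e p q x f := by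
    have h1 := congrArg (e p q x) hκ
    simp only [vf, map_mul, map_sub] at h1
    have h0 := h.root
    rw [e1]
    linear_combination h1 + e p q x (pderiv 1 f) * h0
  have e1f : e1 p q x f = e p q x κ * e p q x f / e p q x B := by
    rw [eq_div_iff hB]; linear_combination r5
  have : CharZero M := charZero_of_injective_algebraMap (algebraMap ℂ M).injective
  have hr2 : r = (2 * e1 p q x f * G1 p q x A B + e p q x f * G2 p q x A B) /
      (2 * (e p q x f * G1 p q x A B)) := by
    rw [eq_div_iff (mul_ne_zero (by norm_num) (mul_ne_zero hf hG))]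
    linear_combination hr
  rw [hr2, h.hx_eq, h.G2_eq, e1f]
  field_simp

end Pool.Agent.W638.CW
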