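import Mathlib

/-! Exterior calculus in a field with two commuting derivations and curvature of 3-webs
(problem MP_5bde83_ag). -/

set_option autoImplicit false
set_option linter.unusedSectionVars false
set_option linter.unusedSimpArgs false
set_option linter.unusedVariables false

namespace Pool.Agent.W638.CW

variable {M : Type*} [Field M] [Algebra ℂ M]

/-- the coefficient of `dp ∧ dq` in the exterior derivative of `α.1 dp + α.2 dq` -/
def dd (D₁ D₂ : Derivation ℂ M M) (α : M × M) : M := D₁ α.2 - D₂ α.1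

/-- the coefficient of `dp ∧ dq` in the wedge product of two 1-forms -/
def wedge (α β : M × M) : M := α.1 * β.2 - α.2 * β.1

/-- `η` is a Blaschke form of the 3-web given by the 1-forms `α`, `β`, `γ`. -/
def IsBlaschke (D₁ D₂ : Derivation ℂ M M) (α β γ η : M × M) : Prop :=
  ∃ u v w : M, u ≠ 0 ∧ v ≠ 0 ∧ w ≠ 0 ∧ u • α + v • β + w • γ = 0 ∧
    dd D₁ D₂ (u • α) = wedge η (u • α) ∧ dd D₁ D₂ (v • β) = wedge η (v • β) ∧
    dd D₁ D₂ (w • γ) = wedge η (w • γ)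

section

variable {D₁ D₂ : Derivation ℂ M M}

lemma dd_zero : dd D₁ D₂ 0 = 0 := by simp [dd]

lemma dd_add (α β : M × M) : dd D₁ D₂ (α + β) = dd D₁ D₂ α + dd D₁ D₂ β := by
  simp only [dd, Prod.fst_add, Prod.snd_add, map_add]; ring

lemma dd_neg (α : M × M) : dd D₁ D₂ (-α) = - dd D₁ D₂ α := by
  simp only [dd, Prod.fst_neg, Prod.snd_neg, map_neg]; ring

lemma dd_sub (α β : M × M) : dd D₁ D₂ (α - β) = dd D₁ D₂ α - dd D₁ D₂ β := by
  rw [sub_eq_add_neg, dd_add, dd_neg, ← sub_eq_add_neg]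

lemma dd_sum {ι : Type*} (s : Finset ι) (α : ι → M × M) :
    dd D₁ D₂ (∑ i ∈ s, α i) = ∑ i ∈ s, dd D₁ D₂ (α i) := by
  classical
  induction s using Finset.induction_on with
  | empty => simp [dd_zero]
  | insert a s ha ih => rw [Finset.sum_insert ha, Finset.sum_insert ha, dd_add, ih]

lemma dd_smul (f : M) (α : M × M) :
    dd D₁ D₂ (f • α) = wedge (D₁ f, D₂ f) α + f * dd D₁ D₂ α := by
  simp only [dd, wedge, Prod.smul_fst, Prod.smul_snd, smul_eq_mul, Derivation.leibniz]; ring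

lemma dd_exact (hc : ∀ a, D₁ (D₂ a) = D₂ (D₁ a)) (f : M) : dd D₁ D₂ (D₁ f, D₂ f) = 0 := by
  simp [dd, hc]

lemma dd_dlog (hc : ∀ a, D₁ (D₂ a) = D₂ (D₁ a)) {f : M} (hf : f ≠ 0) :
    dd D₁ D₂ (D₁ f / f, D₂ f / f) = 0 := by
  simp only [dd, Derivation.leibniz_div, hc, smul_eq_mul]
  ring

lemma wedge_add_left (α β γ : M × M) : wedge (α + β) γ = wedge α γ + wedge β γ := by
  simp only [wedge, Prod.fst_add, Prod.snd_add]; ring

lemma wedge_smul_left (c : M) (α β : M × M) : wedge (c • α) β = c * wedge α β := by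
  simp only [wedge, Prod.smul_fst, Prod.smul_snd, smul_eq_mul]; ring

lemma wedge_smul_right (c : M) (α β : M × M) : wedge α (c • β) = c * wedge α β := by
  simp only [wedge, Prod.smul_fst, Prod.smul_snd, smul_eq_mul]; ring

lemma wedge_self (α : M × M) : wedge α α = 0 := by simp only [wedge]; ring

lemma wedge_swap (α β : M × M) : wedge α β = - wedge β α := by simp only [wedge]; ring

lemma IsBlaschke.smul {α β γ η : M × M} (h : IsBlaschke D₁ D₂ α β γ η) {a b c : M}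
    (ha : a ≠ 0) (hb : b ≠ 0) (hc : c ≠ 0) :
    IsBlaschke D₁ D₂ (a • α) (b • β) (c • γ) η := by
  obtain ⟨u, v, w, hu, hv, hw, h0, h1, h2, h3⟩ := h
  refine ⟨u / a, v / b, w / c, div_ne_zero hu ha, div_ne_zero hv hb, div_ne_zero hw hc, ?_⟩
  simp only [smul_smul, div_mul_cancel₀ _ ha, div_mul_cancel₀ _ hb, div_mul_cancel₀ _ hc]
  exact ⟨h0, h1, h2, h3⟩

lemma IsBlaschke.swap {α β γ η : M × M} (h : IsBlaschke D₁ D₂ α β γ η) :
    IsBlaschke D₁ D₂ β α γ η := by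
  obtain ⟨u, v, w, hu, hv, hw, h0, h1, h2, h3⟩ := h
  exact ⟨v, u, w, hv, hu, hw, by rw [← h0]; abel, h2, h1, h3⟩

lemma IsBlaschke.rot {α β γ η : M × M} (h : IsBlaschke D₁ D₂ α β γ η) :
    IsBlaschke D₁ D₂ β γ α η := by
  obtain ⟨u, v, w, hu, hv, hw, h0, h1, h2, h3⟩ := h
  exact ⟨v, w, u, hv, hw, hu, by rw [← h0]; abel, h2, h3, h1⟩

/-- The curvature does not depend on the Blaschke form. -/
theorem blaschke_unique (hc : ∀ a, D₁ (D₂ a) = D₂ (D₁ a)) {α β γ η η' : M × M}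
    (hαβ : wedge α β ≠ 0) (hβγ : wedge β γ ≠ 0) (h : IsBlaschke D₁ D₂ α β γ η)
    (h' : IsBlaschke D₁ D₂ α β γ η') : dd D₁ D₂ η = dd D₁ D₂ η' := by
  obtain ⟨u, v, w, hu, hv, hw, h0, h1, h2, -⟩ := h
  obtain ⟨u', v', w', hu', hv', hw', h0', h1', h2', -⟩ := h'
  -- wedge with γ
  have e1 : u * wedge α γ + v * wedge β γ = 0 := by
    have := congrArg (fun x => wedge x γ) h0
    simp only [wedge_add_left, wedge_smul_left, wedge_self] at this
    rw [show wedge (0 : M × M) γ = 0 by simp [wedge]] at this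
    linear_combination this
  have e2 : u' * wedge α γ + v' * wedge β γ = 0 := by
    have := congrArg (fun x => wedge x γ) h0'
    simp only [wedge_add_left, wedge_smul_left, wedge_self] at this
    rw [show wedge (0 : M × M) γ = 0 by simp [wedge]] at this
    linear_combination this
  have e3 : v' = (u' / u) * v := by
    have : (v' * u - u' * v) * wedge β γ = 0 := by linear_combination u * e2 - u' * e1
    have := (mul_eq_zero.1 this).resolve_right hβγ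
    field_simp
    linear_combination this
  set f := u' / u with hf
  have hf0 : f ≠ 0 := div_ne_zero hu' hu
  have e4 : u' = f * u := by rw [hf]; field_simp
  rw [e4, mul_smul, dd_smul, h1, wedge_smul_right, wedge_smul_right] at h1'
  rw [e3, mul_smul, dd_smul, h2, wedge_smul_right, wedge_smul_right] at h2'
  simp only [wedge_smul_right] at h1' h2'
  -- the difference
  have key : ∀ ω : M × M, wedge (D₁ f, D₂ f) ω + f * wedge η ω = f * wedge η' ω →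
      (D₁ f / f + η.1 - η'.1) * ω.2 - (D₂ f / f + η.2 - η'.2) * ω.1 = 0 := by
    intro ω h
    simp only [wedge] at h
    field_simp
    linear_combination h
  have k1 := key α (mul_left_cancel₀ hu (by linear_combination h1'))
  have k2 := key β (mul_left_cancel₀ hv (by linear_combination h2'))
  have k3 : D₁ f / f + η.1 - η'.1 = 0 := by
    have : (D₁ f / f + η.1 - η'.1) * wedge α β = 0 := by
      simp only [wedge]
      linear_combination α.1 * k2 - β.1 * k1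
    exact (mul_eq_zero.1 this).resolve_right hαβ
  have k4 : D₂ f / f + η.2 - η'.2 = 0 := by
    have : (D₂ f / f + η.2 - η'.2) * wedge α β = 0 := by
      simp only [wedge]
      linear_combination α.2 * k2 - β.2 * k1
    exact (mul_eq_zero.1 this).resolve_right hαβ
  have k5 : η' = (D₁ f / f, D₂ f / f) + η := by
    refine Prod.ext ?_ ?_
    · simp only [Prod.fst_add]; linear_combination -k3
    · simp only [Prod.snd_add]; linear_combination -k4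
  rw [k5, dd_add, dd_dlog hc hf0, zero_add]

/-- Explicit Blaschke form of the 3-web `x dp - dq`, `y dp - dq`, `z dp - dq`. -/
theorem blaschke_fin {x y z : M} (hxy : x ≠ y) (hyz : y ≠ z) (hxz : x ≠ z) :
    IsBlaschke D₁ D₂ (x, -1) (y, -1) (z, -1)
      ((D₁ ((x - y) * (y - z) * (z - x)) / ((x - y) * (y - z) * (z - x)),
        D₂ ((x - y) * (y - z) * (z - x)) / ((x - y) * (y - z) * (z - x))) +
      ((D₂ x + D₂ y + D₂ z, 0) +
      ((D₁ x + x * D₂ x) / ((x - y) * (x - z))) • (y + z - x, (-1 : M)) +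
      ((D₁ y + y * D₂ y) / ((y - x) * (y - z))) • (x + z - y, (-1 : M)) +
      ((D₁ z + z * D₂ z) / ((z - x) * (z - y))) • (x + y - z, (-1 : M)))) := by
  have h1 : x - y ≠ 0 := sub_ne_zero.2 hxy
  have h2 : y - z ≠ 0 := sub_ne_zero.2 hyz
  have h3 : x - z ≠ 0 := sub_ne_zero.2 hxz
  have h1' : y - x ≠ 0 := sub_ne_zero.2 hxy.symm
  have h2' : z - y ≠ 0 := sub_ne_zero.2 hyz.symm
  have h3' : z - x ≠ 0 := sub_ne_zero.2 hxz.symm
  refine ⟨y - z, z - x, x - y, h2, h3', h1, ?_, ?_, ?_, ?_⟩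
  · refine Prod.ext ?_ ?_
    · simp; ring
    · simp
  all_goals
    simp only [dd, wedge, Prod.fst_add, Prod.snd_add, Prod.smul_fst, Prod.smul_snd, smul_eq_mul,
      Derivation.leibniz, map_sub, map_neg, map_one, Derivation.map_one_eq_zero]
    field_simp
    ring

/-- Explicit Blaschke form of the 3-web `x dp - dq`, `y dp - dq`, `dp`. -/
theorem blaschke_inf {x y : M} (hxy : x ≠ y) :
    IsBlaschke D₁ D₂ (x, -1) (y, -1) (1, 0)
      ((D₁ (x - y) / (x - y), D₂ (x - y) / (x - y)) +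
      (D₂ x + D₂ y - ((D₁ x + x * D₂ x) - (D₁ y + y * D₂ y)) / (x - y), 0)) := by
  have h1 : x - y ≠ 0 := sub_ne_zero.2 hxy
  refine ⟨1, -1, -(x - y), one_ne_zero, by simp, neg_ne_zero.2 h1, ?_, ?_, ?_, ?_⟩
  · refine Prod.ext ?_ ?_
    · simp; ring
    · simp
  all_goals
    simp only [dd, wedge, Prod.fst_add, Prod.snd_add, Prod.smul_fst, Prod.smul_snd, smul_eq_mul,
      Derivation.leibniz, map_sub, map_neg, map_one, map_zero, Derivation.map_one_eq_zero, one_mul, mul_one, mul_zero]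
    field_simp
    ring

end

/-! change of coordinates -/

section

variable {D₁ D₂ : Derivation ℂ M M} (P Q : M)

/-- Jacobian -/
def Jac (D₁ D₂ : Derivation ℂ M M) (P Q : M) : M := D₁ P * D₂ Q - D₂ P * D₁ Q

/-- `∂/∂P` -/
noncomputable def E₁ (D₁ D₂ : Derivation ℂ M M) (P Q : M) : Derivation ℂ M M :=
  (Jac D₁ D₂ P Q)⁻¹ • (D₂ Q • D₁ - D₁ Q • D₂)

/-- `∂/∂Q` -/
noncomputable def E₂ (D₁ D₂ : Derivation ℂ M M) (P Q : M) : Derivation ℂ M M :=
  (Jac D₁ D₂ P Q)⁻¹ • (D₁ P • D₂ - D₂ P • D₁)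

/-- the form `α.1 dP + α.2 dQ` in the basis `dp, dq` -/
def pull (D₁ D₂ : Derivation ℂ M M) (P Q : M) (α : M × M) : M × M :=
  (α.1 * D₁ P + α.2 * D₁ Q, α.1 * D₂ P + α.2 * D₂ Q)

lemma E₁_apply (f : M) : E₁ D₁ D₂ P Q f = (Jac D₁ D₂ P Q)⁻¹ * (D₂ Q * D₁ f - D₁ Q * D₂ f) := by
  simp [E₁]

lemma E₂_apply (f : M) : E₂ D₁ D₂ P Q f = (Jac D₁ D₂ P Q)⁻¹ * (D₁ P * D₂ f - D₂ P * D₁ f) := by
  simp [E₂]

variable {P Q}

lemma D₁_eq (hJ : Jac D₁ D₂ P Q ≠ 0) (f : M) :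
    D₁ f = E₁ D₁ D₂ P Q f * D₁ P + E₂ D₁ D₂ P Q f * D₁ Q := by
  rw [E₁_apply, E₂_apply]
  field_simp
  rw [Jac]; ring

lemma D₂_eq (hJ : Jac D₁ D₂ P Q ≠ 0) (f : M) :
    D₂ f = E₁ D₁ D₂ P Q f * D₂ P + E₂ D₁ D₂ P Q f * D₂ Q := by
  rw [E₁_apply, E₂_apply]
  field_simp
  rw [Jac]; ring

lemma dd_pull (hc : ∀ a, D₁ (D₂ a) = D₂ (D₁ a)) (hJ : Jac D₁ D₂ P Q ≠ 0) (α : M × M) :
    dd D₁ D₂ (pull D₁ D₂ P Q α) =
      Jac D₁ D₂ P Q * dd (E₁ D₁ D₂ P Q) (E₂ D₁ D₂ P Q) α := by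
  simp only [dd, pull, map_add, Derivation.leibniz, smul_eq_mul, hc]
  rw [E₁_apply, E₂_apply, ← mul_sub, mul_inv_cancel_left₀ hJ]
  ring

lemma wedge_pull (α β : M × M) :
    wedge (pull D₁ D₂ P Q α) (pull D₁ D₂ P Q β) = Jac D₁ D₂ P Q * wedge α β := by
  simp only [wedge, pull, Jac]; ring

lemma E_comm (hc : ∀ a, D₁ (D₂ a) = D₂ (D₁ a)) (hJ : Jac D₁ D₂ P Q ≠ 0) (f : M) :
    E₁ D₁ D₂ P Q (E₂ D₁ D₂ P Q f) = E₂ D₁ D₂ P Q (E₁ D₁ D₂ P Q f) := by
  have h1 : pull D₁ D₂ P Q (E₁ D₁ D₂ P Q f, E₂ D₁ D₂ P Q f) = (D₁ f, D₂ f) := by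
    refine Prod.ext ?_ ?_
    · simp only [pull]; rw [← D₁_eq hJ]
    · simp only [pull]; rw [← D₂_eq hJ]
  have h2 := dd_pull (D₁ := D₁) (D₂ := D₂) hc hJ (E₁ D₁ D₂ P Q f, E₂ D₁ D₂ P Q f)
  rw [h1, dd_exact hc] at h2
  have h3 := (mul_eq_zero.1 h2.symm).resolve_left hJ
  exact sub_eq_zero.1 h3

lemma E₁P (hJ : Jac D₁ D₂ P Q ≠ 0) : E₁ D₁ D₂ P Q P = 1 := by
  rw [E₁_apply]; field_simp; rw [Jac]; ring
lemma E₁Q : E₁ D₁ D₂ P Q Q = 0 := by rw [E₁_apply]; ring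
lemma E₂P : E₂ D₁ D₂ P Q P = 0 := by rw [E₂_apply]; ring
lemma E₂Q (hJ : Jac D₁ D₂ P Q ≠ 0) : E₂ D₁ D₂ P Q Q = 1 := by
  rw [E₂_apply]; field_simp; rw [Jac]

lemma pull_smul (c : M) (α : M × M) : pull D₁ D₂ P Q (c • α) = c • pull D₁ D₂ P Q α := by
  refine Prod.ext ?_ ?_ <;> simp [pull] <;> ring

lemma pull_add (α β : M × M) :
    pull D₁ D₂ P Q (α + β) = pull D₁ D₂ P Q α + pull D₁ D₂ P Q β := by
  refine Prod.ext ?_ ?_ <;> simp [pull] <;> ring

lemma pull_surj (hJ : Jac D₁ D₂ P Q ≠ 0) (β : M × M) : ∃ α, pull D₁ D₂ P Q α = β := by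
  refine ⟨((Jac D₁ D₂ P Q)⁻¹ * (D₂ Q * β.1 - D₁ Q * β.2),
    (Jac D₁ D₂ P Q)⁻¹ * (D₁ P * β.2 - D₂ P * β.1)), ?_⟩
  refine Prod.ext ?_ ?_
  · simp only [pull]; field_simp; rw [Jac]; ring
  · simp only [pull]; field_simp; rw [Jac]; ring

lemma pull_inj (hJ : Jac D₁ D₂ P Q ≠ 0) {α : M × M} (h : pull D₁ D₂ P Q α = 0) : α = 0 := by
  have h1 : α.1 * D₁ P + α.2 * D₁ Q = 0 := congrArg Prod.fst h
  have h2 : α.1 * D₂ P + α.2 * D₂ Q = 0 := congrArg Prod.snd h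
  refine Prod.ext ?_ ?_
  · have : α.1 * Jac D₁ D₂ P Q = 0 := by rw [Jac]; linear_combination D₂ Q * h1 - D₁ Q * h2
    exact (mul_eq_zero.1 this).resolve_right hJ
  · have : α.2 * Jac D₁ D₂ P Q = 0 := by rw [Jac]; linear_combination D₁ P * h2 - D₂ P * h1
    exact (mul_eq_zero.1 this).resolve_right hJ

lemma isBlaschke_pull (hc : ∀ a, D₁ (D₂ a) = D₂ (D₁ a)) (hJ : Jac D₁ D₂ P Q ≠ 0)
    (α β γ η : M × M) :
    IsBlaschke D₁ D₂ (pull D₁ D₂ P Q α) (pull D₁ D₂ P Q β) (pull D₁ D₂ P Q γ)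
      (pull D₁ D₂ P Q η) ↔
    IsBlaschke (E₁ D₁ D₂ P Q) (E₂ D₁ D₂ P Q) α β γ η := by
  have key : ∀ (u : M) (ω : M × M), dd D₁ D₂ (u • pull D₁ D₂ P Q ω) =
      wedge (pull D₁ D₂ P Q η) (u • pull D₁ D₂ P Q ω) ↔
      dd (E₁ D₁ D₂ P Q) (E₂ D₁ D₂ P Q) (u • ω) = wedge η (u • ω) := by
    intro u ω
    rw [← pull_smul, dd_pull hc hJ, wedge_pull]
    exact ⟨fun h => mul_left_cancel₀ hJ h, fun h => by rw [h]⟩
  unfold IsBlaschke
  constructor
  · rintro ⟨u, v, w, hu, hv, hw, h0, h1, h2, h3⟩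
    refine ⟨u, v, w, hu, hv, hw, ?_, (key _ _).1 h1, (key _ _).1 h2, (key _ _).1 h3⟩
    apply pull_inj hJ
    rw [pull_add, pull_add, pull_smul, pull_smul, pull_smul, h0]
  · rintro ⟨u, v, w, hu, hv, hw, h0, h1, h2, h3⟩
    refine ⟨u, v, w, hu, hv, hw, ?_, (key _ _).2 h1, (key _ _).2 h2, (key _ _).2 h3⟩
    rw [← pull_smul, ← pull_smul, ← pull_smul, ← pull_add, ← pull_add, h0]
    simp [pull]

end

end Pool.Agent.W638.CW
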